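import Pool.Agent.KS.Cent

/-!
Module CentF. The versions for families of `KS.comm_products`, `KS.comm_of_products`: adapt the
proofs in `Pool/Agent/KS/Cent.lean`.
-/

namespace Pool.Agent.KSP

open Module Matrix Pool.Agent.Helper7 Pool.Agent.KS

variable {I : Type} [Fintype I] [DecidableEq I] (n : I → ℕ) {κ : I → Type}
    [∀ i, Fintype (κ i)] [∀ i, DecidableEq (κ i)] {ϖ : ℂ} (hϖ : ϖ ≠ 0) (P : ∀ i, PData (κ i) ϖ)
    (i : I) {d : ℕ} {G : Matrix (Fin d) (Fin d) ℚ} {t : Fin d → Module.End ℂ (κ i → ℂ)}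
    (K : KSD (P i) G t) {k : ℕ}
    (γ : MultilinearMap ℂ (fun _ : Fin (2 * k) => HW κ n) ℂ)
    (hB : ∀ v : Fin (2 * k) → HW κ n, (∀ r, IsRatP n P (v r)) → ∃ q : ℚ, γ v = ϖ ^ k * q)
    (hA : ∀ v : Fin (2 * k) → HW κ n, (∀ r i m j, IsAlgebraic ℚ (v r i m j)) →
      IsAlgebraic ℚ (γ v))

include hϖ K hB hA in
theorem comm_productsF (f : Module.End ℂ (κ i → ℂ))
    (hf : ∀ X : GG κ, IsInv n P γ X → X.1 i * f = f * X.1 i) (a b : Fin d) :
    f * (t a * t b) = t a * t b * f := by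
  obtain ⟨m, c, F, hF, hβ⟩ := bilin_of_inv n P γ hϖ hB hA i i
    ((P i).ψ ∘ₗ f) (by
      intro X hX u v
      have h1 := hX.pol i (f u) v
      have h2 : X.1 i (f u) = f (X.1 i u) := LinearMap.congr_fun (hf X hX) u
      rw [h2] at h1
      exact h1)
  have hsum : f = ∑ l, c l • F l := by
    apply LinearMap.ext
    intro u
    rw [← sub_eq_zero]
    apply (P i).hψnd
    intro v
    have h3 : (P i).ψ (f u) v = ∑ l, c l * (P i).ψ (F l u) v := hβ u v
    rw [map_sub, LinearMap.sub_apply, h3, LinearMap.sum_apply, map_sum, LinearMap.sum_apply]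
    simp only [LinearMap.smul_apply, map_smul, smul_eq_mul, sub_self]
  rw [hsum, Finset.sum_mul, Finset.mul_sum]
  refine Finset.sum_congr rfl fun l _ => ?_
  rw [smul_mul_assoc, mul_smul_comm, ((K.cent (F l)).1 (hF l)).2 a b]

include K in
theorem comm_of_productsF (f : Module.End ℂ (κ i → ℂ))
    (hf : ∀ a b, f * (t a * t b) = t a * t b * f) (X : GG κ) (hX : IsInv n P γ X) :
    X.1 i * f = f * X.1 i := by
  obtain ⟨m, c, F, hc, hF, hsum⟩ := cent_decomp (P i) f
  have hFc : ∀ l a b, F l * (t a * t b) = t a * t b * F l := by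
    intro l a b
    refine cent_comm (P i) hc hF (T := t a * t b) ?_ ?_ l
    · intro v hv
      exact K.rat a _ (K.rat b v hv)
    · rw [← hsum]
      exact hf a b
  have hD : ∀ l, IsDRB (P i) (P i) (F l) := fun l => (K.cent (F l)).2 ⟨hF l, hFc l⟩
  rw [hsum, Finset.sum_mul, Finset.mul_sum]
  refine Finset.sum_congr rfl fun l _ => ?_
  rw [smul_mul_assoc, mul_smul_comm]
  congr 1
  apply LinearMap.ext
  intro v
  exact hX.comm i i (F l) (hD l) v

end Pool.Agent.KSP
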