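import Pool.Agent.KS.Iso
import Pool.Agent.KSP.CentF

/-!
Module IsoF. The version for families of `KS.no_isotropic`: adapt the proof in
`Pool/Agent/KS/Iso.lean`.
-/

namespace Pool.Agent.KSP

open Module Matrix Pool.Agent.Helper7 Pool.Agent.KS

variable {I : Type} [Fintype I] [DecidableEq I] (n : I → ℕ) {κ : I → Type}
    [∀ i, Fintype (κ i)] [∀ i, DecidableEq (κ i)] {ϖ : ℂ} (hϖ : ϖ ≠ 0) (P : ∀ i, PData (κ i) ϖ)
    (i : I) {d : ℕ} {G : Matrix (Fin d) (Fin d) ℚ} {t : Fin d → Module.End ℂ (κ i → ℂ)}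
    (K : KSD (P i) G t) {k : ℕ}
    (γ : MultilinearMap ℂ (fun _ : Fin (2 * k) => HW κ n) ℂ)
    (hB : ∀ v : Fin (2 * k) → HW κ n, (∀ r, IsRatP n P (v r)) → ∃ q : ℚ, γ v = ϖ ^ k * q)
    (hA : ∀ v : Fin (2 * k) → HW κ n, (∀ r i m j, IsAlgebraic ℚ (v r i m j)) →
      IsAlgebraic ℚ (γ v))

open IsoAux in
include hϖ K hB hA in
theorem no_isotropicF (hκ : Nonempty (κ i)) (hP : HNd (P i)) (hn : 3 ≤ d) (hG : Gᵀ = G)
    (hnd : (bil (rm G)).Nondegenerate)
    (hT : ∀ X : GG κ, IsInv n P γ X → ∃ M, Act t (X.1 i) M)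
    (U : Submodule ℚ (Fin d → ℚ)) (hU0 : U ≠ ⊥) (hiso : ∀ x ∈ U, ∀ y ∈ U, x ⬝ᵥ (G *ᵥ y) = 0)
    (hst : ∀ (X : GG κ) (M : Module.End ℂ (Fin d → ℂ)),
      IsInv n P γ X → Act t (X.1 i) M → ∀ x ∈ U,
        M (fun a => ((x a : ℚ) : ℂ)) ∈
          Submodule.span ℂ {z | ∃ y ∈ U, z = fun a => ((y a : ℚ) : ℂ)}) : False := by
  classical
  -- the common kernel
  let S : Submodule ℚ (κ i → ℂ) :=
    { carrier := {v | v ∈ (P i).Q ∧ ∀ x ∈ U, tau t (rv x) v = 0}
      zero_mem' := ⟨(P i).Q.zero_mem, fun x _ => map_zero _⟩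
      add_mem' := by
        rintro a b ⟨ha, ha'⟩ ⟨hb, hb'⟩
        exact ⟨(P i).Q.add_mem ha hb, fun x hx => by rw [map_add, ha' x hx, hb' x hx, add_zero]⟩
      smul_mem' := by
        rintro c a ⟨ha, ha'⟩
        refine ⟨(P i).Q.smul_mem c ha, fun x hx => ?_⟩
        have h1 : c • a = (c : ℂ) • a := by
          rw [← algebraMap_smul ℂ c a]; rfl
        rw [h1, map_smul, ha' x hx, smul_zero] }
  have hSmem : ∀ v, v ∈ S ↔ v ∈ (P i).Q ∧ ∀ x ∈ U, tau t (rv x) v = 0 := fun v => Iff.rfl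
  have hSQ : S ≤ (P i).Q := fun v hv => ((hSmem v).mp hv).1
  have hSspan : ∀ v ∈ Submodule.span ℂ (S : Set (κ i → ℂ)), ∀ x ∈ U, tau t (rv x) v = 0 := by
    intro v hv x hx
    induction hv using Submodule.span_induction with
    | mem v hv => exact ((hSmem v).mp hv).2 x hx
    | zero => rw [map_zero]
    | add a b _ _ ha hb => rw [map_add, ha, hb, add_zero]
    | smul c a _ ha => rw [map_smul, ha, smul_zero]
  have hSst : ∀ Y : GG κ, IsInv n P γ Y →
      IsRatl P Y → ∀ v ∈ S, Y.1 i v ∈ S := by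
    intro Y hY hYr v hv
    obtain ⟨M, hM⟩ := hT Y hY
    rw [hSmem] at hv ⊢
    refine ⟨hYr.1 i v hv.1, fun x hx => ?_⟩
    have h1 := hst Y M hY hM x hx
    have h2 : tau t (M (rv x)) v = 0 := by
      have h3 : ∀ z ∈ Submodule.span ℂ {z : Fin d → ℂ | ∃ y ∈ U, z = fun a => ((y a : ℚ) : ℂ)},
          tau t z v = 0 := by
        intro z hz
        induction hz using Submodule.span_induction with
        | mem z hz =>
          obtain ⟨y, hy, rfl⟩ := hz
          exact hv.2 y hy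
        | zero => rw [map_zero, LinearMap.zero_apply]
        | add a b _ _ ha hb => rw [map_add, LinearMap.add_apply, ha, hb, add_zero]
        | smul c a _ ha => rw [map_smul, LinearMap.smul_apply, ha, smul_zero]
      exact h3 _ h1
    have h3 := congrArg (fun f => f v) (hM (rv x))
    have h4 : Y.1 i (tau t (rv x) v) - tau t (rv x) (Y.1 i v) = tau t (M (rv x)) v := h3
    rw [h2, hv.2 x hx, map_zero, zero_sub, neg_eq_zero] at h4
    exact h4
  have hSnd := hP S hSQ (algebraic_of_stable n P γ hϖ hB hA i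
    (S : Set (κ i → ℂ)) (fun v hv => hSQ hv)
    (fun Y hY hYr v hv => Submodule.subset_span (hSst Y hY hYr v hv)))
  -- the orthogonal complement
  obtain ⟨S', hcompl, hS'⟩ := isCompl_of_nondeg (P i) hϖ (S.comap (P i).Q.subtype)
    (fun u hu h => by
      apply Subtype.ext
      exact hSnd u hu (fun v hv => h ⟨v, hSQ hv⟩ hv))
  obtain ⟨pQ, hpQ⟩ : ∃ pQ : Module.End ℚ (P i).Q, pQ = (S.comap (P i).Q.subtype).projection S' hcompl :=
    ⟨_, rfl⟩
  have hpS : ∀ v, ((pQ v : (P i).Q) : κ i → ℂ) ∈ S := fun v => by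
    have h1 : pQ v ∈ S.comap (P i).Q.subtype := by
      rw [hpQ]; exact Submodule.projection_apply_mem hcompl v
    exact h1
  have hpid : ∀ v : (P i).Q, (v : κ i → ℂ) ∈ S → pQ v = v := fun v hv => by
    rw [hpQ]; exact Submodule.projection_apply_of_mem_left hcompl hv
  have hp0 : ∀ v ∈ S', pQ v = 0 := fun v hv => by
    rw [hpQ]; exact (Submodule.projection_apply_eq_zero_iff hcompl).mpr hv
  have hpx : ∀ v, v - pQ v ∈ S' := by
    intro v
    rw [← Submodule.projection_apply_eq_zero_iff hcompl, ← hpQ, map_sub, hpid _ (hpS v), sub_self]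
  -- the complex projector
  obtain ⟨p, hp⟩ : ∃ p : Module.End ℂ (κ i → ℂ), p = (P i).bB.constr ℂ
      (fun j => ((pQ ⟨(P i).bB j, (P i).basis_mem j⟩ : (P i).Q) : κ i → ℂ)) := ⟨_, rfl⟩
  have hpb : ∀ j, p ((P i).bB j) = ((pQ ⟨(P i).bB j, (P i).basis_mem j⟩ : (P i).Q) : κ i → ℂ) := by
    intro j; rw [hp]; exact Basis.constr_basis _ _ _ _
  have hpv : ∀ v : (P i).Q, p v = ((pQ v : (P i).Q) : κ i → ℂ) := by
    rintro ⟨v, hv⟩
    have hv' : v ∈ Submodule.span ℚ (Set.range (P i).bB) := hv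
    have key : ∀ v ∈ Submodule.span ℚ (Set.range (P i).bB), ∀ hv : v ∈ (P i).Q,
        p v = ((pQ ⟨v, hv⟩ : (P i).Q) : κ i → ℂ) := by
      intro v hv'
      induction hv' using Submodule.span_induction with
      | mem x hx =>
        obtain ⟨j, rfl⟩ := hx
        intro hv
        exact hpb j
      | zero =>
        intro hv
        rw [map_zero]
        have h1 : (⟨0, hv⟩ : (P i).Q) = 0 := rfl
        rw [h1, map_zero]; rfl
      | add x y hx' hy' hx hy =>
        intro hv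
        rw [map_add, hx hx', hy hy']
        have h1 : (⟨x + y, hv⟩ : (P i).Q) = ⟨x, hx'⟩ + ⟨y, hy'⟩ := rfl
        rw [h1, map_add]; rfl
      | smul c x hx' hx =>
        intro hv
        have h2 : ∀ w : κ i → ℂ, c • w = (c : ℂ) • w := by
          intro w
          rw [← algebraMap_smul ℂ c w]; rfl
        have h3 : p (c • x) = c • p x := by rw [h2, h2, map_smul]
        have h1 : pQ (⟨c • x, hv⟩ : (P i).Q) = c • pQ ⟨x, hx'⟩ := by
          rw [← map_smul]; rfl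
        rw [h3, h1, hx hx']; rfl
    exact key v hv' hv
  have hprat : ∀ v ∈ (P i).Q, p v ∈ (P i).Q := fun v hv => by
    rw [hpv ⟨v, hv⟩]; exact (pQ ⟨v, hv⟩).2
  have hpspan : ∀ v, p v ∈ Submodule.span ℂ (S : Set (κ i → ℂ)) := by
    intro v
    rw [← (P i).bB.sum_repr v, map_sum]
    refine Submodule.sum_mem _ fun j _ => ?_
    rw [map_smul, hpb]
    exact Submodule.smul_mem _ _ (Submodule.subset_span (hpS _))
  have hpc : ∀ Y : GG κ, IsInv n P γ Y →
      IsRatl P Y → ∀ v, Y.1 i (p v) = p (Y.1 i v) := by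
    intro Y hY hYr
    have h1 : Y.1 i ∘ₗ p = p ∘ₗ Y.1 i := by
      apply (P i).bB.ext
      intro j
      rw [LinearMap.comp_apply, LinearMap.comp_apply]
      obtain ⟨v, hv⟩ : ∃ v : (P i).Q, v = ⟨(P i).bB j, (P i).basis_mem j⟩ := ⟨_, rfl⟩
      have hvi : (P i).bB j = (v : κ i → ℂ) := by rw [hv]
      obtain ⟨b, hb⟩ : ∃ b : (P i).Q, b = v - pQ v := ⟨_, rfl⟩
      have hbS' : b ∈ S' := by rw [hb]; exact hpx v
      have hYb : (⟨Y.1 i b, hYr.1 i _ b.2⟩ : (P i).Q) ∈ S' := by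
        rw [hS']
        intro u hu
        have h2 := hY.pol i (u : κ i → ℂ) (b : κ i → ℂ)
        have h3 : (P i).ψ (Y.1 i (u : κ i → ℂ)) (b : κ i → ℂ) = 0 :=
          (hS' b).mp hbS' ⟨Y.1 i u, hYr.1 i _ u.2⟩ (hSst Y hY hYr u hu)
        have h4 : (P i).ψ (u : κ i → ℂ) (b : κ i → ℂ) = 0 := (hS' b).mp hbS' u hu
        rw [h3, h4, zero_add, mul_zero] at h2
        exact h2
      have hYa := hSst Y hY hYr _ (hpS v)
      have h5 : (v : κ i → ℂ) = (pQ v : (P i).Q) + (b : κ i → ℂ) := by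
        rw [hb]
        show (v : κ i → ℂ) = (pQ v : (P i).Q) + ((v : κ i → ℂ) - (pQ v : (P i).Q))
        abel
      have h6 : p (Y.1 i (b : κ i → ℂ)) = 0 := by
        have h7 := hpv ⟨Y.1 i b, hYr.1 i _ b.2⟩
        rw [hp0 _ hYb] at h7
        exact h7
      have h8 : p (Y.1 i ((pQ v : (P i).Q) : κ i → ℂ)) = Y.1 i ((pQ v : (P i).Q) : κ i → ℂ) := by
        have h9 := hpv ⟨Y.1 i ((pQ v : (P i).Q) : κ i → ℂ), hSQ hYa⟩
        rw [hpid ⟨Y.1 i ((pQ v : (P i).Q) : κ i → ℂ), hSQ hYa⟩ hYa] at h9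
        exact h9
      rw [hvi, hpv v]
      conv_rhs => rw [h5, map_add, map_add, h6, h8, add_zero]
    exact fun v => congrArg (fun g => g v) h1
  have hpdrb : IsDRB (P i) (P i) p :=
    isDRB_of_rat_comm n P γ hϖ hB hA i i p hprat hpc
  have hpt := ((K.cent p).mp hpdrb).2
  have hptau : ∀ x y : Fin d → ℂ, ∀ v, p (tau t x (tau t y v)) = tau t x (tau t y (p v)) := by
    intro x y v
    have h1 : p * (tau t x * tau t y) = tau t x * tau t y * p := by
      rw [tau_apply, tau_apply, Finset.sum_mul_sum, Finset.mul_sum, Finset.sum_mul]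
      refine Finset.sum_congr rfl fun a _ => ?_
      rw [Finset.mul_sum, Finset.sum_mul]
      refine Finset.sum_congr rfl fun b _ => ?_
      rw [smul_mul_smul_comm, mul_smul_comm, smul_mul_assoc, hpt]
    exact congrArg (fun f => f v) h1
  -- the contradiction
  obtain ⟨v, hvQ, hv0, hvU⟩ := exists_ker K U hiso
  have hvS : v ∈ S := (hSmem v).mpr ⟨hvQ, hvU⟩
  have hpvv : p v = v := by
    have h1 := hpv ⟨v, hvQ⟩
    rw [hpid _ hvS] at h1
    exact h1
  obtain ⟨x, hxU, hx0⟩ := Submodule.exists_mem_ne_zero_of_ne_bot hU0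
  obtain ⟨y, hy⟩ : ∃ y, x ⬝ᵥ (G *ᵥ y) ≠ 0 := by
    by_contra hcon
    push Not at hcon
    exact hx0 (rv_nondeg hnd x hcon)
  obtain ⟨z, hxz, hzz⟩ := exists_aniso hG hnd hn x y hy
  have h1 : tau t (rv y) (tau t (rv z) v) ∈ Submodule.span ℂ (S : Set (κ i → ℂ)) := by
    have h2 := hptau (rv y) (rv z) v
    rw [hpvv] at h2
    rw [← h2]
    exact hpspan _
  have h2 := hSspan _ h1 x hxU
  have h3 := congrArg (fun f => f (tau t (rv z) v)) (tau_cliff K.cliff (rv x) (rv y))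
  have h4 : tau t (rv x) (tau t (rv y) (tau t (rv z) v)) +
      tau t (rv y) (tau t (rv x) (tau t (rv z) v)) =
      (2 * bil (rm G) (rv x) (rv y)) • tau t (rv z) v := h3
  rw [h2, tau_anti K x z hxz, hvU x hxU, map_zero, neg_zero, map_zero, add_zero, bil_rv] at h4
  have h5 : tau t (rv z) v = 0 := by
    rcases smul_eq_zero.mp h4.symm with h6 | h6
    · exfalso
      rcases mul_eq_zero.mp h6 with h7 | h7
      · exact two_ne_zero h7
      · exact hy (by exact_mod_cast h7)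
    · exact h6
  have h6 := tau_sq K z v
  rw [h5, map_zero] at h6
  rcases smul_eq_zero.mp h6.symm with h7 | h7
  · exact hzz (by exact_mod_cast h7)
  · exact hv0 h7

end Pool.Agent.KSP
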