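import Pool.Agent.KSP.Defs

/-!
Module Avg. Maps between Clifford modules commuting with the even Clifford algebra.

Proof. Let `v 1, ..., v n` be an orthogonal basis, `g a = q (v a) (v a) ≠ 0`, `T a = τ (v a)`,
`T' a = τ' (v a)`: `T a * T a = g a • 1`, `T a * T b = - T b * T a` for `a ≠ b`.
Induction on `m`: there is `f` with `Φ f ≠ 0` commuting with `T a * T b` for `a, b < m`. Let
`u = T 1 * T m`, `u' = T' 1 * T' m`, `u * u = - g 1 * g m`, and `Ad f = u' ∘ f ∘ u⁻¹`. `Ad (Ad f) = f`;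
`Ad f` commutes with `T a * T b`, if `f` does, and
`f + Ad f` commutes with `u`; `Φ (Ad f) = Ad (Φ f)`. If `Φ (f + Ad f) ≠ 0` take `f + Ad f`. Otherwise
`Φ (Ad f) = - Φ f`; let `h = T 1 * ... * T (m - 1)`, invertible, it commutes with the `T a * T b`,
`a, b < m`, and anticommutes with `u`. Take `f h + Ad (f h) = f h - (Ad f) h`:
`Φ` of it is `(Φ f - Φ (Ad f)) h = 2 (Φ f) h ≠ 0`.
-/

namespace Pool.Agent.KSP

open Module Matrix Pool.Agent.KS

namespace Avg

section ring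

variable {B : Type} [Ring B] [Algebra ℂ B]

lemma exists_h {N : ℕ} (T : Fin N → B) (g : Fin N → ℂ) (hg : ∀ a, g a ≠ 0)
    (hsq : ∀ a, T a * T a = g a • (1 : B)) (hac : ∀ a b, a ≠ b → T a * T b = -(T b * T a))
    (S : Subalgebra ℂ B) (hS : ∀ a, T a ∈ S) (m : ℕ) (hm : m ≤ N) :
    ∃ (h h' : B) (s : ℂ), h ∈ S ∧ h * h' = 1 ∧ s * s = 1 ∧
      (∀ b : Fin N, b.val < m → T b * h = s • (h * T b)) ∧
      (∀ b : Fin N, m ≤ b.val → T b * h = (-s) • (h * T b)) := by
  induction m with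
  | zero =>
    refine ⟨1, 1, -1, S.one_mem, by simp, by norm_num, fun b hb => absurd hb (by omega), ?_⟩
    intro b _
    simp
  | succ m ih =>
    obtain ⟨h, h', s, hh, hinv, hss, h1, h2⟩ := ih (by omega)
    let c : Fin N := ⟨m, by omega⟩
    refine ⟨h * T c, (g c)⁻¹ • (T c * h'), -s, S.mul_mem hh (hS c), ?_, by linear_combination hss,
      ?_, ?_⟩
    · rw [mul_smul_comm, mul_assoc, ← mul_assoc (T c) (T c), hsq, smul_mul_assoc, one_mul,
        mul_smul_comm, smul_smul, inv_mul_cancel₀ (hg c), one_smul, hinv]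
    · intro b hb
      by_cases hbc : b = c
      · rw [hbc, ← mul_assoc, h2 c (le_refl _), smul_mul_assoc]
      · have hb' : b.val < m := by
          have : b.val ≠ m := fun h => hbc (Fin.ext h)
          omega
        rw [← mul_assoc, h1 b hb', smul_mul_assoc, mul_assoc, hac b c hbc, mul_neg, smul_neg,
          neg_smul, mul_assoc]
    · intro b hb
      have hbc : b ≠ c := by
        intro h
        have : b.val = m := by rw [h]
        omega
      rw [← mul_assoc, h2 b (by omega), smul_mul_assoc, mul_assoc, hac b c hbc, mul_neg, smul_neg,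
          neg_smul, neg_neg, mul_assoc, neg_neg]

end ring

section inter

variable {V V' : Type} [AddCommGroup V] [Module ℂ V] [AddCommGroup V'] [Module ℂ V']

/-- pairs intertwined by `f` -/
def I (f : V →ₗ[ℂ] V') : Subalgebra ℂ (Module.End ℂ V × Module.End ℂ V') where
  carrier := {b | f ∘ₗ b.1 = b.2 ∘ₗ f}
  mul_mem' := by
    intro a b ha hb
    simp only [Set.mem_ofPred_eq, Prod.fst_mul, Prod.snd_mul, Module.End.mul_eq_comp] at *
    rw [← LinearMap.comp_assoc, ha, LinearMap.comp_assoc, hb, LinearMap.comp_assoc]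
  add_mem' := by
    intro a b ha hb
    simp only [Set.mem_ofPred_eq, Prod.fst_add, Prod.snd_add] at *
    rw [LinearMap.comp_add, LinearMap.add_comp, ha, hb]
  algebraMap_mem' := by
    intro r
    simp only [Set.mem_ofPred_eq, Algebra.algebraMap_eq_smul_one, Prod.smul_fst, Prod.smul_snd,
      Prod.fst_one, Prod.snd_one, LinearMap.comp_smul, LinearMap.smul_comp]
    rfl

lemma mem_I {f : V →ₗ[ℂ] V'} {b : Module.End ℂ V × Module.End ℂ V'} :
    b ∈ I f ↔ f ∘ₗ b.1 = b.2 ∘ₗ f := Iff.rfl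

/-- pairs compatible with `Φ` -/
def S (Φ : (V →ₗ[ℂ] V') →ₗ[ℂ] (V →ₗ[ℂ] V')) :
    Subalgebra ℂ (Module.End ℂ V × Module.End ℂ V') where
  carrier := {b | (∀ f, Φ (f ∘ₗ b.1) = Φ f ∘ₗ b.1) ∧ (∀ f, Φ (b.2 ∘ₗ f) = b.2 ∘ₗ Φ f)}
  mul_mem' := by
    intro a b ha hb
    simp only [Set.mem_ofPred_eq, Prod.fst_mul, Prod.snd_mul, Module.End.mul_eq_comp] at *
    refine ⟨fun f => ?_, fun f => ?_⟩
    · rw [← LinearMap.comp_assoc, hb.1, ha.1, LinearMap.comp_assoc]
    · rw [LinearMap.comp_assoc, ha.2, hb.2, LinearMap.comp_assoc]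
  add_mem' := by
    intro a b ha hb
    simp only [Set.mem_ofPred_eq, Prod.fst_add, Prod.snd_add] at *
    refine ⟨fun f => ?_, fun f => ?_⟩
    · rw [LinearMap.comp_add, map_add, ha.1, hb.1, LinearMap.comp_add]
    · rw [LinearMap.add_comp, map_add, ha.2, hb.2, LinearMap.add_comp]
  algebraMap_mem' := by
    intro r
    simp only [Set.mem_ofPred_eq, Algebra.algebraMap_eq_smul_one, Prod.smul_fst, Prod.smul_snd,
      Prod.fst_one, Prod.snd_one, LinearMap.comp_smul, LinearMap.smul_comp, map_smul]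
    exact ⟨fun f => rfl, fun f => rfl⟩

lemma mem_S {Φ : (V →ₗ[ℂ] V') →ₗ[ℂ] (V →ₗ[ℂ] V')} {b : Module.End ℂ V × Module.End ℂ V'} :
    b ∈ S Φ ↔ (∀ f, Φ (f ∘ₗ b.1) = Φ f ∘ₗ b.1) ∧ (∀ f, Φ (b.2 ∘ₗ f) = b.2 ∘ₗ Φ f) := Iff.rfl

lemma mem_step {f : V →ₗ[ℂ] V'} {b u w : Module.End ℂ V × Module.End ℂ V'} {δ k : ℂ}
    (hb : b ∈ I f) (hδ : δ * δ = 1) (hw : w * b = δ • (b * w)) (hu : u * b = δ • (b * u)) :
    b ∈ I (f + k • (u.2 ∘ₗ f ∘ₗ w.1)) := by
  rw [mem_I] at *
  have hw1 : w.1 ∘ₗ b.1 = δ • (b.1 ∘ₗ w.1) := congrArg Prod.fst hw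
  have hu1 : u.2 ∘ₗ b.2 = δ • (b.2 ∘ₗ u.2) := congrArg Prod.snd hu
  rw [LinearMap.add_comp, LinearMap.comp_add, hb, LinearMap.smul_comp, LinearMap.comp_smul]
  congr 2
  rw [LinearMap.comp_assoc, LinearMap.comp_assoc, hw1, LinearMap.comp_smul, LinearMap.comp_smul,
    ← LinearMap.comp_assoc w.1 b.1 f, hb, LinearMap.comp_assoc, ← LinearMap.comp_assoc _ b.2 u.2,
    hu1, LinearMap.smul_comp, smul_smul, hδ, one_smul, LinearMap.comp_assoc]

lemma mem_step_u {f : V →ₗ[ℂ] V'} {u w : Module.End ℂ V × Module.End ℂ V'} {k : ℂ} (hk : k ≠ 0)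
    (huw : u = -w) (hwu : w * u = k • (1 : Module.End ℂ V × Module.End ℂ V')) :
    u ∈ I (f + k⁻¹ • (u.2 ∘ₗ f ∘ₗ w.1)) := by
  rw [mem_I]
  have h1 : w.1 ∘ₗ u.1 = k • LinearMap.id := congrArg Prod.fst hwu
  have h2' : u * u = -(k • (1 : Module.End ℂ V × Module.End ℂ V')) := by
    rw [← hwu]
    conv_lhs => rw [huw]
    conv_rhs => rw [huw]
    simp
  have h2 : u.2 ∘ₗ u.2 = -(k • LinearMap.id) := congrArg Prod.snd h2'
  have h3 : w.1 = -u.1 := by rw [huw]; simp
  rw [LinearMap.add_comp, LinearMap.comp_add, LinearMap.smul_comp, LinearMap.comp_smul,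
    LinearMap.comp_assoc, LinearMap.comp_assoc, h1, LinearMap.comp_smul, LinearMap.comp_id,
    LinearMap.comp_smul, smul_smul, inv_mul_cancel₀ hk, one_smul, ← LinearMap.comp_assoc _ u.2 u.2,
    h2, LinearMap.neg_comp, LinearMap.smul_comp, LinearMap.id_comp, smul_neg, smul_smul,
    inv_mul_cancel₀ hk, one_smul, h3, LinearMap.comp_neg, neg_neg, add_comm]

/-- the averaging step -/
lemma step {N : ℕ} (T : Fin N → Module.End ℂ V × Module.End ℂ V') (g : Fin N → ℂ)
    (hg : ∀ a, g a ≠ 0)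
    (hsq : ∀ a, T a * T a = g a • (1 : Module.End ℂ V × Module.End ℂ V'))
    (hac : ∀ a b, a ≠ b → T a * T b = -(T b * T a)) (m : ℕ) (z c : Fin N) (hz : z.val = 0)
    (hc : c.val = m) (h0 : 0 < m)
    (f : V →ₗ[ℂ] V') (hf : ∀ a b : Fin N, a.val < m → b.val < m → T a * T b ∈ I f) :
    ∀ a b : Fin N, a.val < m + 1 → b.val < m + 1 →
      T a * T b ∈ I (f + (g z * g c)⁻¹ • ((T z * T c).2 ∘ₗ f ∘ₗ (T c * T z).1)) := by
  have hzc : z ≠ c := by
    intro h
    rw [h] at hz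
    omega
  set u := T z * T c with hu
  set w := T c * T z with hw
  have huw : u = -w := hac z c hzc
  set F := f + (g z * g c)⁻¹ • (u.2 ∘ₗ f ∘ₗ w.1) with hF
  have hgg : g z * g c ≠ 0 := mul_ne_zero (hg z) (hg c)
  have hwu : w * u = (g z * g c) • (1 : Module.End ℂ V × Module.End ℂ V') := by
    rw [hw, hu, mul_assoc, ← mul_assoc (T z) (T z), hsq, smul_mul_assoc, one_mul, mul_smul_comm,
      hsq, smul_smul]
  -- signs
  have hsign : ∀ a : Fin N, a.val < m → ∃ δ : ℂ, δ * δ = 1 ∧ w * T a = δ • (T a * w) := by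
    intro a ha
    by_cases haz : a = z
    · refine ⟨-1, by norm_num, ?_⟩
      rw [haz, hw, ← mul_assoc, hac z c hzc, neg_smul, one_smul, neg_mul, neg_neg]
    · refine ⟨1, by norm_num, ?_⟩
      have hac' : a ≠ c := by
        intro h
        rw [h] at ha
        omega
      rw [hw, ← mul_assoc, hac a c hac', neg_mul, mul_assoc, mul_assoc, hac a z haz, one_smul,
        mul_neg, neg_neg]
  have hlow : ∀ a b : Fin N, a.val < m → b.val < m → T a * T b ∈ I F := by
    intro a b ha hb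
    obtain ⟨δ, hδ, h1⟩ := hsign a ha
    obtain ⟨ε, hε, h2⟩ := hsign b hb
    have hwab : w * (T a * T b) = (δ * ε) • ((T a * T b) * w) := by
      rw [← mul_assoc, h1, smul_mul_assoc, mul_assoc, h2, mul_smul_comm, smul_smul, mul_assoc]
    refine mem_step (hf a b ha hb) (δ := δ * ε) (by linear_combination (ε * ε) * hδ + hε) hwab ?_
    rw [huw, neg_mul, hwab, mul_neg, smul_neg]
  have huF : u ∈ I F := mem_step_u hgg huw hwu
  have hzF : ∀ r : ℂ, r • (1 : Module.End ℂ V × Module.End ℂ V') ∈ I F := fun r =>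
    (I F).smul_mem (I F).one_mem r
  have hz0 : z.val < m := by omega
  intro a b ha hb
  by_cases ha' : a.val < m
  · by_cases hb' : b.val < m
    · exact hlow a b ha' hb'
    · have hbc : b = c := Fin.ext (by omega)
      have : T a * T b = (g z)⁻¹ • ((T a * T z) * u) := by
        rw [hu, mul_assoc, ← mul_assoc (T z) (T z), hsq, smul_mul_assoc, one_mul, mul_smul_comm,
          smul_smul, inv_mul_cancel₀ (hg z), one_smul, hbc]
      rw [this]
      exact (I F).smul_mem ((I F).mul_mem (hlow a z ha' hz0) huF) _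
  · have hac' : a = c := Fin.ext (by omega)
    by_cases hb' : b.val < m
    · have : T a * T b = (g z)⁻¹ • (-u * (T z * T b)) := by
        rw [huw, neg_neg, hw, mul_assoc, ← mul_assoc (T z) (T z), hsq, smul_mul_assoc, one_mul,
          mul_smul_comm, smul_smul, inv_mul_cancel₀ (hg z), one_smul, hac']
      rw [this]
      exact (I F).smul_mem ((I F).mul_mem ((I F).neg_mem huF) (hlow z b hz0 hb')) _
    · have hbc : b = c := Fin.ext (by omega)
      rw [hac', hbc, hsq]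
      exact hzF _

/-- the induction -/
lemma main {N : ℕ} (T : Fin N → Module.End ℂ V × Module.End ℂ V') (g : Fin N → ℂ)
    (hg : ∀ a, g a ≠ 0)
    (hsq : ∀ a, T a * T a = g a • (1 : Module.End ℂ V × Module.End ℂ V'))
    (hac : ∀ a b, a ≠ b → T a * T b = -(T b * T a))
    (Φ : (V →ₗ[ℂ] V') →ₗ[ℂ] (V →ₗ[ℂ] V')) (hT : ∀ a, T a ∈ S Φ) (hΦ : Φ ≠ 0)
    (m : ℕ) (hm : m ≤ N) :
    ∃ f : V →ₗ[ℂ] V', Φ f ≠ 0 ∧ ∀ a b : Fin N, a.val < m → b.val < m → T a * T b ∈ I f := by
  induction m with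
  | zero =>
    obtain ⟨f, hf⟩ : ∃ f, Φ f ≠ 0 := by
      by_contra h
      push Not at h
      exact hΦ (LinearMap.ext h)
    exact ⟨f, hf, fun a b ha _ => absurd ha (by omega)⟩
  | succ m ih =>
    obtain ⟨f, hf, hI⟩ := ih (by omega)
    rcases Nat.eq_zero_or_pos m with h0 | h0
    · subst h0
      refine ⟨f, hf, fun a b ha hb => ?_⟩
      have : a = b := Fin.ext (by omega)
      rw [this, hsq]
      exact (I f).smul_mem (I f).one_mem _
    · let z : Fin N := ⟨0, by omega⟩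
      let c : Fin N := ⟨m, by omega⟩
      have hzc : z ≠ c := by
        intro h
        have := congrArg Fin.val h
        simp only [z, c] at this
        omega
      have key := fun f hf => step T g hg hsq hac m z c rfl rfl h0 f hf
      have hu : T z * T c ∈ S Φ := (S Φ).mul_mem (hT z) (hT c)
      have hw : T c * T z ∈ S Φ := (S Φ).mul_mem (hT c) (hT z)
      have hΦF : ∀ f, Φ (f + (g z * g c)⁻¹ • ((T z * T c).2 ∘ₗ f ∘ₗ (T c * T z).1)) =
          Φ f + (g z * g c)⁻¹ • ((T z * T c).2 ∘ₗ Φ f ∘ₗ (T c * T z).1) := by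
        intro f
        rw [map_add, map_smul, (mem_S.mp hu).2, (mem_S.mp hw).1]
      by_cases hne : Φ (f + (g z * g c)⁻¹ • ((T z * T c).2 ∘ₗ f ∘ₗ (T c * T z).1)) = 0
      · obtain ⟨h, h', s, hh, hinv, hss, h1, h2⟩ := exists_h T g hg hsq hac (S Φ) hT m (by omega)
        have hfh : ∀ a b : Fin N, a.val < m → b.val < m → T a * T b ∈ I (f ∘ₗ h.1) := by
          intro a b ha hb
          have hcomm : (T a * T b) * h = h * (T a * T b) := by
            rw [mul_assoc, h1 b hb, mul_smul_comm, ← mul_assoc, h1 a ha, smul_mul_assoc, smul_smul,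
              hss, one_smul, mul_assoc]
          have hcomm1 : (T a * T b).1 ∘ₗ h.1 = h.1 ∘ₗ (T a * T b).1 := congrArg Prod.fst hcomm
          rw [mem_I, LinearMap.comp_assoc, ← hcomm1, ← LinearMap.comp_assoc,
            mem_I.mp (hI a b ha hb), LinearMap.comp_assoc]
        refine ⟨_, ?_, key (f ∘ₗ h.1) hfh⟩
        rw [hΦF, (mem_S.mp hh).1]
        have hwh : (T c * T z) * h = -(h * (T c * T z)) := by
          rw [mul_assoc, h1 z (by simpa [z] using h0), mul_smul_comm, ← mul_assoc,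
            h2 c (by simp [c]), smul_mul_assoc, smul_smul, mul_neg, hss, neg_smul, one_smul,
            mul_assoc]
        have hwh1 : h.1 ∘ₗ (T c * T z).1 = -((T c * T z).1 ∘ₗ h.1) := by
          have := congrArg Prod.fst hwh
          simp only [Prod.fst_mul, Prod.fst_neg, Module.End.mul_eq_comp] at this ⊢
          rw [this, neg_neg]
        rw [hΦF] at hne
        have e1 : (g z * g c)⁻¹ • ((T z * T c).2 ∘ₗ (Φ f ∘ₗ h.1) ∘ₗ (T c * T z).1) =
            Φ f ∘ₗ h.1 := by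
          have e2 : (g z * g c)⁻¹ • ((T z * T c).2 ∘ₗ Φ f ∘ₗ (T c * T z).1) = -Φ f :=
            eq_neg_of_add_eq_zero_right hne
          rw [LinearMap.comp_assoc, hwh1, LinearMap.comp_neg, LinearMap.comp_neg, smul_neg,
            ← LinearMap.comp_assoc _ _ (Φ f), ← LinearMap.comp_assoc, ← LinearMap.smul_comp, e2,
            LinearMap.neg_comp, neg_neg]
        rw [e1]
        intro hzero
        apply hf
        have h2z : Φ f ∘ₗ h.1 = 0 := by
          have : (2 : ℂ) • (Φ f ∘ₗ h.1) = 0 := by rw [two_smul]; exact hzero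
          exact (smul_eq_zero.mp this).resolve_left (by norm_num)
        have hinv1 : h.1 ∘ₗ h'.1 = LinearMap.id := congrArg Prod.fst hinv
        calc Φ f = (Φ f ∘ₗ h.1) ∘ₗ h'.1 := by rw [LinearMap.comp_assoc, hinv1, LinearMap.comp_id]
          _ = 0 := by rw [h2z, LinearMap.zero_comp]
      · exact ⟨_, hne, key f hI⟩

end inter

end Avg

theorem avg {V V' : Type} [AddCommGroup V] [Module ℂ V] [AddCommGroup V'] [Module ℂ V'] {n : ℕ}
    (q : LinearMap.BilinForm ℂ (Fin n → ℂ)) (hs : ∀ x y, q x y = q y x) (hnd : q.Nondegenerate)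
    (τ : (Fin n → ℂ) →ₗ[ℂ] Module.End ℂ V) (τ' : (Fin n → ℂ) →ₗ[ℂ] Module.End ℂ V')
    (hc : ∀ x y, τ x * τ y + τ y * τ x = (2 * q x y) • 1)
    (hc' : ∀ x y, τ' x * τ' y + τ' y * τ' x = (2 * q x y) • 1)
    (Φ : (V →ₗ[ℂ] V') →ₗ[ℂ] (V →ₗ[ℂ] V')) (h1 : ∀ x f, Φ (τ' x ∘ₗ f) = τ' x ∘ₗ Φ f)
    (h2 : ∀ x f, Φ (f ∘ₗ τ x) = Φ f ∘ₗ τ x) (hΦ : Φ ≠ 0) :
    ∃ f : V →ₗ[ℂ] V', (∀ x y, f ∘ₗ (τ x * τ y) = (τ' x * τ' y) ∘ₗ f) ∧ Φ f ≠ 0 := by
  obtain ⟨v, hv⟩ := LinearMap.BilinForm.exists_orthogonal_basis (B := q) ⟨hs⟩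
  let N := Module.finrank ℂ (Fin n → ℂ)
  let P : (Fin n → ℂ) →ₗ[ℂ] Module.End ℂ V × Module.End ℂ V' := τ.prod τ'
  have hP : ∀ x y, P x * P y + P y * P x =
      (2 * q x y) • (1 : Module.End ℂ V × Module.End ℂ V') := by
    intro x y
    exact Prod.ext (hc x y) (hc' x y)
  let g : Fin N → ℂ := fun a => q (v a) (v a)
  have hg : ∀ a, g a ≠ 0 := by
    intro a
    exact LinearMap.BilinForm.iIsOrtho.not_isOrtho_basis_self_of_nondegenerate hv hnd a
  have hsq : ∀ a, P (v a) * P (v a) = g a • (1 : Module.End ℂ V × Module.End ℂ V') := by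
    intro a
    have := hP (v a) (v a)
    rw [← two_smul ℂ, mul_smul] at this
    exact smul_right_injective _ (two_ne_zero (α := ℂ)) this
  have hac : ∀ a b, a ≠ b → P (v a) * P (v b) = -(P (v b) * P (v a)) := by
    intro a b hab
    have := hP (v a) (v b)
    rw [show q (v a) (v b) = 0 from hv hab, mul_zero, zero_smul] at this
    exact eq_neg_of_add_eq_zero_left this
  obtain ⟨f, hf, hI⟩ := Avg.main (fun a => P (v a)) g hg hsq hac Φ
    (fun a => ⟨fun f => h2 (v a) f, fun f => h1 (v a) f⟩) hΦ N le_rfl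
  refine ⟨f, fun x y => ?_, hf⟩
  have hmem : P x * P y ∈ Avg.I f := by
    rw [← v.sum_repr x, ← v.sum_repr y, map_sum, map_sum, Finset.sum_mul_sum]
    refine (Avg.I f).sum_mem fun a _ => (Avg.I f).sum_mem fun b _ => ?_
    rw [map_smul, map_smul, smul_mul_smul_comm]
    exact (Avg.I f).smul_mem (hI a b a.2 b.2) _
  exact hmem

end Pool.Agent.KSP
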