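import Pool.Agent.KSP.Defs

/-!
Module Ideal. The orthogonal Lie algebra in dimension three or at least five is simple.

Proof. In an orthonormal basis the skew operators are the skew matrices, spanned by the
`E a b = single a b 1 - single b a 1`. The operator `- (ad (E a b))^2` keeps the entries of a skew
matrix with exactly one index in `{a, b}` and kills the others. If `A` has a non-zero entry at
`(r, s)`, the operators for `(r, t)`, `(s, t)` and, if the dimension is at least five, `(r, u)`,
`(r, w)` leave only this entry. Brackets then give all `E a b`.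
-/

namespace Pool.Agent.KSP

open Module Matrix Pool.Agent.KS

namespace Idl

variable {n : ℕ}

/-- the standard skew matrices -/
def E (a b : Fin n) : Matrix (Fin n) (Fin n) ℂ := Matrix.single a b 1 - Matrix.single b a 1

lemma E_apply (a b i j : Fin n) :
    E a b i j = (if a = i ∧ b = j then 1 else 0) - (if b = i ∧ a = j then 1 else 0) := by
  simp only [E, Matrix.sub_apply, Matrix.single_apply]

lemma E_tr (a b : Fin n) : (E a b)ᵀ = - E a b := by
  ext i j
  simp only [Matrix.transpose_apply, Matrix.neg_apply, E_apply]
  have h1 : (a = j ∧ b = i) ↔ (b = i ∧ a = j) := And.comm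
  have h2 : (b = j ∧ a = i) ↔ (a = i ∧ b = j) := And.comm
  simp only [h1, h2]
  ring

lemma E_mul_apply (a b : Fin n) (X : Matrix (Fin n) (Fin n) ℂ) (i j : Fin n) :
    (E a b * X) i j = (if i = a then X b j else 0) - (if i = b then X a j else 0) := by
  rw [E, Matrix.sub_mul, Matrix.sub_apply]
  congr 1
  · by_cases h : i = a
    · subst h
      simp
    · rw [if_neg h, Matrix.single_mul_apply_of_ne _ _ _ _ _ h]
  · by_cases h : i = b
    · subst h
      simp
    · rw [if_neg h, Matrix.single_mul_apply_of_ne _ _ _ _ _ h]

lemma mul_E_apply (a b : Fin n) (X : Matrix (Fin n) (Fin n) ℂ) (i j : Fin n) :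
    (X * E a b) i j = (if j = b then X i a else 0) - (if j = a then X i b else 0) := by
  rw [E, Matrix.mul_sub, Matrix.sub_apply]
  congr 1
  · by_cases h : j = b
    · subst h
      simp
    · rw [if_neg h, Matrix.mul_single_apply_of_ne _ _ _ _ _ h]
  · by_cases h : j = a
    · subst h
      simp
    · rw [if_neg h, Matrix.mul_single_apply_of_ne _ _ _ _ _ h]

/-- the bracket with `E a b` -/
def ad (a b : Fin n) (X : Matrix (Fin n) (Fin n) ℂ) : Matrix (Fin n) (Fin n) ℂ :=
  E a b * X - X * E a b

lemma ad_apply (a b : Fin n) (X : Matrix (Fin n) (Fin n) ℂ) (i j : Fin n) :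
    ad a b X i j = (if i = a then X b j else 0) - (if i = b then X a j else 0)
      - ((if j = b then X i a else 0) - (if j = a then X i b else 0)) := by
  rw [ad, Matrix.sub_apply, E_mul_apply, mul_E_apply]

/-- exactly one of the two indices is in `{a, b}` -/
def One (a b i j : Fin n) : Prop := ((i = a ∨ i = b) ∧ ¬ (j = a ∨ j = b)) ∨
  (¬ (i = a ∨ i = b) ∧ (j = a ∨ j = b))

instance (a b i j : Fin n) : Decidable (One a b i j) := by
  unfold One
  infer_instance

lemma ad_ad_apply {a b : Fin n} (hab : a ≠ b) {X : Matrix (Fin n) (Fin n) ℂ}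
    (hX : Xᵀ = - X) (i j : Fin n) :
    ad a b (ad a b X) i j = if One a b i j then - X i j else 0 := by
  have hx : ∀ i j, X j i = - X i j := by
    intro i j
    have := congrFun (congrFun hX i) j
    simpa using this
  have hd : ∀ i, X i i = 0 := by
    intro i
    have := hx i i
    have h2 : (2 : ℂ) * X i i = 0 := by
      linear_combination this
    simpa using h2
  have hba : b ≠ a := fun h => hab h.symm
  simp only [ad_apply, One]
  by_cases h1 : i = a
  · subst h1
    by_cases h2 : j = i
    · subst h2
      simp [hab, hba, hd]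
    · by_cases h3 : j = b
      · subst h3
        simp [hab, hba]
        rw [hx i j]
        ring
      · simp [hab, hba, h2, h3]
  · by_cases h1' : i = b
    · subst h1'
      by_cases h2 : j = a
      · subst h2
        simp [hab, hba]
        rw [hx i j]
        ring
      · by_cases h3 : j = i
        · subst h3
          simp [hab, hba, hd]
        · simp [hab, hba, h2, h3]
    · by_cases h2 : j = a
      · subst h2
        simp [hab, hba, h1, h1']
      · by_cases h3 : j = b
        · subst h3
          simp [hab, hba, h1, h1']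
        · simp [h1, h1', h2, h3]

section mat

variable (S : Submodule ℂ (Matrix (Fin n) (Fin n) ℂ)) (hsk : ∀ A ∈ S, Aᵀ = - A)
  (hid : ∀ A ∈ S, ∀ M : Matrix (Fin n) (Fin n) ℂ, Mᵀ = - M → M * A - A * M ∈ S)

include hid in
lemma ad_mem (a b : Fin n) {X : Matrix (Fin n) (Fin n) ℂ} (hX : X ∈ S) : ad a b X ∈ S :=
  hid X hX (E a b) (E_tr a b)

/-- keep the entries with property `p` -/
def keep (p : Fin n → Fin n → Prop) [∀ i j, Decidable (p i j)]
    (X : Matrix (Fin n) (Fin n) ℂ) : Matrix (Fin n) (Fin n) ℂ :=
  Matrix.of fun i j => if p i j then X i j else 0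

include hsk hid in
lemma keep_mem {a b : Fin n} (hab : a ≠ b) {X : Matrix (Fin n) (Fin n) ℂ} (hX : X ∈ S) :
    keep (One a b) X ∈ S := by
  have h1 : keep (One a b) X = - ad a b (ad a b X) := by
    ext i j
    rw [Matrix.neg_apply, ad_ad_apply hab (hsk X hX)]
    simp only [keep, Matrix.of_apply]
    by_cases h : One a b i j
    · rw [if_pos h, if_pos h, neg_neg]
    · rw [if_neg h, if_neg h, neg_zero]
  rw [h1]
  exact S.neg_mem (ad_mem S hid a b (ad_mem S hid a b hX))

include hsk hid in
lemma E_mem_of {r s : Fin n} (hn : n = 3 ∨ 5 ≤ n) (hrs : r ≠ s)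
    {A : Matrix (Fin n) (Fin n) ℂ} (hA : A ∈ S) (h0 : A r s ≠ 0) : E r s ∈ S := by
  have key : ∀ B ∈ S, B r s ≠ 0 → (∀ i j, ¬ ((i = r ∧ j = s) ∨ (i = s ∧ j = r)) → B i j = 0) →
      E r s ∈ S := by
    intro B hB hB0 hBz
    have h1 : B = (B r s) • E r s := by
      ext i j
      rw [Matrix.smul_apply, E_apply, smul_eq_mul]
      by_cases h : (i = r ∧ j = s) ∨ (i = s ∧ j = r)
      · rcases h with ⟨h1, h2⟩ | ⟨h1, h2⟩
        · subst h1
          subst h2
          have : ¬ (j = i ∧ i = j) := fun h => hrs h.2
          rw [if_pos ⟨rfl, rfl⟩, if_neg this]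
          ring
        · subst h1
          subst h2
          have : ¬ (j = i ∧ i = j) := fun h => hrs h.1
          rw [if_neg this, if_pos ⟨rfl, rfl⟩]
          have h3 := congrFun (congrFun (hsk B hB) i) j
          rw [Matrix.transpose_apply, Matrix.neg_apply] at h3
          rw [h3]
          ring
      · rw [hBz i j h, if_neg, if_neg]
        · ring
        · rintro ⟨h1, h2⟩
          exact h (Or.inr ⟨h1.symm, h2.symm⟩)
        · rintro ⟨h1, h2⟩
          exact h (Or.inl ⟨h1.symm, h2.symm⟩)
    have h2 : E r s = (B r s)⁻¹ • B := by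
      conv_rhs => rw [h1]
      rw [smul_smul, Matrix.smul_apply, smul_eq_mul, E_apply]
      have h3 : (if r = r ∧ s = s then (1 : ℂ) else 0) - (if s = r ∧ r = s then 1 else 0) = 1 := by
        rw [if_pos ⟨rfl, rfl⟩, if_neg (fun h => hrs h.2), sub_zero]
      rw [h3, mul_one, inv_mul_cancel₀ hB0, one_smul]
    rw [h2]
    exact S.smul_mem _ hB
  -- a third index
  obtain ⟨t, htr, hts⟩ : ∃ t : Fin n, t ≠ r ∧ t ≠ s := by
    have h3 : 3 ≤ n := by omega
    by_contra hcon
    push Not at hcon
    have : (Finset.univ : Finset (Fin n)) ⊆ {r, s} := by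
      intro x _
      by_cases hx : x = r
      · simp [hx]
      · simp [hcon x hx]
    have h4 := Finset.card_le_card this
    rw [Finset.card_univ, Fintype.card_fin] at h4
    have h5 := Finset.card_le_two (a := r) (b := s)
    omega
  have hrt : r ≠ t := fun h => htr h.symm
  have hst : s ≠ t := fun h => hts h.symm
  have hsr : s ≠ r := fun h => hrs h.symm
  have m1 := keep_mem S hsk hid hrt hA
  have m2 := keep_mem S hsk hid hst m1
  rcases hn with hn | hn
  · refine key _ m2 ?_ ?_
    · have c1 : One r t r s := Or.inl ⟨Or.inl rfl, by simp [hsr, hst]⟩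
      have c2 : One s t r s := Or.inr ⟨by simp [hrs, hrt], Or.inl rfl⟩
      simp only [keep, Matrix.of_apply]
      rw [if_pos c2, if_pos c1]
      exact h0
    · intro i j hij
      have hall : ∀ x : Fin n, x = r ∨ x = s ∨ x = t := by
        intro x
        by_contra hcon
        push Not at hcon
        obtain ⟨x1, x2, x3⟩ := hcon
        have hc : ({x, r, s, t} : Finset (Fin n)).card ≤ n := by
          have := Finset.card_le_univ ({x, r, s, t} : Finset (Fin n))
          rwa [Fintype.card_fin] at this
        rw [Finset.card_insert_of_notMem (by simp [x1, x2, x3]),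
          Finset.card_insert_of_notMem (by simp [hrs, hrt]),
          Finset.card_insert_of_notMem (by simp [hst]), Finset.card_singleton] at hc
        omega
      have hz : ¬ (One s t i j ∧ One r t i j) := by
        rcases hall i with h | h | h <;> rcases hall j with h' | h' | h' <;> subst h <;>
          simp_all [One]
      simp only [keep, Matrix.of_apply]
      by_cases c2 : One s t i j
      · rw [if_pos c2]
        by_cases c1 : One r t i j
        · exact absurd ⟨c2, c1⟩ hz
        · rw [if_neg c1]
      · rw [if_neg c2]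
  · obtain ⟨u, hur, hus, hut⟩ : ∃ u : Fin n, u ≠ r ∧ u ≠ s ∧ u ≠ t := by
      by_contra hcon
      push Not at hcon
      have : (Finset.univ : Finset (Fin n)) ⊆ {r, s, t} := by
        intro x _
        by_cases hx : x = r
        · simp [hx]
        · by_cases hx' : x = s
          · simp [hx']
          · simp [hcon x hx hx']
      have h4 := Finset.card_le_card this
      rw [Finset.card_univ, Fintype.card_fin] at h4
      have h5 := Finset.card_le_three (a := r) (b := s) (c := t)
      omega
    obtain ⟨w, hwr, hws, hwt, hwu⟩ : ∃ w : Fin n, w ≠ r ∧ w ≠ s ∧ w ≠ t ∧ w ≠ u := by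
      by_contra hcon
      push Not at hcon
      have : (Finset.univ : Finset (Fin n)) ⊆ {r, s, t, u} := by
        intro x _
        by_cases hx : x = r
        · simp [hx]
        · by_cases hx' : x = s
          · simp [hx']
          · by_cases hx'' : x = t
            · simp [hx'']
            · simp [hcon x hx hx' hx'']
      have h4 := Finset.card_le_card this
      rw [Finset.card_univ, Fintype.card_fin] at h4
      have h5 := Finset.card_le_four (a := r) (b := s) (c := t) (d := u)
      omega
    have hru : r ≠ u := fun h => hur h.symm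
    have hrw : r ≠ w := fun h => hwr h.symm
    have m3 := keep_mem S hsk hid hru m2
    have m4 := keep_mem S hsk hid hrw m3
    refine key _ m4 ?_ ?_
    · have c1 : One r t r s := Or.inl ⟨Or.inl rfl, by simp [hsr, hst]⟩
      have c2 : One s t r s := Or.inr ⟨by simp [hrs, hrt], Or.inl rfl⟩
      have c3 : One r u r s := Or.inl ⟨Or.inl rfl, by simp [hsr, Ne.symm hus]⟩
      have c4 : One r w r s := Or.inl ⟨Or.inl rfl, by simp [hsr, Ne.symm hws]⟩
      simp only [keep, Matrix.of_apply]
      rw [if_pos c4, if_pos c3, if_pos c2, if_pos c1]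
      exact h0
    · intro i j hij
      have hz : ¬ (One r w i j ∧ One r u i j ∧ One s t i j ∧ One r t i j) := by
        rintro ⟨d4, d3, d2, d1⟩
        simp only [One] at d1 d2 d3 d4
        apply hij
        by_cases i1 : i = r
        · subst i1
          by_cases j1 : j = s
          · exact Or.inl ⟨rfl, j1⟩
          · exfalso
            by_cases j2 : j = t
            · subst j2
              simp_all
            · simp_all
        · by_cases i2 : i = s
          · subst i2
            by_cases j1 : j = r
            · exact Or.inr ⟨rfl, j1⟩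
            · exfalso
              by_cases j2 : j = t
              · subst j2
                simp_all
              · by_cases j3 : j = i
                · subst j3
                  simp_all
                · simp_all
          · exfalso
            by_cases i3 : i = t
            · subst i3
              by_cases j1 : j = u
              · subst j1
                simp_all
                rcases d4 with h | h
                · exact hwt h.1.symm
                · exact hwu h.2.symm
              · simp_all
            · by_cases j3 : j = t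
              · subst j3
                by_cases i4 : i = u
                · subst i4
                  simp_all
                  rcases d4 with h | h
                  · exact hwu h.1.symm
                  · exact hwt h.2.symm
                · simp_all
              · simp_all
      simp only [keep, Matrix.of_apply]
      by_cases c4 : One r w i j
      · rw [if_pos c4]
        by_cases c3 : One r u i j
        · rw [if_pos c3]
          by_cases c2 : One s t i j
          · rw [if_pos c2]
            by_cases c1 : One r t i j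
            · exact absurd ⟨c4, c3, c2, c1⟩ hz
            · rw [if_neg c1]
          · rw [if_neg c2]
        · rw [if_neg c3]
      · rw [if_neg c4]

lemma E_self (a : Fin n) : E a a = (0 : Matrix (Fin n) (Fin n) ℂ) := sub_self _

lemma E_swap (a b : Fin n) : E b a = - (E a b : Matrix (Fin n) (Fin n) ℂ) := by
  simp only [E, neg_sub]

lemma ad_E {a b c : Fin n} (hab : a ≠ b) (hac : a ≠ c) (hbc : b ≠ c) :
    ad a b (E b c) = E a c := by
  simp only [ad, E, Matrix.sub_mul, Matrix.mul_sub]
  rw [Matrix.single_mul_single_same, Matrix.single_mul_single_of_ne _ _ _ _ hbc,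
    Matrix.single_mul_single_of_ne _ _ _ _ hab, Matrix.single_mul_single_of_ne _ _ _ _ hac,
    Matrix.single_mul_single_of_ne _ _ _ _ hac.symm,
    Matrix.single_mul_single_of_ne _ _ _ _ hab.symm,
    Matrix.single_mul_single_of_ne _ _ _ _ hbc.symm, Matrix.single_mul_single_same, mul_one]
  abel

include hid in
lemma E_mem_all {r s : Fin n} (hrs : r ≠ s) (h : E r s ∈ S) (a b : Fin n) : E a b ∈ S := by
  -- the pairs `(r, c)`
  have h1 : ∀ c, E r c ∈ S := by
    intro c
    by_cases hc : c = r
    · subst hc
      rw [E_self]
      exact S.zero_mem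
    · by_cases hc' : c = s
      · subst hc'
        exact h
      · have h2 := ad_mem S hid c s (X := E s r) (by
          rw [E_swap r s]
          exact S.neg_mem h)
        rw [ad_E hc' hc (fun h => hrs h.symm)] at h2
        rw [E_swap c r]
        exact S.neg_mem h2
  by_cases hab : a = b
  · subst hab
    rw [E_self]
    exact S.zero_mem
  · by_cases ha : a = r
    · subst ha
      exact h1 b
    · by_cases hb : b = r
      · subst hb
        rw [E_swap b a]
        exact S.neg_mem (h1 a)
      · have h2 := ad_mem S hid a r (h1 b)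
        rwa [ad_E ha hab (fun h => hb h.symm)] at h2

include hsk hid in
theorem mat_top (hn : n = 3 ∨ 5 ≤ n) {A : Matrix (Fin n) (Fin n) ℂ} (hA : A ∈ S) (hA0 : A ≠ 0)
    {M : Matrix (Fin n) (Fin n) ℂ} (hM : Mᵀ = - M) : M ∈ S := by
  obtain ⟨r, s, h0⟩ : ∃ r s, A r s ≠ 0 := by
    by_contra hcon
    push Not at hcon
    exact hA0 (by ext i j; exact hcon i j)
  have hrs : r ≠ s := by
    rintro rfl
    have h1 := congrFun (congrFun (hsk A hA) r) r
    rw [Matrix.transpose_apply, Matrix.neg_apply] at h1
    apply h0
    have h2 : (2 : ℂ) * A r r = 0 := by linear_combination h1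
    simpa using h2
  have hE := E_mem_all S hid hrs (E_mem_of S hsk hid hn hrs hA h0)
  have h2 : M = (1 / 2 : ℂ) • ∑ a, ∑ b, M a b • E a b := by
    ext i j
    simp only [Matrix.smul_apply, Matrix.sum_apply, smul_eq_mul, E_apply]
    have e1 : ∀ a b, M a b * ((if a = i ∧ b = j then (1 : ℂ) else 0) -
        (if b = i ∧ a = j then 1 else 0)) = (if a = i then (if b = j then M a b else 0) else 0) -
        (if b = i then (if a = j then M a b else 0) else 0) := by
      intro a b
      rw [mul_sub]
      congr 1
      · by_cases ha : a = i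
        · by_cases hb : b = j
          · rw [if_pos ⟨ha, hb⟩, if_pos ha, if_pos hb, mul_one]
          · rw [if_neg (fun h => hb h.2), if_pos ha, if_neg hb, mul_zero]
        · rw [if_neg (fun h => ha h.1), if_neg ha, mul_zero]
      · by_cases ha : b = i
        · by_cases hb : a = j
          · rw [if_pos ⟨ha, hb⟩, if_pos ha, if_pos hb, mul_one]
          · rw [if_neg (fun h => hb h.2), if_pos ha, if_neg hb, mul_zero]
        · rw [if_neg (fun h => ha h.1), if_neg ha, mul_zero]
    simp only [e1, Finset.sum_sub_distrib]
    have e2 : ∑ a, ∑ b, (if a = i then (if b = j then M a b else 0) else 0) = M i j := by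
      rw [Finset.sum_eq_single i]
      · simp
      · intro a _ ha
        simp [ha]
      · simp
    have e3 : ∑ a, ∑ b, (if b = i then (if a = j then M a b else 0) else 0) = M j i := by
      rw [Finset.sum_comm, Finset.sum_eq_single i]
      · simp
      · intro a _ ha
        simp [ha]
      · simp
    rw [e2, e3]
    have h3 := congrFun (congrFun hM i) j
    rw [Matrix.transpose_apply, Matrix.neg_apply] at h3
    rw [h3]
    ring
  rw [h2]
  exact S.smul_mem _ (S.sum_mem fun a _ => S.sum_mem fun b _ => S.smul_mem _ (hE a b))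

end mat

end Idl

open Idl

theorem ideal_top {n : ℕ} (hn : n = 3 ∨ 5 ≤ n) (q : LinearMap.BilinForm ℂ (Fin n → ℂ))
    (hs : ∀ x y, q x y = q y x) (hnd : q.Nondegenerate)
    (𝔞 : Submodule ℂ (Module.End ℂ (Fin n → ℂ))) (hsk : ∀ A ∈ 𝔞, Skw q A)
    (hid : ∀ A ∈ 𝔞, ∀ M, Skw q M → M * A - A * M ∈ 𝔞)
    (A : Module.End ℂ (Fin n → ℂ)) (hA : A ∈ 𝔞) (hA0 : A ≠ 0)
    (M : Module.End ℂ (Fin n → ℂ)) (hM : Skw q M) : M ∈ 𝔞 := by
  have hsym : LinearMap.IsSymm q := ⟨fun x y => by simpa using hs x y⟩
  have : Invertible (2 : ℂ) := invertibleOfNonzero two_ne_zero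
  obtain ⟨v0, hv0⟩ := LinearMap.BilinForm.exists_orthogonal_basis hsym
  have hfr : finrank ℂ (Fin n → ℂ) = n := by simp
  -- an orthogonal basis indexed by `Fin n`
  let v1 : Basis (Fin n) ℂ (Fin n → ℂ) := v0.reindex (finCongr hfr)
  have hv1 : ∀ i j, i ≠ j → q (v1 i) (v1 j) = 0 := by
    intro i j hij
    have h1 : (finCongr hfr).symm i ≠ (finCongr hfr).symm j := fun h =>
      hij ((finCongr hfr).symm.injective h)
    have := hv0 h1
    simpa [v1, Basis.reindex_apply] using this
  have hg : ∀ i, q (v1 i) (v1 i) ≠ 0 := by
    intro i h0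
    have h1 : ∀ y, q (v1 i) y = 0 := by
      intro y
      have : q (v1 i) = 0 := by
        apply v1.ext
        intro j
        by_cases hij : i = j
        · subst hij
          simpa using h0
        · simpa using hv1 i j hij
      rw [this, LinearMap.zero_apply]
    have h2 : v1 i = 0 := hnd.1 _ h1
    exact v1.ne_zero i h2
  have hsq : ∀ i, ∃ c : ℂ, c ≠ 0 ∧ c * c * q (v1 i) (v1 i) = 1 := by
    intro i
    obtain ⟨z, hz⟩ := IsAlgClosed.exists_eq_mul_self (q (v1 i) (v1 i))
    have hz0 : z ≠ 0 := by
      rintro rfl
      exact hg i (by rw [hz, zero_mul])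
    refine ⟨z⁻¹, inv_ne_zero hz0, ?_⟩
    rw [hz]
    field_simp
  choose c hc0 hc using hsq
  let b : Basis (Fin n) ℂ (Fin n → ℂ) := v1.unitsSMul fun i => Units.mk0 (c i) (hc0 i)
  have hbv : ∀ i, b i = c i • v1 i := by
    intro i
    simp only [b, Basis.unitsSMul_apply]
    rfl
  have hb : ∀ i j, q (b i) (b j) = if i = j then 1 else 0 := by
    intro i j
    rw [hbv, hbv]
    by_cases hij : i = j
    · subst hij
      rw [if_pos rfl]
      simp only [map_smul, LinearMap.smul_apply, smul_eq_mul]
      rw [← hc i]
      ring
    · rw [if_neg hij]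
      simp only [map_smul, LinearMap.smul_apply, smul_eq_mul]
      rw [hv1 i j hij]
      ring
  -- matrices
  have hent : ∀ (X : Module.End ℂ (Fin n → ℂ)) i j, q (b i) (X (b j)) = LinearMap.toMatrix b b X i j := by
    intro X i j
    have h1 : X (b j) = ∑ k, LinearMap.toMatrix b b X k j • b k := by
      have h2 := b.sum_repr (X (b j))
      rw [← h2]
      refine Finset.sum_congr rfl fun k _ => ?_
      rw [LinearMap.toMatrix_apply]
    rw [h1, map_sum]
    simp only [map_smul, smul_eq_mul, hb]
    rw [Finset.sum_eq_single i]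
    · simp
    · intro k _ hk
      rw [if_neg (fun h => hk h.symm), mul_zero]
    · simp
  have hsk1 : ∀ X : Module.End ℂ (Fin n → ℂ), Skw q X →
      (LinearMap.toMatrix b b X)ᵀ = - LinearMap.toMatrix b b X := by
    intro X hX
    ext i j
    rw [Matrix.transpose_apply, Matrix.neg_apply, ← hent, ← hent]
    have h1 := hX (b i) (b j)
    rw [hs (X (b i)) (b j)] at h1
    linear_combination h1
  have hsk2 : ∀ X : Module.End ℂ (Fin n → ℂ),
      (LinearMap.toMatrix b b X)ᵀ = - LinearMap.toMatrix b b X → Skw q X := by
    intro X hX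
    have h1 : (q.comp X LinearMap.id + q.comp LinearMap.id X : LinearMap.BilinForm ℂ (Fin n → ℂ)) = 0 := by
      apply LinearMap.BilinForm.ext_basis b
      intro i j
      have h2 := congrFun (congrFun hX i) j
      rw [Matrix.transpose_apply, Matrix.neg_apply, ← hent, ← hent] at h2
      simp only [LinearMap.add_apply, LinearMap.BilinForm.comp_apply, LinearMap.id_apply,
        LinearMap.zero_apply]
      rw [hs (X (b i)) (b j), h2]
      ring
    intro u w
    have h3 := LinearMap.congr_fun (LinearMap.congr_fun h1 u) w
    simpa only [LinearMap.add_apply, LinearMap.BilinForm.comp_apply, LinearMap.id_apply,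
        LinearMap.zero_apply] using h3
  let S : Submodule ℂ (Matrix (Fin n) (Fin n) ℂ) := 𝔞.map (LinearMap.toMatrix b b).toLinearMap
  have hS1 : ∀ B ∈ S, Bᵀ = - B := by
    rintro B ⟨X, hX, rfl⟩
    exact hsk1 X (hsk X hX)
  have hS2 : ∀ B ∈ S, ∀ N : Matrix (Fin n) (Fin n) ℂ, Nᵀ = - N → N * B - B * N ∈ S := by
    rintro B ⟨X, hX, rfl⟩ N hN
    have hN' : LinearMap.toMatrix b b (Matrix.toLin b b N) = N := LinearMap.toMatrix_toLin b b N
    refine ⟨Matrix.toLin b b N * X - X * Matrix.toLin b b N, hid X hX _ (hsk2 _ (by rw [hN', hN])), ?_⟩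
    simp only [LinearEquiv.coe_coe, map_sub]
    rw [Module.End.mul_eq_comp, Module.End.mul_eq_comp, LinearMap.toMatrix_comp b b b,
      LinearMap.toMatrix_comp b b b, hN']
  have hAS : LinearMap.toMatrix b b A ∈ S := ⟨A, hA, rfl⟩
  have hAS0 : LinearMap.toMatrix b b A ≠ 0 := by
    intro h
    exact hA0 ((LinearMap.toMatrix b b).map_eq_zero_iff.1 h)
  obtain ⟨X, hX, hXM⟩ := mat_top S hS1 hS2 hn hAS hAS0 (hsk1 M hM)
  have : X = M := (LinearMap.toMatrix b b).injective hXM
  rw [← this]
  exact hX

end Pool.Agent.KSP
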