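import Mathlib

/-!
Module Words. The combinatorial form of the first fundamental theorem for the orthogonal group, in
degrees smaller than the dimension.

A word is a function `w : Fin j → Λ`; letters have types `ty : Λ → I`, and there are more than `j`
letters of every type, so for every word and every type there is a letter of this type which does not
occur. The hypothesis `hf` is the invariance under the rotation of the letters `a, u`.

Proof by induction on `j` (steps of size two). `F s i v` is the value of `f` at the word with a new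
letter of type `i` at the places `0` and `s.succ` and the letters of `v` at the other places; it does
not depend on the new letter and is invariant. Invariance for a new letter at the place `0` gives
`f w = ∑_s [w 0 = w s.succ] F s (ty (w 0)) (rest of w)`.
-/

namespace Pool.Agent.KSP

namespace Words

variable {I Λ : Type} [Fintype I] [Fintype Λ] [DecidableEq Λ] [DecidableEq I]

/-- invariance -/
def Inv (ty : Λ → I) (j : ℕ) (f : (Fin j → Λ) → ℂ) : Prop :=
  ∀ a u, a ≠ u → ty a = ty u → ∀ w : Fin j → Λ,
      ∑ r, (if w r = a then f (Function.update w r u) else 0) =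
      ∑ r, (if w r = u then f (Function.update w r a) else 0)

/-- the functions of the statement -/
def Del (ty : Λ → I) (j : ℕ) : Set ((Fin j → Λ) → ℂ) :=
  {δ : (Fin j → Λ) → ℂ | ∃ (m : ℕ) (e : Fin m × Fin 2 ≃ Fin j)
      (l : Fin m → I), ∀ w, δ w = ∏ a, if w (e (a, 0)) = w (e (a, 1)) ∧
        ty (w (e (a, 0))) = l a then 1 else 0}

/-- the word with the letter `u` at the places `0` and `s.succ` -/
def W {j : ℕ} (s : Fin (j + 1)) (u : Λ) (v : Fin j → Λ) : Fin (j + 2) → Λ :=
  Fin.cons u (Fin.insertNth (α := fun _ => Λ) s u v)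

theorem W_zero {j : ℕ} (s : Fin (j + 1)) (u : Λ) (v : Fin j → Λ) : W s u v 0 = u := by
  simp [W]

theorem W_succ {j : ℕ} (s : Fin (j + 1)) (u : Λ) (v : Fin j → Λ) : W s u v s.succ = u := by
  simp [W]

theorem W_rest {j : ℕ} (s : Fin (j + 1)) (u : Λ) (v : Fin j → Λ) (k : Fin j) :
    W s u v (s.succAbove k).succ = v k := by
  simp [W]

theorem place {j : ℕ} (s : Fin (j + 1)) (r : Fin (j + 2)) :
    r = 0 ∨ r = s.succ ∨ ∃ k, r = (s.succAbove k).succ := by
  rcases Fin.eq_zero_or_eq_succ r with h | ⟨t, h⟩
  · exact Or.inl h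
  · rcases Fin.eq_self_or_eq_succAbove s t with h2 | ⟨k, h2⟩
    · exact Or.inr (Or.inl (by rw [h, h2]))
    · exact Or.inr (Or.inr ⟨k, by rw [h, h2]⟩)

theorem W_ext {j : ℕ} {s : Fin (j + 1)} {u : Λ} {v : Fin j → Λ} {w : Fin (j + 2) → Λ}
    (h0 : w 0 = u) (h1 : w s.succ = u) (h2 : ∀ k, w (s.succAbove k).succ = v k) : w = W s u v := by
  funext r
  rcases place s r with h | h | ⟨k, h⟩
  · rw [h, h0, W_zero]
  · rw [h, h1, W_succ]
  · rw [h, h2, W_rest]

theorem sum_place {j : ℕ} (s : Fin (j + 1)) (g : Fin (j + 2) → ℂ) :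
    ∑ r, g r = g 0 + (g s.succ + ∑ k, g (s.succAbove k).succ) := by
  rw [Fin.sum_univ_succ, Fin.sum_univ_succAbove (fun t => g t.succ) s]

theorem succ_ne {j : ℕ} (s : Fin (j + 1)) (k : Fin j) : (s.succAbove k).succ ≠ s.succ := by
  intro h
  exact Fin.succAbove_ne s k (Fin.succ_injective _ h)

theorem W_update {j : ℕ} (s : Fin (j + 1)) (u b : Λ) (v : Fin j → Λ) (k : Fin j) :
    Function.update (W s u v) (s.succAbove k).succ b = W s u (Function.update v k b) := by
  refine W_ext ?_ ?_ ?_
  · rw [Function.update_of_ne (Fin.succ_ne_zero _).symm, W_zero]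
  · rw [Function.update_of_ne (succ_ne s k).symm, W_succ]
  · intro k'
    by_cases hk : k' = k
    · subst hk
      rw [Function.update_self, Function.update_self]
    · rw [Function.update_of_ne, W_rest, Function.update_of_ne hk]
      intro h
      exact hk (Fin.succAbove_right_injective (Fin.succ_injective _ h))

/-- the value at a word with a new letter does not depend on the letter -/
theorem indep {ty : Λ → I} {j : ℕ} {f : (Fin (j + 2) → Λ) → ℂ} (hf : Inv ty (j + 2) f)
    (s : Fin (j + 1)) (v : Fin j → Λ) {u u' : Λ} (hu : ∀ k, v k ≠ u) (hu' : ∀ k, v k ≠ u')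
    (h : ty u = ty u') : f (W s u v) = f (W s u' v) := by
  by_cases hne : u = u'
  · rw [hne]
  have h1 := hf u u' hne h (Function.update (W s u v) 0 u')
  rw [sum_place s, sum_place s] at h1
  have e0 : Function.update (W s u v) 0 u' 0 = u' := Function.update_self _ _ _
  have e1 : Function.update (W s u v) 0 u' s.succ = u := by
    rw [Function.update_of_ne (Fin.succ_ne_zero _), W_succ]
  have e2 : ∀ k, Function.update (W s u v) 0 u' (s.succAbove k).succ = v k := by
    intro k
    rw [Function.update_of_ne (Fin.succ_ne_zero _), W_rest]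
  simp only [e0, e1, e2, if_neg (hu _), if_neg (hu' _), Finset.sum_const_zero, add_zero, if_true,
    if_neg hne, if_neg (Ne.symm hne), zero_add] at h1
  have e3 : Function.update (Function.update (W s u v) 0 u') s.succ u' = W s u' v := by
    refine W_ext ?_ ?_ ?_
    · rw [Function.update_of_ne (Fin.succ_ne_zero _).symm, Function.update_self]
    · rw [Function.update_self]
    · intro k
      rw [Function.update_of_ne (succ_ne s k), e2]
  have e4 : Function.update (Function.update (W s u v) 0 u') 0 u = W s u v := by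
    rw [Function.update_idem]
    refine W_ext ?_ ?_ ?_
    · rw [Function.update_self]
    · rw [Function.update_of_ne (Fin.succ_ne_zero _), W_succ]
    · intro k
      rw [Function.update_of_ne (Fin.succ_ne_zero _), W_rest]
  rw [e3, e4] at h1
  exact h1.symm

/-- expansion with respect to the place `0` -/
theorem expand0 {ty : Λ → I} {j : ℕ} {f : (Fin (j + 2) → Λ) → ℂ} (hf : Inv ty (j + 2) f)
    (w : Fin (j + 2) → Λ) {u : Λ} (hu : ∀ r, w r ≠ u) (h : ty (w 0) = ty u) :
    f w = ∑ s : Fin (j + 1), (if w s.succ = w 0 then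
      f (W s u fun k => w (s.succAbove k).succ) else 0) := by
  have h1 := hf (w 0) u (hu 0) h (Function.update w 0 u)
  have hs : ∀ g : Fin (j + 2) → ℂ, ∑ r, g r = g 0 + ∑ t : Fin (j + 1), g t.succ := fun g =>
    Fin.sum_univ_succ g
  rw [hs, hs] at h1
  have e0 : Function.update w 0 u 0 = u := Function.update_self _ _ _
  have e1 : ∀ t : Fin (j + 1), Function.update w 0 u t.succ = w t.succ := fun t =>
    Function.update_of_ne (Fin.succ_ne_zero _) _ _
  have e2 : Function.update (Function.update w 0 u) 0 (w 0) = w := by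
    rw [Function.update_idem, Function.update_eq_self]
  simp only [e0, e1, if_neg (hu _), if_neg (Ne.symm (hu 0)), zero_add, if_true, e2,
    Finset.sum_const_zero, add_zero] at h1
  rw [← h1]
  refine Finset.sum_congr rfl fun s _ => ?_
  congr 2
  refine W_ext ?_ ?_ ?_
  · rw [Function.update_of_ne (Fin.succ_ne_zero _).symm, e0]
  · rw [Function.update_self]
  · intro k
    rw [Function.update_of_ne (succ_ne s k), e1]

theorem fresh {ty : Λ → I} {i : I} {S : Finset Λ} (h : S.card < Fintype.card {l // ty l = i}) :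
    ∃ u, ty u = i ∧ u ∉ S := by
  by_contra hcon
  push Not at hcon
  have h1 : Fintype.card {l // ty l = i} ≤ S.card := by
    rw [Fintype.card_subtype]
    refine Finset.card_le_card fun l hl => ?_
    exact hcon l (Finset.mem_filter.1 hl).2
  omega

theorem lift_mem {ty : Λ → I} {j : ℕ} (s : Fin (j + 1)) (i : I) {δ : (Fin j → Λ) → ℂ}
    (hδ : δ ∈ Del ty j) : (fun w : Fin (j + 2) → Λ =>
      (if w 0 = w s.succ ∧ ty (w 0) = i then (1 : ℂ) else 0) *
        δ (fun k => w (s.succAbove k).succ)) ∈ Del ty (j + 2) := by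
  obtain ⟨m, e, l, h⟩ := hδ
  let g : Fin (m + 1) × Fin 2 → Fin (j + 2) := fun x =>
    Fin.cases (motive := fun _ => Fin (j + 2)) (if x.2 = 0 then 0 else s.succ)
      (fun a => (s.succAbove (e (a, x.2))).succ) x.1
  have g0 : g (0, 0) = 0 := by simp [g]
  have g1 : g (0, 1) = s.succ := by simp [g]
  have gs : ∀ a c, g (a.succ, c) = (s.succAbove (e (a, c))).succ := fun a c => by simp [g]
  have hinj : Function.Injective g := by
    rintro ⟨a, c⟩ ⟨a', c'⟩ hg
    rcases Fin.eq_zero_or_eq_succ a with ha | ⟨b, ha⟩ <;>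
      rcases Fin.eq_zero_or_eq_succ a' with ha' | ⟨b', ha'⟩ <;> subst ha <;> subst ha'
    · have hc : c = 0 ∨ c = 1 := by omega
      have hc' : c' = 0 ∨ c' = 1 := by omega
      rcases hc with hc | hc <;> rcases hc' with hc' | hc' <;> subst hc <;> subst hc'
      · rfl
      · rw [g0, g1] at hg
        exact absurd hg.symm (Fin.succ_ne_zero _)
      · rw [g0, g1] at hg
        exact absurd hg (Fin.succ_ne_zero _)
      · rfl
    · rw [gs] at hg
      have hc : c = 0 ∨ c = 1 := by omega
      rcases hc with hc | hc <;> subst hc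
      · rw [g0] at hg
        exact absurd hg.symm (Fin.succ_ne_zero _)
      · rw [g1] at hg
        exact absurd hg.symm (succ_ne s _)
    · rw [gs] at hg
      have hc : c' = 0 ∨ c' = 1 := by omega
      rcases hc with hc | hc <;> subst hc
      · rw [g0] at hg
        exact absurd hg (Fin.succ_ne_zero _)
      · rw [g1] at hg
        exact absurd hg (succ_ne s _)
    · rw [gs, gs] at hg
      have h2 := e.injective (Fin.succAbove_right_injective (Fin.succ_injective _ hg))
      rw [Prod.mk.injEq] at h2
      rw [h2.1, h2.2]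
  have hcard : Fintype.card (Fin (m + 1) × Fin 2) = Fintype.card (Fin (j + 2)) := by
    have h2 := Fintype.card_congr e
    simp only [Fintype.card_prod, Fintype.card_fin] at h2 ⊢
    omega
  let e' : Fin (m + 1) × Fin 2 ≃ Fin (j + 2) :=
    Equiv.ofBijective g ((Fintype.bijective_iff_injective_and_card g).2 ⟨hinj, hcard⟩)
  refine ⟨m + 1, e', Fin.cons i l, fun w => ?_⟩
  have he' : ∀ x, e' x = g x := fun x => rfl
  change (if w 0 = w s.succ ∧ ty (w 0) = i then (1 : ℂ) else 0) *
    δ (fun k => w (s.succAbove k).succ) = _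
  rw [Fin.prod_univ_succ, h]
  simp only [he', g0, g1, gs, Fin.cons_zero, Fin.cons_succ]

/-- the lifting map -/
def liftL {j : ℕ} (ty : Λ → I) (s : Fin (j + 1)) (i : I) :
    ((Fin j → Λ) → ℂ) →ₗ[ℂ] ((Fin (j + 2) → Λ) → ℂ) where
  toFun δ w := (if w 0 = w s.succ ∧ ty (w 0) = i then (1 : ℂ) else 0) *
    δ (fun k => w (s.succAbove k).succ)
  map_add' x y := by
    funext w
    simp [mul_add]
  map_smul' c x := by
    funext w
    simp [mul_left_comm]

theorem liftL_mem {ty : Λ → I} {j : ℕ} (s : Fin (j + 1)) (i : I) {x : (Fin j → Λ) → ℂ}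
    (hx : x ∈ Submodule.span ℂ (Del ty j)) :
    liftL ty s i x ∈ Submodule.span ℂ (Del ty (j + 2)) := by
  have h1 : liftL ty s i x ∈ (Submodule.span ℂ (Del ty j)).map (liftL ty s i) :=
    Submodule.mem_map_of_mem hx
  rw [Submodule.map_span] at h1
  refine Submodule.span_mono ?_ h1
  rintro _ ⟨δ, hδ, rfl⟩
  exact lift_mem s i hδ

theorem step {ty : Λ → I} {j : ℕ} (hcard : ∀ i, j + 2 < Fintype.card {l // ty l = i})
    (ih : ∀ f : (Fin j → Λ) → ℂ, Inv ty j f → f ∈ Submodule.span ℂ (Del ty j))
    {f : (Fin (j + 2) → Λ) → ℂ} (hf : Inv ty (j + 2) f) :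
    f ∈ Submodule.span ℂ (Del ty (j + 2)) := by
  have hfr : ∀ (i : I) (v : Fin j → Λ) (a b : Λ), ∃ u, ty u = i ∧ (∀ k, v k ≠ u) ∧ u ≠ a ∧
      u ≠ b := by
    intro i v a b
    have hc : (Finset.univ.image v ∪ {a, b}).card < Fintype.card {l // ty l = i} := by
      refine lt_of_le_of_lt ?_ (hcard i)
      refine (Finset.card_union_le _ _).trans ?_
      have h1 : (Finset.univ.image v).card ≤ j := by
        refine Finset.card_image_le.trans ?_
        simp
      have h2 : ({a, b} : Finset Λ).card ≤ 2 := Finset.card_le_two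
      omega
    obtain ⟨u, h1, h2⟩ := fresh hc
    simp only [Finset.mem_union, Finset.mem_image, Finset.mem_univ, true_and, Finset.mem_insert,
      Finset.mem_singleton, not_or, not_exists] at h2
    exact ⟨u, h1, h2.1, h2.2.1, h2.2.2⟩
  have hfr1 : ∀ (i : I) (v : Fin j → Λ), ∃ u, ty u = i ∧ ∀ k, v k ≠ u := by
    intro i v
    have hpos : 0 < Fintype.card {l // ty l = i} := lt_of_le_of_lt (Nat.zero_le _) (hcard i)
    obtain ⟨a⟩ := Fintype.card_pos_iff.1 hpos
    obtain ⟨u, h1, h2, -, -⟩ := hfr i v a.1 a.1
    exact ⟨u, h1, h2⟩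
  choose fr hfr_ty hfr_ne using hfr1
  -- the restricted functions
  set F : Fin (j + 1) → I → (Fin j → Λ) → ℂ := fun s i v => f (W s (fr i v) v) with hF
  have hFu : ∀ s i v u, ty u = i → (∀ k, v k ≠ u) → F s i v = f (W s u v) := by
    intro s i v u hu hv
    exact indep hf s v (hfr_ne i v) hv (by rw [hfr_ty, hu])
  have hFinv : ∀ s i, Inv ty j (F s i) := by
    intro s i a b hab ht v
    obtain ⟨u, hu, huv, hua, hub⟩ := hfr i v a b
    have e1 : ∀ k, F s i (Function.update v k b) = f (W s u (Function.update v k b)) := by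
      intro k
      refine hFu s i _ u hu fun k' => ?_
      by_cases hk : k' = k
      · subst hk
        rw [Function.update_self]
        exact hub.symm
      · rw [Function.update_of_ne hk]
        exact huv k'
    have e2 : ∀ k, F s i (Function.update v k a) = f (W s u (Function.update v k a)) := by
      intro k
      refine hFu s i _ u hu fun k' => ?_
      by_cases hk : k' = k
      · subst hk
        rw [Function.update_self]
        exact hua.symm
      · rw [Function.update_of_ne hk]
        exact huv k'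
    have h1 := hf a b hab ht (W s u v)
    rw [sum_place s, sum_place s] at h1
    simp only [W_zero, W_succ, W_rest, if_neg hua, if_neg hub, zero_add, W_update] at h1
    simp only [e1, e2]
    exact h1
  have hsum : f = ∑ s : Fin (j + 1), ∑ i : I, liftL ty s i (F s i) := by
    funext w
    obtain ⟨u, hu, huw⟩ : ∃ u, ty u = ty (w 0) ∧ ∀ r, w r ≠ u := by
      have hc : (Finset.univ.image w).card < Fintype.card {l // ty l = ty (w 0)} := by
        refine lt_of_le_of_lt ?_ (hcard _)
        refine Finset.card_image_le.trans ?_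
        simp
      obtain ⟨u, h1, h2⟩ := fresh hc
      simp only [Finset.mem_image, Finset.mem_univ, true_and, not_exists] at h2
      exact ⟨u, h1, h2⟩
    rw [expand0 hf w huw hu.symm, Finset.sum_apply]
    refine Finset.sum_congr rfl fun s _ => ?_
    rw [Finset.sum_apply]
    have e1 : ∀ i : I, liftL ty s i (F s i) w =
        if ty (w 0) = i then (if w s.succ = w 0 then
          f (W s u fun k => w (s.succAbove k).succ) else 0) else 0 := by
      intro i
      change (if w 0 = w s.succ ∧ ty (w 0) = i then (1 : ℂ) else 0) *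
        F s i (fun k => w (s.succAbove k).succ) = _
      by_cases h1 : ty (w 0) = i
      · rw [if_pos h1]
        by_cases h2 : w s.succ = w 0
        · rw [if_pos ⟨h2.symm, h1⟩, if_pos h2, one_mul]
          exact hFu s i _ u (by rw [hu, h1]) fun k => huw _
        · rw [if_neg h2, if_neg, zero_mul]
          rintro ⟨h3, -⟩
          exact h2 h3.symm
      · rw [if_neg h1, if_neg, zero_mul]
        rintro ⟨-, h3⟩
        exact h1 h3
    simp only [e1]
    rw [Finset.sum_ite_eq, if_pos (Finset.mem_univ _)]
  rw [hsum]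
  refine Submodule.sum_mem _ fun s _ => Submodule.sum_mem _ fun i _ => ?_
  exact liftL_mem s i (ih _ (hFinv s i))

theorem main (ty : Λ → I) (j : ℕ) : (∀ i, j < Fintype.card {l // ty l = i}) →
    ∀ f : (Fin j → Λ) → ℂ, Inv ty j f → f ∈ Submodule.span ℂ (Del ty j) := by
  induction j using Nat.twoStepInduction with
  | zero =>
    intro _ f _
    have h1 : (fun _ => 1 : (Fin 0 → Λ) → ℂ) ∈ Del ty 0 := by
      refine ⟨0, Equiv.equivOfIsEmpty _ _, Fin.elim0, fun w => ?_⟩
      simp
    have h2 : f = f Fin.elim0 • (fun _ => 1 : (Fin 0 → Λ) → ℂ) := by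
      funext w
      rw [Subsingleton.elim w Fin.elim0]
      simp
    rw [h2]
    exact Submodule.smul_mem _ _ (Submodule.subset_span h1)
  | one =>
    intro hcard f hf
    have h0 : f = 0 := by
      funext w
      have hc : ({w 0} : Finset Λ).card < Fintype.card {l // ty l = ty (w 0)} := by
        simpa using hcard (ty (w 0))
      obtain ⟨u, h1, h2⟩ := fresh hc
      rw [Finset.mem_singleton] at h2
      have h3 := hf (w 0) u (Ne.symm h2) h1.symm (Function.update w 0 u)
      rw [Fin.sum_univ_succ, Fin.sum_univ_succ] at h3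
      simp only [Function.update_self, if_neg h2, Finset.univ_eq_empty, Finset.sum_empty,
        add_zero, if_true, Function.update_idem, Function.update_eq_self] at h3
      exact h3.symm
    rw [h0]
    exact Submodule.zero_mem _
  | more j ih _ =>
    intro hcard f hf
    exact step hcard (fun f hf => ih (fun i => lt_trans (by omega) (hcard i)) f hf) hf

end Words

theorem words {I Λ : Type} [Fintype I] [Fintype Λ] [DecidableEq Λ] [DecidableEq I] (ty : Λ → I)
    (j : ℕ) (hcard : ∀ i, j < Fintype.card {l // ty l = i}) (f : (Fin j → Λ) → ℂ)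
    (hf : ∀ a u, a ≠ u → ty a = ty u → ∀ w : Fin j → Λ,
      ∑ r, (if w r = a then f (Function.update w r u) else 0) =
      ∑ r, (if w r = u then f (Function.update w r a) else 0)) :
    f ∈ Submodule.span ℂ {δ : (Fin j → Λ) → ℂ | ∃ (m : ℕ) (e : Fin m × Fin 2 ≃ Fin j)
      (l : Fin m → I), ∀ w, δ w = ∏ a, if w (e (a, 0)) = w (e (a, 1)) ∧
        ty (w (e (a, 0))) = l a then 1 else 0} :=
  Words.main ty j hcard f hf

end Pool.Agent.KSP
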