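import Pool.Agent.KSP.Defs
import Pool.Agent.KSP.Words

/-!
Module Fft. The first fundamental theorem for a product of orthogonal groups, in degrees smaller than
the dimensions.

Proof. Every `q i` has an orthonormal basis `b i : Basis (Fin (d i)) ℂ (Fin (d i) → ℂ)` (scale an
orthogonal basis by square roots in `ℂ`). `Λ = Σ i, Fin (d i)`, `ty = Sigma.fst`,
`f w = F (fun r => Pi.single (w r).1 (b (w r).1 (w r).2))`. `hF i (b i a) (b i u)` gives the hypothesis
`hf` of `words` (`wed q x y x = - y`, `wed q x y y = x` and `wed q x y z = 0` for `z` orthogonal to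
`x, y`, if `x, y` are orthonormal). A multilinear form is determined by its values on the basis, and
the values of `∏ a, q (l a) ..` there are those of the function `δ` of `words`.
-/

namespace Pool.Agent.KSP

open Module Matrix Pool.Agent.KS

namespace Fft

/-- an orthonormal basis -/
theorem exists_onb {n : ℕ} (q : LinearMap.BilinForm ℂ (Fin n → ℂ)) (hs : ∀ x y, q x y = q y x)
    (hnd : q.Nondegenerate) : ∃ b : Basis (Fin n) ℂ (Fin n → ℂ),
      ∀ i j, q (b i) (b j) = if i = j then 1 else 0 := by
  have hsym : LinearMap.IsSymm q := ⟨fun x y => hs x y⟩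
  obtain ⟨v, hv⟩ := LinearMap.BilinForm.exists_orthogonal_basis hsym
  have hfin : finrank ℂ (Fin n → ℂ) = n := by simp
  have hne := fun i => LinearMap.BilinForm.iIsOrtho.not_isOrtho_basis_self_of_nondegenerate hv hnd i
  have hsq : ∀ i, ∃ z : ℂ, z ^ 2 = q (v i) (v i) := fun i =>
    IsAlgClosed.exists_pow_nat_eq _ (by norm_num)
  choose z hz using hsq
  have hz0 : ∀ i, z i ≠ 0 := by
    intro i h
    apply hne i
    rw [← hz i, h]
    ring
  set u : Basis _ ℂ (Fin n → ℂ) := v.unitsSMul (fun i => (Units.mk0 (z i) (hz0 i))⁻¹) with hu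
  have hui : ∀ i, u i = (z i)⁻¹ • v i := by
    intro i
    rw [hu, Basis.unitsSMul_apply]
    rfl
  refine ⟨u.reindex (finCongr hfin), fun i j => ?_⟩
  rw [Basis.reindex_apply, Basis.reindex_apply, hui, hui, map_smul, map_smul, LinearMap.smul_apply]
  by_cases hij : i = j
  · subst hij
    rw [if_pos rfl, ← hz]
    have := hz0 ((finCongr hfin).symm i)
    simp only [smul_eq_mul]
    field_simp
  · rw [if_neg hij]
    have h1 : (finCongr hfin).symm i ≠ (finCongr hfin).symm j := fun h =>
      hij ((finCongr hfin).symm.injective h)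
    have h2 : q (v ((finCongr hfin).symm i)) (v ((finCongr hfin).symm j)) = 0 := hv h1
    rw [h2]
    simp

/-- products of bilinear forms in different variables -/
theorem prodForm {H : Type} [AddCommGroup H] [Module ℂ H] {j m : ℕ} (e : Fin m × Fin 2 ≃ Fin j)
    (B : Fin m → H →ₗ[ℂ] H →ₗ[ℂ] ℂ) : ∃ ω : MultilinearMap ℂ (fun _ : Fin j => H) ℂ,
      ∀ v, ω v = ∏ a, B a (v (e (a, 0))) (v (e (a, 1))) := by
  have key : ∀ (dec : DecidableEq (Fin j)) (v : Fin j → H) (r : Fin j),
      ∃ (L : H →ₗ[ℂ] ℂ) (c : ℂ), ∀ x, ∏ a, B a (@Function.update _ _ dec v r x (e (a, 0)))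
        (@Function.update _ _ dec v r x (e (a, 1))) = L x * c := by
    intro dec v r
    obtain ⟨⟨a₀, c₀⟩, hr⟩ := e.surjective r
    have hoth : ∀ x, ∀ a ∈ Finset.univ.erase a₀,
        B a (@Function.update _ _ dec v r x (e (a, 0)))
          (@Function.update _ _ dec v r x (e (a, 1))) = B a (v (e (a, 0))) (v (e (a, 1))) := by
      intro x a ha
      have hne : ∀ c, e (a, c) ≠ r := by
        intro c h
        rw [← hr] at h
        have h2 := e.injective h
        rw [Prod.mk.injEq] at h2
        exact (Finset.mem_erase.1 ha).1 h2.1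
      rw [Function.update_of_ne (hne 0), Function.update_of_ne (hne 1)]
    have hc : c₀ = 0 ∨ c₀ = 1 := by omega
    rcases hc with hc | hc
    · subst hc
      have h1 : e (a₀, 1) ≠ r := by
        rw [← hr]
        intro h
        have h2 := e.injective h
        rw [Prod.mk.injEq] at h2
        exact absurd h2.2 (by decide)
      refine ⟨(B a₀).flip (v (e (a₀, 1))), ∏ a ∈ Finset.univ.erase a₀,
        B a (v (e (a, 0))) (v (e (a, 1))), fun x => ?_⟩
      rw [← Finset.mul_prod_erase Finset.univ _ (Finset.mem_univ a₀),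
        Finset.prod_congr rfl (hoth x), hr, Function.update_self, Function.update_of_ne h1]
      rfl
    · subst hc
      have h1 : e (a₀, 0) ≠ r := by
        rw [← hr]
        intro h
        have h2 := e.injective h
        rw [Prod.mk.injEq] at h2
        exact absurd h2.2 (by decide)
      refine ⟨B a₀ (v (e (a₀, 0))), ∏ a ∈ Finset.univ.erase a₀,
        B a (v (e (a, 0))) (v (e (a, 1))), fun x => ?_⟩
      rw [← Finset.mul_prod_erase Finset.univ _ (Finset.mem_univ a₀),
        Finset.prod_congr rfl (hoth x), hr, Function.update_self, Function.update_of_ne h1]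
  refine ⟨{ toFun := fun v => ∏ a, B a (v (e (a, 0))) (v (e (a, 1)))
            map_update_add' := ?_
            map_update_smul' := ?_ }, fun v => rfl⟩
  · intro dec v r x y
    obtain ⟨L, c, h⟩ := key dec v r
    change (∏ a, B a (@Function.update _ _ dec v r (x + y) (e (a, 0)))
        (@Function.update _ _ dec v r (x + y) (e (a, 1)))) =
      (∏ a, B a (@Function.update _ _ dec v r x (e (a, 0)))
        (@Function.update _ _ dec v r x (e (a, 1)))) +
      (∏ a, B a (@Function.update _ _ dec v r y (e (a, 0)))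
        (@Function.update _ _ dec v r y (e (a, 1))))
    rw [h, h, h, map_add, add_mul]
  · intro dec v r c x
    obtain ⟨L, c', h⟩ := key dec v r
    change (∏ a, B a (@Function.update _ _ dec v r (c • x) (e (a, 0)))
        (@Function.update _ _ dec v r (c • x) (e (a, 1)))) =
      c • (∏ a, B a (@Function.update _ _ dec v r x (e (a, 0)))
        (@Function.update _ _ dec v r x (e (a, 1))))
    rw [h, h, map_smul, smul_mul_assoc]

end Fft

theorem fft {I : Type} [Fintype I] [DecidableEq I] (d : I → ℕ)
    (q : ∀ i, LinearMap.BilinForm ℂ (Fin (d i) → ℂ)) (hs : ∀ i x y, q i x y = q i y x)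
    (hnd : ∀ i, (q i).Nondegenerate) (j : ℕ) (hj : ∀ i, j < d i)
    (F : MultilinearMap ℂ (fun _ : Fin j => (i : I) → Fin (d i) → ℂ) ℂ)
    (hF : ∀ i (x y : Fin (d i) → ℂ) (v : Fin j → (i : I) → Fin (d i) → ℂ),
      ∑ r, F (Function.update v r (Pi.single i (wed (q i) x y (v r i)))) = 0) :
    F ∈ Submodule.span ℂ {ω : MultilinearMap ℂ (fun _ : Fin j => (i : I) → Fin (d i) → ℂ) ℂ |
      ∃ (m : ℕ) (e : Fin m × Fin 2 ≃ Fin j) (l : Fin m → I), ∀ v, ω v =
        ∏ a, q (l a) (v (e (a, 0)) (l a)) (v (e (a, 1)) (l a))} := by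
  choose b hb using fun i => Fft.exists_onb (q i) (hs i) (hnd i)
  set E : Basis (Σ i, Fin (d i)) ℂ ((i : I) → Fin (d i) → ℂ) := Pi.basis b with hE
  have hEs : ∀ (i : I) (k : Fin (d i)), E ⟨i, k⟩ = Pi.single i (b i k) := by
    intro i k
    rw [hE, Pi.basis_apply]
  have hEq : ∀ (x y : Σ i, Fin (d i)) (i : I),
      q i (E x i) (E y i) = if x = y ∧ x.1 = i then 1 else 0 := by
    rintro ⟨ix, kx⟩ ⟨iy, ky⟩ i
    rw [hEs, hEs]
    by_cases h1 : ix = i
    · subst h1
      by_cases h2 : iy = ix
      · subst h2
        rw [Pi.single_eq_same, Pi.single_eq_same, hb]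
        by_cases h3 : kx = ky
        · subst h3
          simp
        · rw [if_neg h3, if_neg]
          rintro ⟨h4, -⟩
          rw [Sigma.mk.injEq] at h4
          exact h3 (eq_of_heq h4.2)
      · rw [Pi.single_eq_of_ne (Ne.symm h2), map_zero, if_neg]
        rintro ⟨h4, -⟩
        rw [Sigma.mk.injEq] at h4
        exact h2 h4.1.symm
    · rw [Pi.single_eq_of_ne (Ne.symm h1), map_zero, LinearMap.zero_apply, if_neg]
      rintro ⟨-, h4⟩
      exact h1 h4
  let res : MultilinearMap ℂ (fun _ : Fin j => (i : I) → Fin (d i) → ℂ) ℂ →ₗ[ℂ]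
      ((Fin j → Σ i, Fin (d i)) → ℂ) :=
    { toFun := fun G w => G fun r => E (w r)
      map_add' := fun _ _ => rfl
      map_smul' := fun _ _ => rfl }
  have hinj : Function.Injective res := by
    intro G G' h
    refine Basis.ext_multilinear (fun _ => E) fun w => ?_
    exact congrFun h w
  have hmem : res F ∈ Submodule.span ℂ (Words.Del (Sigma.fst : (Σ i, Fin (d i)) → I) j) := by
    refine words _ j (fun i => ?_) _ ?_
    · refine lt_of_lt_of_le (hj i) ?_
      have h1 : Function.Injective (fun k : Fin (d i) =>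
          (⟨⟨i, k⟩, rfl⟩ : {l : Σ i, Fin (d i) // l.1 = i})) := by
        intro k k' h
        have h2 := congrArg Subtype.val h
        simp only [Sigma.mk.injEq, heq_eq_eq, true_and] at h2
        exact h2
      simpa using Fintype.card_le_of_injective _ h1
    · rintro ⟨i, α⟩ ⟨i', υ⟩ hne hi w
      change i = i' at hi
      subst hi
      have hne' : α ≠ υ := fun h => hne (by rw [h])
      have h1 := hF i (b i α) (b i υ) (fun r => E (w r))
      have h2 : ∀ r, F (Function.update (fun r => E (w r)) r
          (Pi.single i (wed (q i) (b i α) (b i υ) (E (w r) i)))) =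
          (if w r = ⟨i, υ⟩ then res F (Function.update w r ⟨i, α⟩) else 0) -
          (if w r = ⟨i, α⟩ then res F (Function.update w r ⟨i, υ⟩) else 0) := by
        intro r
        have e1 : (Pi.single i (wed (q i) (b i α) (b i υ) (E (w r) i)) :
            (i : I) → Fin (d i) → ℂ) =
            (if w r = ⟨i, υ⟩ then (1 : ℂ) else 0) • E ⟨i, α⟩ -
            (if w r = ⟨i, α⟩ then (1 : ℂ) else 0) • E ⟨i, υ⟩ := by
          have f1 : q i (b i υ) (E (w r) i) = if w r = ⟨i, υ⟩ then (1 : ℂ) else 0 := by
            have h3 := hEq ⟨i, υ⟩ (w r) i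
            rw [hEs, Pi.single_eq_same] at h3
            rw [h3]
            simp [eq_comm]
          have f2 : q i (b i α) (E (w r) i) = if w r = ⟨i, α⟩ then (1 : ℂ) else 0 := by
            have h3 := hEq ⟨i, α⟩ (w r) i
            rw [hEs, Pi.single_eq_same] at h3
            rw [h3]
            simp [eq_comm]
          rw [wed_apply, f1, f2, Pi.single_sub, hEs, hEs, Pi.single_smul, Pi.single_smul]
        have e2 : ∀ l : Σ i, Fin (d i), F (Function.update (fun r => E (w r)) r (E l)) =
            res F (Function.update w r l) := by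
          intro l
          change _ = F fun r' => E (Function.update w r l r')
          congr 1
          funext r'
          by_cases hr : r' = r
          · subst hr
            rw [Function.update_self, Function.update_self]
          · rw [Function.update_of_ne hr, Function.update_of_ne hr]
        rw [e1, MultilinearMap.map_update_sub, MultilinearMap.map_update_smul,
          MultilinearMap.map_update_smul, e2, e2]
        simp only [smul_eq_mul, ite_mul, one_mul, zero_mul]
      simp only [h2, Finset.sum_sub_distrib] at h1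
      exact (sub_eq_zero.1 h1).symm
  have hsub : Submodule.span ℂ (Words.Del (Sigma.fst : (Σ i, Fin (d i)) → I) j) ≤
      (Submodule.span ℂ {ω : MultilinearMap ℂ (fun _ : Fin j => (i : I) → Fin (d i) → ℂ) ℂ |
      ∃ (m : ℕ) (e : Fin m × Fin 2 ≃ Fin j) (l : Fin m → I), ∀ v, ω v =
        ∏ a, q (l a) (v (e (a, 0)) (l a)) (v (e (a, 1)) (l a))}).map res := by
    rw [Submodule.map_span]
    refine Submodule.span_mono ?_
    rintro δ ⟨m, e, l, hδ⟩
    obtain ⟨ω, hω⟩ := Fft.prodForm e (fun a => (q (l a)).compl₁₂
      (LinearMap.proj (R := ℂ) (φ := fun i : I => Fin (d i) → ℂ) (l a))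
      (LinearMap.proj (R := ℂ) (φ := fun i : I => Fin (d i) → ℂ) (l a)))
    refine ⟨ω, ⟨m, e, l, fun v => ?_⟩, ?_⟩
    · rw [hω]
      rfl
    · funext w
      change ω (fun r => E (w r)) = δ w
      rw [hω, hδ]
      refine Finset.prod_congr rfl fun a _ => ?_
      exact hEq _ _ _
  obtain ⟨G, hG, hGF⟩ := hsub hmem
  rwa [← hinj hGF]

end Pool.Agent.KSP
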