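import Pool.Agent.KS.Gam

/-!
Module GamF. The version of `KS.exists_gam` for families.

Adapt the proof in `Pool/Agent/KS/Gam.lean`: `γ = mprod (α ∘ pr) (ψ2 ∘ la) + mprod (ψk ∘ la) (β ∘ la)`,
where `pr` is the projection of `HW κ (fun l => n l + 1)` to `HW κ n` (`Fin.castSucc`), `la` is the
last copy of the factor `κ i` (`Fin.last (n i)`), and `ψ = (P i).ψ`. The conditions `comm`, `pol`,
`real` of `IsInv`, `IsGrp` do not depend on the form.
-/

namespace Pool.Agent.KSP

open Module Matrix Pool.Agent.Helper7 Pool.Agent.Ball Pool.Agent.KS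

section maps

variable {I : Type} (κ : I → Type) (n : I → ℕ) (i : I)

/-- the first copies -/
def prF : HW κ (fun l => n l + 1) →ₗ[ℂ] HW κ n where
  toFun v := fun l m => v l m.castSucc
  map_add' _ _ := rfl
  map_smul' _ _ := rfl

/-- the last copy of one factor -/
def laF : HW κ (fun l => n l + 1) →ₗ[ℂ] (κ i → ℂ) where
  toFun v := v i (Fin.last (n i))
  map_add' _ _ := rfl
  map_smul' _ _ := rfl

variable [DecidableEq I]

/-- a vector with given components -/
def embF (x : HW κ n) (w : κ i → ℂ) : HW κ (fun l => n l + 1) :=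
  fun l => Fin.snoc (α := fun _ => κ l → ℂ) (x l) (Pi.single (M := fun l => κ l → ℂ) i w l)

lemma prF_emb (x : HW κ n) (w : κ i → ℂ) : prF κ n (embF κ n i x w) = x := by
  funext l m
  exact congrFun (Fin.snoc_castSucc (α := fun _ => κ l → ℂ)
    (Pi.single (M := fun l => κ l → ℂ) i w l) (x l) m) |> funext

lemma laF_emb (x : HW κ n) (w : κ i → ℂ) : laF κ n i (embF κ n i x w) = w := by
  exact (Fin.snoc_last (α := fun _ => κ i → ℂ) (Pi.single (M := fun l => κ l → ℂ) i w i)
    (x i)).trans (Pi.single_eq_same (M := fun l => κ l → ℂ) i w)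

end maps

open Gam in
theorem exists_gamF {I : Type} [Fintype I] [DecidableEq I] (n : I → ℕ) {κ : I → Type}
    [∀ i, Fintype (κ i)] [∀ i, DecidableEq (κ i)] {ϖ : ℂ} (P : ∀ i, PData (κ i) ϖ) {k : ℕ}
    (hk : 0 < k) (α : MultilinearMap ℂ (fun _ : Fin (2 * k) => HW κ n) ℂ)
    (hB : ∀ v : Fin (2 * k) → HW κ n, (∀ r, IsRatP n P (v r)) → ∃ q : ℚ, α v = ϖ ^ k * q)
    (hA : ∀ v : Fin (2 * k) → HW κ n, (∀ r i m j, IsAlgebraic ℚ (v r i m j)) →
      IsAlgebraic ℚ (α v))
    (i : I) (hκ : Nonempty (κ i))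
    (β : MultilinearMap ℂ (fun _ : Fin 4 => (κ i → ℂ)) ℂ)
    (hβB : ∀ v : Fin 4 → κ i → ℂ, (∀ r, v r ∈ (P i).Q) → ∃ q : ℚ, β v = ϖ ^ 2 * q)
    (hβA : ∀ v : Fin 4 → κ i → ℂ, (∀ r j, IsAlgebraic ℚ (v r j)) → IsAlgebraic ℚ (β v)) :
    ∃ γ : MultilinearMap ℂ (fun _ : Fin (2 * (k + 2)) => HW κ (fun l => n l + 1)) ℂ,
      (∀ v : Fin (2 * (k + 2)) → HW κ (fun l => n l + 1),
        (∀ r, IsRatP (fun l => n l + 1) P (v r)) → ∃ q : ℚ, γ v = ϖ ^ (k + 2) * q) ∧
      (∀ v : Fin (2 * (k + 2)) → HW κ (fun l => n l + 1),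
        (∀ r i m j, IsAlgebraic ℚ (v r i m j)) → IsAlgebraic ℚ (γ v)) ∧
      (∀ X : GG κ, IsInv (fun l => n l + 1) P γ X →
        IsInv n P α X ∧ actForm (X.1 i) β = (2 * X.2) • β) ∧
      ∀ g : (i : I) → Module.End ℂ (κ i → ℂ), IsGrp (fun l => n l + 1) P γ g →
        IsGrp n P α g ∧ ∀ v : Fin 4 → κ i → ℂ, β (fun r => g i (v r)) = β v := by
  let p4 : MultilinearMap ℂ (fun _ : Fin 4 => (κ i → ℂ)) ℂ := tp (P i).ψ 2
  let γ1 : MultilinearMap ℂ (fun _ : Fin (2 * k + 4) =>
      HW κ (fun l => n l + 1)) ℂ := mprod (pull (prF κ n) α) (pull (laF κ n i) p4)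
  let γ2 : MultilinearMap ℂ (fun _ : Fin (2 * k + 4) =>
      HW κ (fun l => n l + 1)) ℂ :=
    mprod (pull (laF κ n i) (tp (P i).ψ k)) (pull (laF κ n i) β)
  have hne : ∃ u v : κ i → ℂ, (P i).ψ u v ≠ 0 := by
    by_contra hcon
    push Not at hcon
    obtain ⟨i0⟩ := hκ
    have h1 := (P i).hψnd (Pi.single i0 1) (hcon _)
    have h2 := congrFun h1 i0
    rw [Pi.single_eq_same, Pi.zero_apply] at h2
    exact one_ne_zero h2
  obtain ⟨u0, v0, huv⟩ := hne
  obtain ⟨wk, hwk⟩ := tp_const (P i).ψ huv k
  obtain ⟨w4, hw4⟩ := tp_const (P i).ψ huv 2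
  have hk2 : Nonempty (Fin (2 * k)) := ⟨⟨0, by omega⟩⟩
  refine ⟨γ1 + γ2, ?_, ?_, ?_, ?_⟩
  · intro v hv
    obtain ⟨q1, h1⟩ := hB (fun j => prF κ n (v (Fin.castAdd 4 j))) fun r i m => hv _ i _
    obtain ⟨q2, h2⟩ := tp_rat (P i) 2 (fun j => laF κ n i (v (Fin.natAdd (2 * k) j))) fun r => hv _ _ _
    obtain ⟨q3, h3⟩ := tp_rat (P i) k (fun j => laF κ n i (v (Fin.castAdd 4 j))) fun r => hv _ _ _
    obtain ⟨q4, h4⟩ := hβB (fun j => laF κ n i (v (Fin.natAdd (2 * k) j))) fun r => hv _ _ _
    refine ⟨q1 * q2 + q3 * q4, ?_⟩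
    have h5 : (γ1 + γ2) v = α (fun j => prF κ n (v (Fin.castAdd 4 j)))
        * tp (P i).ψ 2 (fun j => laF κ n i (v (Fin.natAdd (2 * k) j)))
        + tp (P i).ψ k (fun j => laF κ n i (v (Fin.castAdd 4 j)))
        * β (fun j => laF κ n i (v (Fin.natAdd (2 * k) j))) := rfl
    rw [h5, h1, h2, h3, h4]
    push_cast
    ring
  · intro v hv
    have h5 : (γ1 + γ2) v = α (fun j => prF κ n (v (Fin.castAdd 4 j)))
        * tp (P i).ψ 2 (fun j => laF κ n i (v (Fin.natAdd (2 * k) j)))
        + tp (P i).ψ k (fun j => laF κ n i (v (Fin.castAdd 4 j)))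
        * β (fun j => laF κ n i (v (Fin.natAdd (2 * k) j))) := rfl
    rw [h5]
    refine IsAlgebraic.add (IsAlgebraic.mul ?_ ?_) (IsAlgebraic.mul ?_ ?_)
    · exact hA _ fun r i m j => hv _ _ _ _
    · exact tp_alg (P i) 2 _ fun r j => hv _ _ _ _
    · exact tp_alg (P i) k _ fun r j => hv _ _ _ _
    · exact hβA _ fun r j => hv _ _ _ _
  · intro X hX
    have hpol := hX.pol i
    have hform : actForm (lift (fun l => n l + 1) X.1) (γ1 + γ2)
        = (((k + 2 : ℕ) : ℂ) * X.2) • (γ1 + γ2) := hX.form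
    have hpr : ∀ w, prF κ n (lift (fun l => n l + 1) X.1 w) = lift n X.1 (prF κ n w) :=
      fun _ => rfl
    have hla : ∀ w, laF κ n i (lift (fun l => n l + 1) X.1 w) = X.1 i (laF κ n i w) := fun _ => rfl
    have h1 : actForm (lift (fun l => n l + 1) X.1) γ1
        = mprod (pull (prF κ n) (actForm (lift n X.1) α)) (pull (laF κ n i) p4)
          + (2 * X.2) • γ1 := by
      show actForm _ (mprod (pull (prF κ n) α) (pull (laF κ n i) p4)) = _
      rw [actForm_mprod, actForm_pull _ _ _ hpr, actForm_pull _ _ _ hla]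
      congr 1
      have h2 : actForm (X.1 i) p4 = (2 * X.2) • p4 := by
        have := actForm_tp (P i).ψ (X.1 i) X.2 hpol 2
        push_cast at this
        exact this
      rw [h2, pull_smul, mprod_smul_right]
    have h2 : actForm (lift (fun l => n l + 1) X.1) γ2 = (k * X.2) • γ2
        + mprod (pull (laF κ n i) (tp (P i).ψ k)) (pull (laF κ n i) (actForm (X.1 i) β)) := by
      show actForm _ (mprod (pull (laF κ n i) (tp (P i).ψ k)) (pull (laF κ n i) β)) = _
      rw [actForm_mprod, actForm_pull _ _ _ hla, actForm_pull _ _ _ hla,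
        actForm_tp (P i).ψ (X.1 i) X.2 hpol k, pull_smul, mprod_smul_left]
    have hadd : actForm (lift (fun l => n l + 1) X.1) (γ1 + γ2)
        = actForm (lift (fun l => n l + 1) X.1) γ1 + actForm (lift (fun l => n l + 1) X.1) γ2 := by
      refine MultilinearMap.ext fun v => ?_
      rw [_root_.add_apply, actForm_apply, actForm_apply, actForm_apply, ← Finset.sum_add_distrib]
      rfl
    rw [hadd, h1, h2] at hform
    have key : ∀ v : Fin (2 * k + 4) → HW κ (fun l => n l + 1),
        (actForm (lift n X.1) α (fun j => prF κ n (v (Fin.castAdd 4 j)))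
          - (k * X.2) * α (fun j => prF κ n (v (Fin.castAdd 4 j))))
          * tp (P i).ψ 2 (fun j => laF κ n i (v (Fin.natAdd (2 * k) j)))
        + tp (P i).ψ k (fun j => laF κ n i (v (Fin.castAdd 4 j)))
          * (actForm (X.1 i) β (fun j => laF κ n i (v (Fin.natAdd (2 * k) j)))
            - (2 * X.2) * β (fun j => laF κ n i (v (Fin.natAdd (2 * k) j)))) = 0 := by
      intro v
      have h3 := DFunLike.congr_fun hform v
      have h4 : actForm (lift n X.1) α (fun j => prF κ n (v (Fin.castAdd 4 j)))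
          * tp (P i).ψ 2 (fun j => laF κ n i (v (Fin.natAdd (2 * k) j)))
          + (2 * X.2) * (α (fun j => prF κ n (v (Fin.castAdd 4 j)))
            * tp (P i).ψ 2 (fun j => laF κ n i (v (Fin.natAdd (2 * k) j))))
          + ((k * X.2) * (tp (P i).ψ k (fun j => laF κ n i (v (Fin.castAdd 4 j)))
            * β (fun j => laF κ n i (v (Fin.natAdd (2 * k) j))))
          + tp (P i).ψ k (fun j => laF κ n i (v (Fin.castAdd 4 j)))
            * actForm (X.1 i) β (fun j => laF κ n i (v (Fin.natAdd (2 * k) j))))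
          = (((k + 2 : ℕ) : ℂ) * X.2) * (α (fun j => prF κ n (v (Fin.castAdd 4 j)))
            * tp (P i).ψ 2 (fun j => laF κ n i (v (Fin.natAdd (2 * k) j)))
          + tp (P i).ψ k (fun j => laF κ n i (v (Fin.castAdd 4 j)))
            * β (fun j => laF κ n i (v (Fin.natAdd (2 * k) j)))) := h3
      push_cast at h4
      linear_combination h4
    refine ⟨⟨hX.comm, hX.pol, ?_⟩, ?_⟩
    · refine MultilinearMap.ext fun x => ?_
      let v : Fin (2 * k + 4) → HW κ (fun l => n l + 1) :=
        Fin.append (fun j => embF κ n i (x j) 0) (fun j : Fin 4 => embF κ n i 0 (w4 j))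
      have h3 := key v
      have h4 : (fun j => prF κ n (v (Fin.castAdd 4 j))) = x := by
        funext j
        show prF κ n (v (Fin.castAdd 4 j)) = x j
        rw [show v (Fin.castAdd 4 j) = embF κ n i (x j) 0 from Fin.append_left _ _ _, prF_emb]
      have h5 : (fun j => laF κ n i (v (Fin.castAdd 4 j))) = fun _ : Fin (2 * k) => 0 := by
        funext j
        show laF κ n i (v (Fin.castAdd 4 j)) = 0
        rw [show v (Fin.castAdd 4 j) = embF κ n i (x j) 0 from Fin.append_left _ _ _, laF_emb]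
      have h6 : (fun j => laF κ n i (v (Fin.natAdd (2 * k) j))) = w4 := by
        funext j
        show laF κ n i (v (Fin.natAdd (2 * k) j)) = w4 j
        rw [show v (Fin.natAdd (2 * k) j) = embF κ n i 0 (w4 j) from Fin.append_right _ _ _, laF_emb]
      have h7 : tp (P i).ψ k (fun _ : Fin (2 * k) => 0) = 0 := (tp (P i).ψ k).map_zero
      rw [h4, h5, h6, h7, zero_mul, add_zero] at h3
      have h8 := (mul_eq_zero.mp h3).resolve_right hw4
      rw [_root_.smul_apply, smul_eq_mul]
      exact sub_eq_zero.mp h8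
    · refine MultilinearMap.ext fun w => ?_
      let v : Fin (2 * k + 4) → HW κ (fun l => n l + 1) :=
        Fin.append (fun j => embF κ n i 0 (wk j)) (fun j : Fin 4 => embF κ n i 0 (w j))
      have h3 := key v
      have h4 : (fun j => prF κ n (v (Fin.castAdd 4 j))) = fun _ : Fin (2 * k) => 0 := by
        funext j
        show prF κ n (v (Fin.castAdd 4 j)) = 0
        rw [show v (Fin.castAdd 4 j) = embF κ n i 0 (wk j) from Fin.append_left _ _ _, prF_emb]
      have h5 : (fun j => laF κ n i (v (Fin.castAdd 4 j))) = wk := by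
        funext j
        show laF κ n i (v (Fin.castAdd 4 j)) = wk j
        rw [show v (Fin.castAdd 4 j) = embF κ n i 0 (wk j) from Fin.append_left _ _ _, laF_emb]
      have h6 : (fun j => laF κ n i (v (Fin.natAdd (2 * k) j))) = w := by
        funext j
        show laF κ n i (v (Fin.natAdd (2 * k) j)) = w j
        rw [show v (Fin.natAdd (2 * k) j) = embF κ n i 0 (w j) from Fin.append_right _ _ _, laF_emb]
      have h7 : α (fun _ : Fin (2 * k) => 0) = 0 := α.map_zero
      have h7' : actForm (lift n X.1) α (fun _ : Fin (2 * k) => 0) = 0 :=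
        (actForm (lift n X.1) α).map_zero
      rw [h4, h5, h6, h7, h7', mul_zero, sub_zero, zero_mul, zero_add] at h3
      have h8 := (mul_eq_zero.mp h3).resolve_left hwk
      rw [_root_.smul_apply, smul_eq_mul]
      exact sub_eq_zero.mp h8
  · intro g hg
    have h0 : ∀ v : Fin (2 * k + 4) → HW κ (fun l => n l + 1), (γ1 + γ2) v
        = α (fun j => prF κ n (v (Fin.castAdd 4 j)))
        * tp (P i).ψ 2 (fun j => laF κ n i (v (Fin.natAdd (2 * k) j)))
        + tp (P i).ψ k (fun j => laF κ n i (v (Fin.castAdd 4 j)))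
        * β (fun j => laF κ n i (v (Fin.natAdd (2 * k) j))) := fun _ => rfl
    refine ⟨⟨hg.comm, hg.pol, ?_, hg.real⟩, ?_⟩
    · intro x
      let v : Fin (2 * k + 4) → HW κ (fun l => n l + 1) :=
        Fin.append (fun j => embF κ n i (x j) 0) (fun j : Fin 4 => embF κ n i 0 (w4 j))
      have h3 := hg.form v
      have h4 : (fun j => prF κ n (v (Fin.castAdd 4 j))) = x := by
        funext j
        show prF κ n (v (Fin.castAdd 4 j)) = x j
        rw [show v (Fin.castAdd 4 j) = embF κ n i (x j) 0 from Fin.append_left _ _ _, prF_emb]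
      have h5 : (fun j => laF κ n i (v (Fin.castAdd 4 j))) = fun _ : Fin (2 * k) => 0 := by
        funext j
        show laF κ n i (v (Fin.castAdd 4 j)) = 0
        rw [show v (Fin.castAdd 4 j) = embF κ n i (x j) 0 from Fin.append_left _ _ _, laF_emb]
      have h6 : (fun j => laF κ n i (v (Fin.natAdd (2 * k) j))) = w4 := by
        funext j
        show laF κ n i (v (Fin.natAdd (2 * k) j)) = w4 j
        rw [show v (Fin.natAdd (2 * k) j) = embF κ n i 0 (w4 j) from Fin.append_right _ _ _,
          laF_emb]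
      have h4' : (fun j => prF κ n (lift (fun l => n l + 1) g (v (Fin.castAdd 4 j))))
          = fun j => lift n g (x j) := by
        funext j
        have : prF κ n (lift (fun l => n l + 1) g (v (Fin.castAdd 4 j)))
            = lift n g (prF κ n (v (Fin.castAdd 4 j))) := rfl
        show prF κ n (lift (fun l => n l + 1) g (v (Fin.castAdd 4 j))) = lift n g (x j)
        rw [this, show v (Fin.castAdd 4 j) = embF κ n i (x j) 0 from Fin.append_left _ _ _, prF_emb]
      have h5' : (fun j => laF κ n i (lift (fun l => n l + 1) g (v (Fin.castAdd 4 j))))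
          = fun _ : Fin (2 * k) => 0 := by
        funext j
        have : laF κ n i (lift (fun l => n l + 1) g (v (Fin.castAdd 4 j)))
            = g i (laF κ n i (v (Fin.castAdd 4 j))) := rfl
        show laF κ n i (lift (fun l => n l + 1) g (v (Fin.castAdd 4 j))) = 0
        rw [this, show v (Fin.castAdd 4 j) = embF κ n i (x j) 0 from Fin.append_left _ _ _, laF_emb,
          map_zero]
      have h6' : (fun j => laF κ n i (lift (fun l => n l + 1) g (v (Fin.natAdd (2 * k) j))))
          = fun j => g i (w4 j) := by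
        funext j
        have : laF κ n i (lift (fun l => n l + 1) g (v (Fin.natAdd (2 * k) j)))
            = g i (laF κ n i (v (Fin.natAdd (2 * k) j))) := rfl
        show laF κ n i (lift (fun l => n l + 1) g (v (Fin.natAdd (2 * k) j))) = g i (w4 j)
        rw [this, show v (Fin.natAdd (2 * k) j) = embF κ n i 0 (w4 j) from Fin.append_right _ _ _,
          laF_emb]
      have h7 : tp (P i).ψ k (fun _ : Fin (2 * k) => 0) = 0 := (tp (P i).ψ k).map_zero
      have h8 : α (fun j => prF κ n (lift (fun l => n l + 1) g (v (Fin.castAdd 4 j))))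
          * tp (P i).ψ 2 (fun j => laF κ n i (lift (fun l => n l + 1) g (v (Fin.natAdd (2 * k) j))))
          + tp (P i).ψ k (fun j => laF κ n i (lift (fun l => n l + 1) g (v (Fin.castAdd 4 j))))
          * β (fun j => laF κ n i (lift (fun l => n l + 1) g (v (Fin.natAdd (2 * k) j))))
          = α (fun j => prF κ n (v (Fin.castAdd 4 j)))
          * tp (P i).ψ 2 (fun j => laF κ n i (v (Fin.natAdd (2 * k) j)))
          + tp (P i).ψ k (fun j => laF κ n i (v (Fin.castAdd 4 j)))
          * β (fun j => laF κ n i (v (Fin.natAdd (2 * k) j))) := h3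
      rw [h4, h5, h6, h4', h5', h6', h7, zero_mul, add_zero, zero_mul, add_zero,
        tp_inv (P i).ψ (g i) (hg.pol i) 2 w4] at h8
      exact mul_right_cancel₀ hw4 h8
    · intro w
      let v : Fin (2 * k + 4) → HW κ (fun l => n l + 1) :=
        Fin.append (fun j => embF κ n i 0 (wk j)) (fun j : Fin 4 => embF κ n i 0 (w j))
      have h3 := hg.form v
      have h0 : ∀ v : Fin (2 * k + 4) → HW κ (fun l => n l + 1), (γ1 + γ2) v
          = α (fun j => prF κ n (v (Fin.castAdd 4 j)))
          * tp (P i).ψ 2 (fun j => laF κ n i (v (Fin.natAdd (2 * k) j)))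
          + tp (P i).ψ k (fun j => laF κ n i (v (Fin.castAdd 4 j)))
          * β (fun j => laF κ n i (v (Fin.natAdd (2 * k) j))) := fun _ => rfl
      have h4 : (fun j => prF κ n (v (Fin.castAdd 4 j))) = fun _ : Fin (2 * k) => 0 := by
        funext j
        show prF κ n (v (Fin.castAdd 4 j)) = 0
        rw [show v (Fin.castAdd 4 j) = embF κ n i 0 (wk j) from Fin.append_left _ _ _, prF_emb]
      have h5 : (fun j => laF κ n i (v (Fin.castAdd 4 j))) = wk := by
        funext j
        show laF κ n i (v (Fin.castAdd 4 j)) = wk j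
        rw [show v (Fin.castAdd 4 j) = embF κ n i 0 (wk j) from Fin.append_left _ _ _, laF_emb]
      have h6 : (fun j => laF κ n i (v (Fin.natAdd (2 * k) j))) = w := by
        funext j
        show laF κ n i (v (Fin.natAdd (2 * k) j)) = w j
        rw [show v (Fin.natAdd (2 * k) j) = embF κ n i 0 (w j) from Fin.append_right _ _ _, laF_emb]
      have h4' : (fun j => prF κ n (lift (fun l => n l + 1) g (v (Fin.castAdd 4 j))))
          = fun _ : Fin (2 * k) => 0 := by
        funext j
        have : prF κ n (lift (fun l => n l + 1) g (v (Fin.castAdd 4 j)))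
            = lift n g (prF κ n (v (Fin.castAdd 4 j))) := rfl
        show prF κ n (lift (fun l => n l + 1) g (v (Fin.castAdd 4 j))) = 0
        rw [this, show v (Fin.castAdd 4 j) = embF κ n i 0 (wk j) from Fin.append_left _ _ _, prF_emb,
          map_zero]
      have h5' : (fun j => laF κ n i (lift (fun l => n l + 1) g (v (Fin.castAdd 4 j))))
          = fun j => g i (wk j) := by
        funext j
        have : laF κ n i (lift (fun l => n l + 1) g (v (Fin.castAdd 4 j)))
            = g i (laF κ n i (v (Fin.castAdd 4 j))) := rfl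
        show laF κ n i (lift (fun l => n l + 1) g (v (Fin.castAdd 4 j))) = g i (wk j)
        rw [this, show v (Fin.castAdd 4 j) = embF κ n i 0 (wk j) from Fin.append_left _ _ _, laF_emb]
      have h6' : (fun j => laF κ n i (lift (fun l => n l + 1) g (v (Fin.natAdd (2 * k) j))))
          = fun j => g i (w j) := by
        funext j
        have : laF κ n i (lift (fun l => n l + 1) g (v (Fin.natAdd (2 * k) j)))
            = g i (laF κ n i (v (Fin.natAdd (2 * k) j))) := rfl
        show laF κ n i (lift (fun l => n l + 1) g (v (Fin.natAdd (2 * k) j))) = g i (w j)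
        rw [this, show v (Fin.natAdd (2 * k) j) = embF κ n i 0 (w j) from Fin.append_right _ _ _, laF_emb]
      have h7 : α (fun _ : Fin (2 * k) => 0) = 0 := α.map_zero
      have h8 : α (fun j => prF κ n (lift (fun l => n l + 1) g (v (Fin.castAdd 4 j))))
          * tp (P i).ψ 2 (fun j => laF κ n i (lift (fun l => n l + 1) g (v (Fin.natAdd (2 * k) j))))
          + tp (P i).ψ k (fun j => laF κ n i (lift (fun l => n l + 1) g (v (Fin.castAdd 4 j))))
          * β (fun j => laF κ n i (lift (fun l => n l + 1) g (v (Fin.natAdd (2 * k) j))))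
          = α (fun j => prF κ n (v (Fin.castAdd 4 j)))
          * tp (P i).ψ 2 (fun j => laF κ n i (v (Fin.natAdd (2 * k) j)))
          + tp (P i).ψ k (fun j => laF κ n i (v (Fin.castAdd 4 j)))
          * β (fun j => laF κ n i (v (Fin.natAdd (2 * k) j))) := h3
      rw [h4, h5, h6, h4', h5', h6', h7, zero_mul, zero_add, zero_mul, zero_add,
        tp_inv (P i).ψ (g i) (hg.pol i) k wk] at h8
      exact mul_left_cancel₀ hwk h8

end Pool.Agent.KSP
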