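import Pool.Agent.KS.Hyp

/-!
Module HypF. The version for families of `KS.exists_hyp`: adapt the proof in
`Pool/Agent/KS/Hyp.lean`.
-/

open scoped ComplexConjugate

namespace Pool.Agent.KSP

open Module Matrix Pool.Agent.Helper7 Pool.Agent.Ball Pool.Agent.KS Pool.Agent.Helper98.Ball
  Pool.Agent.Helper28.GPC

section aux

variable {I : Type} [Fintype I] [DecidableEq I] (n : I → ℕ) {κ : I → Type}
    [∀ i, Fintype (κ i)] [∀ i, DecidableEq (κ i)] {ϖ : ℂ} (P : ∀ i, PData (κ i) ϖ)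
    (i : I) {d : ℕ} {G : Matrix (Fin d) (Fin d) ℚ} (t : Fin d → Module.End ℂ (κ i → ℂ)) {k : ℕ}
    (γ : MultilinearMap ℂ (fun _ : Fin (2 * k) => HW κ n) ℂ)

/-- the matrices of the elements of the group -/
noncomputable def hypF_T : Submonoid (Matrix (Fin d) (Fin d) ℂ) where
  carrier := {B | ∃ g : (j : I) → Module.End ℂ (κ j → ℂ), IsGrp n P γ g ∧
    ∀ x, g i * tau t x = tau t (B *ᵥ x) * g i}
  one_mem' := ⟨_, IsGrp.one _ _ γ, fun x => by rw [Matrix.one_mulVec, one_mul, mul_one]⟩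
  mul_mem' := by
    rintro B C ⟨g, hg, hB⟩ ⟨h, hh, hC⟩
    refine ⟨_, hg.mul _ _ γ hh, fun x => ?_⟩
    show g i * h i * tau t x = tau t ((B * C) *ᵥ x) * (g i * h i)
    rw [mul_assoc, hC, ← mul_assoc, hB, Matrix.mulVec_mulVec, mul_assoc]

lemma hypF_mem (B : Matrix (Fin d) (Fin d) ℂ) : B ∈ hypF_T n P i t γ ↔
    ∃ g : (j : I) → Module.End ℂ (κ j → ℂ), IsGrp n P γ g ∧
    ∀ x, g i * tau t x = tau t (B *ᵥ x) * g i := Iff.rfl

variable {n P i t γ}

lemma hypF_inv (hinj : Function.Injective (tau t))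
    (hTg : ∀ g : (j : I) → Module.End ℂ (κ j → ℂ), IsGrp n P γ g →
      ∃ A : Module.End ℂ (Fin d → ℂ), ∀ x, g i * tau t x = tau t (A x) * g i)
    (B : Matrix (Fin d) (Fin d) ℂ) (hB : B ∈ hypF_T n P i t γ) : ∃ B' ∈ hypF_T n P i t γ, B * B' = 1 := by
  obtain ⟨g, hg, hgB⟩ := hB
  obtain ⟨h, hh, h1, -⟩ := hg.exists_inv _ _ γ
  obtain ⟨A, hA⟩ := hTg h hh
  have hA' : ∀ x, (LinearMap.toMatrix' A) *ᵥ x = A x := fun x => by
    rw [← Matrix.toLin'_apply, Matrix.toLin'_toMatrix']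
  refine ⟨LinearMap.toMatrix' A, ⟨h, hh, fun x => ?_⟩, ?_⟩
  · rw [hA', hA]
  · apply Matrix.toLin'.injective
    apply LinearMap.ext
    intro x
    rw [Matrix.toLin'_apply, Matrix.toLin'_one, LinearMap.id_apply, ← Matrix.mulVec_mulVec, hA']
    apply hinj
    have h2 : g i * h i = 1 := LinearMap.ext fun v => h1 i v
    have h3 : g i * h i * tau t x = tau t (B *ᵥ A x) * (g i * h i) := by
      rw [mul_assoc, hA, ← mul_assoc, hgB, mul_assoc]
    rw [h2, one_mul, mul_one] at h3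
    exact h3.symm

/-- the symmetries act by real operators -/
lemma hypF_real (K : KSD (P i) G t) (hinj : Function.Injective (tau t))
    {g : (j : I) → Module.End ℂ (κ j → ℂ)}
    (hg : IsGrp n P γ g) {A : Module.End ℂ (Fin d → ℂ)}
    (hA : ∀ x, g i * tau t x = tau t (A x) * g i) (x : Fin d → ℂ) :
    A (star x) = star (A x) := by
  obtain ⟨h, -, h1, -⟩ := hg.exists_inv _ _ γ
  apply hinj
  apply LinearMap.ext
  intro w
  obtain ⟨v, hv⟩ : ∃ v, g i (cB (P i) v) = w :=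
    ⟨cB (P i) (h i w), by rw [cB_cB]; exact h1 i w⟩
  have e : ∀ x v, g i (tau t x v) = tau t (A x) (g i v) := fun x v =>
    LinearMap.congr_fun (hA x) v
  rw [← hv, ← e, ← cB_tau K, hg.real, e, cB_tau K, hg.real]

/-- the symmetries preserve the form -/
lemma hypF_bil [Nonempty (κ i)] (K : KSD (P i) G t) {g : (j : I) → Module.End ℂ (κ j → ℂ)}
    (hg : IsGrp n P γ g) {A : Module.End ℂ (Fin d → ℂ)}
    (hA : ∀ x, g i * tau t x = tau t (A x) * g i) (x y : Fin d → ℂ) :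
    bil (rm G) (A x) (A y) = bil (rm G) x y := by
  have h1 := tau_cliff K.cliff x y
  have h2 := tau_cliff K.cliff (A x) (A y)
  have h3 : g i * (tau t x * tau t y + tau t y * tau t x) =
      (tau t (A x) * tau t (A y) + tau t (A y) * tau t (A x)) * g i := by
    rw [mul_add, add_mul, ← mul_assoc, ← mul_assoc, hA, hA, mul_assoc, mul_assoc, hA, hA,
      ← mul_assoc, ← mul_assoc]
  rw [h1, h2, mul_smul_comm, smul_mul_assoc, mul_one, one_mul] at h3
  obtain ⟨v, hv⟩ := exists_ne (0 : κ i → ℂ)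
  have h4 : (2 * bil (rm G) x y) • g i v = (2 * bil (rm G) (A x) (A y)) • g i v :=
    LinearMap.congr_fun h3 v
  rw [← sub_eq_zero, ← sub_smul] at h4
  rcases smul_eq_zero.mp h4 with h5 | h5
  · linear_combination (-1 / 2 : ℂ) * h5
  · exact absurd (hg.injective _ _ γ i (h5.trans (map_zero _).symm)) hv

lemma hypF_form [Nonempty (κ i)] (K : KSD (P i) G t) (hinj : Function.Injective (tau t))
    (B : Matrix (Fin d) (Fin d) ℂ) (hB : B ∈ hypF_T n P i t γ) :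
    Bᴴ * (rm G).map ((↑) : ℝ → ℂ) * B = (rm G).map ((↑) : ℝ → ℂ) := by
  obtain ⟨g, hg, hA⟩ := hB
  apply eq_of_hf
  intro u v
  rw [hf_conjT, hf_bil, hf_bil]
  have h1 := hypF_real K hinj hg (A := Matrix.toLin' B) (fun x => by
    rw [Matrix.toLin'_apply, hA]) u
  have h2 := hypF_bil K hg (A := Matrix.toLin' B) (fun x => by
    rw [Matrix.toLin'_apply, hA]) (star u) v
  rw [h1] at h2
  rw [Matrix.toLin'_apply, Matrix.toLin'_apply] at h2
  exact h2

/-- the group acts irreducibly -/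
lemma hypF_irr (hϖ : ϖ ≠ 0)
    (hB : ∀ v : Fin (2 * k) → HW κ n,
      (∀ r, IsRatP n P (v r)) → ∃ q : ℚ, γ v = ϖ ^ k * q)
    (hT : ∀ X : GG κ, IsInv n P γ X →
      ∃ M, Act t (X.1 i) M)
    (hirr : ∀ W : Submodule ℂ (Fin d → ℂ),
      (∀ (X : GG κ) (M : Module.End ℂ (Fin d → ℂ)),
        IsInv n P γ X → Act t (X.1 i) M → ∀ w ∈ W, M w ∈ W) →
      W = ⊥ ∨ W = ⊤) (W : Submodule ℂ (Fin d → ℂ))
    (hW : ∀ (g : (j : I) → Module.End ℂ (κ j → ℂ)) (A : Module.End ℂ (Fin d → ℂ)),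
      IsGrp n P γ g → (∀ x, g i * tau t x = tau t (A x) * g i) →
      ∀ w ∈ W, A w ∈ W) : W = ⊥ ∨ W = ⊤ := by
  apply hirr
  have hreal : ∀ (Y : GG κ) (M : Module.End ℂ (Fin d → ℂ)),
      IsInv n P γ Y → Y.2 = 0 →
      (∀ (j : I) v, Y.1 j (cB (P j) v) = cB (P j) (Y.1 j v)) → Act t (Y.1 i) M →
      ∀ v ∈ W, M v ∈ W := by
    intro Y M hY hY2 hYr hM
    exact stable_of_ex M W fun s v hv => hW _ (ex M s)
      (isGrp_ex n P γ Y hY hY2 hYr s)
      (fun x => LinearMap.ext fun v => ex_tau hM s x v) v hv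
  intro X M hX hM v hv
  obtain ⟨X0, hX0⟩ : ∃ X0 : GG κ, X0 = X + (-X.2) •
    ((fun _ => (1 / 2 : ℂ) • (1 : Module.End ℂ _), 1) : GG κ) := ⟨_, rfl⟩
  have hX0i : IsInv n P γ X0 := by
    rw [hX0]
    exact hX.add _ _ γ ((isInv_homothety _ _ γ).smul _ _ γ _)
  have hX02 : X0.2 = 0 := by
    rw [hX0]
    show X.2 + (-X.2) * 1 = 0
    ring
  have hM0 : Act t (X0.1 i) M := by
    intro x
    have e : X0.1 i = X.1 i + (-X.2) • ((1 / 2 : ℂ) • (1 : Module.End ℂ (κ i → ℂ))) := by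
      rw [hX0]
      rfl
    rw [e, ← hM x, add_mul, mul_add, smul_smul, smul_mul_assoc, mul_smul_comm, one_mul, mul_one]
    abel
  obtain ⟨X', hX', hX'2, -, hX'c⟩ := exists_real n P γ hϖ hB X0 hX0i
  rw [hX02, map_zero] at hX'2
  obtain ⟨M', hM'⟩ := hT X' hX'
  have h1 := hreal ((1 / 2 : ℂ) • (X0 + X')) ((1 / 2 : ℂ) • (M + M'))
    ((hX0i.add _ _ γ hX').smul _ _ γ _) (by
      show (1 / 2 : ℂ) * (X0.2 + X'.2) = 0
      rw [hX02, hX'2]; ring) (fun j w => by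
      show (1 / 2 : ℂ) • (X0.1 j (cB (P j) w) + X'.1 j (cB (P j) w)) =
        cB (P j) ((1 / 2 : ℂ) • (X0.1 j w + X'.1 j w))
      have e : conj (1 / 2 : ℂ) = 1 / 2 := by
        rw [map_div₀, map_one, map_ofNat]
      rw [hX'c, hX'c, cB_smul, cB_add, cB_cB, cB_cB, add_comm, e])
    ((hM0.add hM').smul _) v hv
  have h2 := hreal ((-Complex.I / 2 : ℂ) • (X0 + (-1 : ℂ) • X'))
    ((-Complex.I / 2 : ℂ) • (M + (-1 : ℂ) • M'))
    ((hX0i.add _ _ γ (hX'.smul _ _ γ _)).smul _ _ γ _) (by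
      show (-Complex.I / 2 : ℂ) * (X0.2 + (-1 : ℂ) * X'.2) = 0
      rw [hX02, hX'2]; ring) (fun j w => by
      show (-Complex.I / 2 : ℂ) • (X0.1 j (cB (P j) w) + (-1 : ℂ) • X'.1 j (cB (P j) w)) =
        cB (P j) ((-Complex.I / 2 : ℂ) • (X0.1 j w + (-1 : ℂ) • X'.1 j w))
      rw [hX'c, hX'c, cB_smul, cB_add, cB_smul, cB_cB, cB_cB]
      have e : conj (-Complex.I / 2 : ℂ) = Complex.I / 2 := by
        rw [map_div₀, map_neg, Complex.conj_I, neg_neg, map_ofNat]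
      rw [e, map_neg, map_one, smul_add, smul_add, smul_smul, smul_smul, add_comm]
      congr 1
      · congr 1; ring
      · congr 1; ring) ((hM0.add (hM'.smul _)).smul _) v hv
  have h3 : M v = ((1 / 2 : ℂ) • (M + M')) v +
      Complex.I • ((-Complex.I / 2 : ℂ) • (M + (-1 : ℂ) • M')) v := by
    show _ = (1 / 2 : ℂ) • (M v + M' v) +
      Complex.I • ((-Complex.I / 2 : ℂ) • (M v + (-1 : ℂ) • M' v))
    rw [smul_smul]
    have e : Complex.I * (-Complex.I / 2) = 1 / 2 := by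
      linear_combination (-1 / 2 : ℂ) * Complex.I_sq
    rw [e, ← smul_add]
    have e2 : M v + M' v + (M v + (-1 : ℂ) • M' v) = (2 : ℂ) • M v := by
      rw [neg_one_smul, two_smul]; abel
    rw [e2, smul_smul]
    norm_num
  rw [h3]
  exact W.add_mem h1 (W.smul_mem _ h2)

end aux

variable {I : Type} [Fintype I] [DecidableEq I] (n : I → ℕ) {κ : I → Type}
    [∀ i, Fintype (κ i)] [∀ i, DecidableEq (κ i)] {ϖ : ℂ} (hϖ : ϖ ≠ 0) (P : ∀ i, PData (κ i) ϖ)
    (i : I) {d : ℕ} {G : Matrix (Fin d) (Fin d) ℚ} {t : Fin d → Module.End ℂ (κ i → ℂ)}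
    (K : KSD (P i) G t) {k : ℕ}
    (γ : MultilinearMap ℂ (fun _ : Fin (2 * k) => HW κ n) ℂ)
    (hB : ∀ v : Fin (2 * k) → HW κ n, (∀ r, IsRatP n P (v r)) → ∃ q : ℚ, γ v = ϖ ^ k * q)
    (hA : ∀ v : Fin (2 * k) → HW κ n, (∀ r i m j, IsAlgebraic ℚ (v r i m j)) →
      IsAlgebraic ℚ (γ v))

include hϖ K hB in
theorem exists_hypF (hκ : Nonempty (κ i)) (hG : Gᵀ = G)
    (hnd : (bil (rm G)).Nondegenerate)
    (hpos : ∃ x : Fin d → ℝ, 0 < x ⬝ᵥ (rm G *ᵥ x)) (hneg : ∃ x : Fin d → ℝ, x ⬝ᵥ (rm G *ᵥ x) < 0)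
    (hT : ∀ X : GG κ, IsInv n P γ X → ∃ M, Act t (X.1 i) M)
    (hTg : ∀ g : (i : I) → Module.End ℂ (κ i → ℂ), IsGrp n P γ g →
      ∃ A : Module.End ℂ (Fin d → ℂ), ∀ x, g i * tau t x = tau t (A x) * g i)
    (hirr : ∀ W : Submodule ℂ (Fin d → ℂ),
      (∀ (X : GG κ) (M : Module.End ℂ (Fin d → ℂ)),
        IsInv n P γ X → Act t (X.1 i) M → ∀ w ∈ W, M w ∈ W) → W = ⊥ ∨ W = ⊤) :
    ∃ (Y : GG κ) (M : Module.End ℂ (Fin d → ℂ)),
      IsInv n P γ Y ∧ Y.2 = 0 ∧ Act t (Y.1 i) M ∧ M ≠ 0 ∧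
      (∀ v, M (star v) = star (M v)) ∧
      ∀ v, v ∈ Submodule.span ℂ {w | ∃ r : ℝ, M w = (r : ℂ) • w} := by
  have hinj : Function.Injective (tau t) := tau_injective K.cliff hnd
  have hH : ((rm G).map ((↑) : ℝ → ℂ)).IsHermitian := by
    apply Matrix.IsHermitian.ext
    intro a b
    rw [Matrix.map_apply, Matrix.map_apply]
    have h1 : rm G b a = rm G a b := by
      show ((G b a : ℚ) : ℝ) = ((G a b : ℚ) : ℝ)
      have h2 : G b a = G a b := by
        conv_lhs => rw [← hG]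
        rfl
      rw [h2]
    rw [h1]
    exact Complex.conj_ofReal _
  have hre : ∀ x : Fin d → ℝ, (hf ((rm G).map ((↑) : ℝ → ℂ)) (cx x) (cx x)).re =
      x ⬝ᵥ (rm G *ᵥ x) := by
    intro x
    rw [hf_bil, star_cx, bil_cx, Complex.ofReal_re]
  obtain ⟨xp, hxp⟩ := hpos
  obtain ⟨xn, hxn⟩ := hneg
  obtain ⟨B, hBm, μ, v, hv0, hv, hμ⟩ := Helper20.Ball.M3 ((rm G).map ((↑) : ℝ → ℂ)) hH
    ⟨cx xp, by rw [hre]; exact hxp⟩ ⟨cx xn, by rw [hre]; exact hxn⟩ (hypF_T n P i t γ)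
    (hypF_inv hinj hTg) (hypF_form K hinj) (fun U hU => by
      refine hypF_irr hϖ hB hT hirr U fun g A hg hA w hw => ?_
      have hA' : ∀ x, (LinearMap.toMatrix' A) *ᵥ x = A x := fun x => by
        rw [← Matrix.toLin'_apply, Matrix.toLin'_toMatrix']
      rw [← hA']
      exact hU _ ⟨g, hg, fun x => by rw [hA', hA]⟩ w hw)
  obtain ⟨g, hg, hgB⟩ := hBm
  obtain ⟨A, hAB⟩ : ∃ A : Module.End ℂ (Fin d → ℂ), ∀ x, A x = B *ᵥ x :=
    ⟨Matrix.toLin' B, fun x => Matrix.toLin'_apply _ _⟩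
  have hgA : ∀ x, g i * tau t x = tau t (A x) * g i := fun x => by rw [hAB, hgB]
  rw [← hAB] at hv
  have hginj : Function.Injective (g i) := hg.injective _ _ γ i
  have hAinj : Function.Injective A := by
    rw [injective_iff_map_eq_zero]
    intro x hx
    apply hinj
    rw [map_zero]
    apply LinearMap.ext
    intro w
    apply hginj
    have h1 := LinearMap.congr_fun (hgA x) w
    rw [hx, map_zero, zero_mul, LinearMap.zero_apply, Module.End.mul_apply] at h1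
    rw [h1, LinearMap.zero_apply, map_zero]
  obtain ⟨Y, hY, hY2, hr, hl⟩ := Helper65.Ball.M1 _ _ γ g hg
  obtain ⟨M, hM⟩ := hT Y hY
  have hMl : ∀ (μ' : ℂ), ∀ x ∈ A.maxGenEigenspace μ', M x = ((Real.log ‖μ'‖ : ℝ) : ℂ) • x := by
    intro μ' x hx
    by_cases hμ0 : μ' = 0
    · rw [hμ0] at hx
      rw [maxGen_zero hAinj hx, map_zero, smul_zero]
    apply hinj
    rw [← hM x, map_smul]
    refine Helper65.Ball.ext_maxGen (g i) _ _ fun ν w hw => ?_
    by_cases hν0 : ν = 0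
    · rw [hν0] at hw
      rw [maxGen_zero hginj hw, map_zero, map_zero]
    have h1 := hl i _ _ (tau_maxGen hgA hx hw)
    have h2 := hl i _ _ hw
    rw [LinearMap.sub_apply, Module.End.mul_apply, Module.End.mul_apply, h1, h2, map_smul,
      ← sub_smul, LinearMap.smul_apply, norm_mul, Real.log_mul (norm_ne_zero_iff.mpr hμ0)
        (norm_ne_zero_iff.mpr hν0)]
    congr 1
    push_cast
    ring
  refine ⟨Y, M, hY, hY2, hM, ?_, ?_, ?_⟩
  · intro h0
    have h1 : v ∈ A.maxGenEigenspace μ := by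
      rw [Module.End.mem_maxGenEigenspace]
      refine ⟨1, ?_⟩
      rw [pow_one, LinearMap.sub_apply, LinearMap.smul_apply, Module.End.one_apply, hv, sub_self]
    have h2 := hMl μ v h1
    rw [h0, LinearMap.zero_apply] at h2
    rcases smul_eq_zero.mp h2.symm with h4 | h4
    · have h5 : Real.log ‖μ‖ = 0 := by exact_mod_cast h4
      rcases Real.log_eq_zero.mp h5 with h6 | h6 | h6
      · have h7 : μ = 0 := norm_eq_zero.mp h6
        rw [h7, zero_smul] at hv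
        exact hv0 (hAinj (hv.trans (map_zero _).symm))
      · exact hμ h6
      · have := norm_nonneg μ
        linarith
    · exact hv0 h4
  · intro x
    apply hinj
    apply LinearMap.ext
    intro w
    obtain ⟨u, rfl⟩ : ∃ u, cB (P i) u = w := ⟨cB (P i) w, cB_cB (P i) w⟩
    have h1 := LinearMap.congr_fun (hM (star x)) (cB (P i) u)
    have h2 := LinearMap.congr_fun (hM x) u
    have hr' : ∀ v, Y.1 i (cB (P i) v) = cB (P i) (Y.1 i v) := hr i
    rw [LinearMap.sub_apply, Module.End.mul_apply, Module.End.mul_apply] at h1 h2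
    rw [← h1, ← cB_tau K, hr', hr', ← cB_tau K, ← cB_sub, h2, cB_tau K]
  · intro x
    have h1 : (⊤ : Submodule ℂ (Fin d → ℂ)) ≤
        Submodule.span ℂ {w | ∃ r : ℝ, M w = (r : ℂ) • w} := by
      rw [← Module.End.iSup_maxGenEigenspace_eq_top A]
      exact iSup_le fun μ' y hy => Submodule.subset_span ⟨Real.log ‖μ'‖, hMl μ' y hy⟩
    exact h1 Submodule.mem_top

end Pool.Agent.KSP
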