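import Pool.Agent.KS.Basic

/-!
Products of Kuga-Satake varieties: common definitions.
-/

namespace Pool.Agent.KSP

open Module Matrix Pool.Agent.Helper7

/-- skew operators -/
def Skw {V : Type} [AddCommGroup V] [Module ℂ V] (q : LinearMap.BilinForm ℂ V)
    (M : Module.End ℂ V) : Prop :=
  ∀ u v, q (M u) v + q u (M v) = 0

end Pool.Agent.KSP
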