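import Pool.Agent.KS.Beta
import Pool.Agent.KSP.Defs

/-!
Module TenA. From forms on `T` to forms on `H_1`.

Proof. For `u, v : κ i → ℂ` let `p i u v : Fin (d i) → ℂ` be the vector with
`bil (rm (G i)) (p i u v) x = (P i).ψ (tau (t i) x u) v` for all `x`, that is
`p i u v b = ∑ a, (G i)⁻¹ a b * (P i).ψ (t i a u) v`. Put
`α v = F (fun r i => p i (v (e (r, 0)) i 0) (v (e (r, 1)) i 0))`, where
`e : Fin j × Fin 2 ≃ Fin (2 * j)`.
Rational: `p i u v` is `ϖ` times a rational vector for rational `u, v` (`K.rat`, `PData.hψQ`), so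
`α v ∈ ϖ ^ j ℚ`. Algebraic: as in `KS/Beta.lean`, with `c` as in `K.alg`, `f b = ∑ a, c a b • t a`,
`C = cᵀ * G * c` (algebraic entries, invertible), `tau t (p u v) = ∑ b b', C⁻¹ b b' * ψ (f b u) v • f b'`,
so for algebraic `u, v` the operator `tau t (p u v)` has algebraic matrix entries, and `hFA` applies.
Invariance: `bil (p (B u) v + p u (B v)) x = ψ (tau x (B u)) v + ψ (tau x u) (B v) =
ψ ((tau x B - B tau x) u) v = - ψ (tau (M x) u) v = - bil (p u v) (M x) = bil (M (p u v)) x`, so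
`p (B u) v + p u (B v) = M (p u v)`. The vectors `p i u v` span `Fin (d i) → ℂ` (`x` orthogonal to
all of them satisfies `ψ (tau x u) v = 0`, so `tau x = 0`, `x = 0`).
-/

set_option autoImplicit false

namespace Pool.Agent.KSP

open Module Matrix Pool.Agent.Helper7 Pool.Agent.KS

namespace TenA

section pair

variable {W U : Type} [AddCommGroup W] [Module ℂ W] [AddCommGroup U] [Module ℂ U] {j : ℕ}

/-- pairing of the slots -/
def ee (j : ℕ) : Fin j × Fin 2 ≃ Fin (2 * j) := (Equiv.prodComm _ _).trans finProdFinEquiv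

lemma upd0 (pp : W →ₗ[ℂ] W →ₗ[ℂ] U) (w : Fin (2 * j) → W) (r : Fin j) (x : W) :
    (fun r' => pp (Function.update w (ee j (r, 0)) x (ee j (r', 0)))
      (Function.update w (ee j (r, 0)) x (ee j (r', 1)))) =
    Function.update (fun r' => pp (w (ee j (r', 0))) (w (ee j (r', 1)))) r
      (pp x (w (ee j (r, 1)))) := by
  funext r'
  have h1 : ee j (r', 1) ≠ ee j (r, 0) := by
    intro h
    have := (ee j).injective h
    simp at this
  by_cases h : r' = r
  · subst h
    rw [Function.update_self, Function.update_self, Function.update_of_ne h1]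
  · have h2 : ee j (r', 0) ≠ ee j (r, 0) := by
      intro h3
      have := (ee j).injective h3
      simp only [Prod.mk.injEq] at this
      exact h this.1
    rw [Function.update_of_ne h, Function.update_of_ne h1, Function.update_of_ne h2]

lemma upd1 (pp : W →ₗ[ℂ] W →ₗ[ℂ] U) (w : Fin (2 * j) → W) (r : Fin j) (x : W) :
    (fun r' => pp (Function.update w (ee j (r, 1)) x (ee j (r', 0)))
      (Function.update w (ee j (r, 1)) x (ee j (r', 1)))) =
    Function.update (fun r' => pp (w (ee j (r', 0))) (w (ee j (r', 1)))) r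
      (pp (w (ee j (r, 0))) x) := by
  funext r'
  have h1 : ee j (r', 0) ≠ ee j (r, 1) := by
    intro h
    have := (ee j).injective h
    simp at this
  by_cases h : r' = r
  · subst h
    rw [Function.update_self, Function.update_self, Function.update_of_ne h1]
  · have h2 : ee j (r', 1) ≠ ee j (r, 1) := by
      intro h3
      have := (ee j).injective h3
      simp only [Prod.mk.injEq] at this
      exact h this.1
    rw [Function.update_of_ne h, Function.update_of_ne h1, Function.update_of_ne h2]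

/-- the form on pairs -/
noncomputable def pairForm (F : MultilinearMap ℂ (fun _ : Fin j => U) ℂ)
    (pp : W →ₗ[ℂ] W →ₗ[ℂ] U) : MultilinearMap ℂ (fun _ : Fin (2 * j) => W) ℂ where
  toFun w := F (fun r => pp (w (ee j (r, 0))) (w (ee j (r, 1))))
  map_update_add' := by
    intro inst w s x y
    have h0 : inst = instDecidableEqFin (2 * j) := Subsingleton.elim _ _
    subst h0
    obtain ⟨⟨r, b⟩, rfl⟩ := (ee j).surjective s
    fin_cases b
    · have h1 := upd0 pp w r
      simp only [Fin.zero_eta, Fin.isValue] at *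
      rw [h1, h1, h1, map_add, LinearMap.add_apply, MultilinearMap.map_update_add]
    · have h1 := upd1 pp w r
      simp only [Fin.mk_one, Fin.isValue] at *
      rw [h1, h1, h1, map_add, MultilinearMap.map_update_add]
  map_update_smul' := by
    intro inst w s c x
    have h0 : inst = instDecidableEqFin (2 * j) := Subsingleton.elim _ _
    subst h0
    obtain ⟨⟨r, b⟩, rfl⟩ := (ee j).surjective s
    fin_cases b
    · have h1 := upd0 pp w r
      simp only [Fin.zero_eta, Fin.isValue] at *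
      rw [h1, h1, map_smul, LinearMap.smul_apply, MultilinearMap.map_update_smul]
    · have h1 := upd1 pp w r
      simp only [Fin.mk_one, Fin.isValue] at *
      rw [h1, h1, map_smul, MultilinearMap.map_update_smul]

lemma pairForm_apply (F : MultilinearMap ℂ (fun _ : Fin j => U) ℂ)
    (pp : W →ₗ[ℂ] W →ₗ[ℂ] U) (w : Fin (2 * j) → W) :
    pairForm F pp w = F (fun r => pp (w (ee j (r, 0))) (w (ee j (r, 1)))) := rfl

lemma act_pairForm (F : MultilinearMap ℂ (fun _ : Fin j => U) ℂ) (pp : W →ₗ[ℂ] W →ₗ[ℂ] U)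
    (L : Module.End ℂ W) (N : Module.End ℂ U)
    (hLN : ∀ x y, pp (L x) y + pp x (L y) = N (pp x y)) (w : Fin (2 * j) → W) :
    actForm L (pairForm F pp) w =
      actForm N F (fun r => pp (w (ee j (r, 0))) (w (ee j (r, 1)))) := by
  rw [actForm_apply, actForm_apply, ← (ee j).sum_comp, Fintype.sum_prod_type]
  refine Finset.sum_congr rfl fun r _ => ?_
  rw [Fin.sum_univ_two, pairForm_apply, pairForm_apply, upd0, upd1, ← hLN,
    MultilinearMap.map_update_add]

lemma act_zero (F : MultilinearMap ℂ (fun _ : Fin j => U) ℂ) (pp : W →ₗ[ℂ] W →ₗ[ℂ] U)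
    (L : Module.End ℂ W) (N : Module.End ℂ U)
    (hLN : ∀ x y, pp (L x) y + pp x (L y) = N (pp x y))
    (hsp : Submodule.span ℂ {y : U | ∃ x x', pp x x' = y} = ⊤)
    (h : actForm L (pairForm F pp) = 0) : actForm N F = 0 := by
  let b := Basis.ofSpan (K := ℂ) (s := {y : U | ∃ x x', pp x x' = y}) hsp.ge
  have hb : ∀ i, ∃ x x', pp x x' = b i := by
    intro i
    have := Basis.ofSpan_subset (K := ℂ) (s := {y : U | ∃ x x', pp x x' = y}) hsp.ge
    exact this ⟨i, rfl⟩
  choose x x' hx using hb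
  refine Basis.ext_multilinear (fun _ => b) ?_
  intro v
  let w : Fin (2 * j) → W := fun s =>
    if ((ee j).symm s).2 = 0 then x (v ((ee j).symm s).1) else x' (v ((ee j).symm s).1)
  have h1 := act_pairForm F pp L N hLN w
  rw [h] at h1
  have h2 : (fun r => pp (w (ee j (r, 0))) (w (ee j (r, 1)))) = fun r => b (v r) := by
    funext r
    rw [← hx]
    have e0 : w (ee j (r, 0)) = x (v r) := by
      show (if ((ee j).symm (ee j (r, 0))).2 = 0 then x (v ((ee j).symm (ee j (r, 0))).1)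
        else x' (v ((ee j).symm (ee j (r, 0))).1)) = x (v r)
      rw [(ee j).symm_apply_apply]
      exact if_pos rfl
    have e1 : w (ee j (r, 1)) = x' (v r) := by
      show (if ((ee j).symm (ee j (r, 1))).2 = 0 then x (v ((ee j).symm (ee j (r, 1))).1)
        else x' (v ((ee j).symm (ee j (r, 1))).1)) = x' (v r)
      rw [(ee j).symm_apply_apply]
      exact if_neg one_ne_zero
    rw [e0, e1]
  rw [h2] at h1
  rw [← h1]
  rfl

end pair

section single

variable {κ : Type} [Fintype κ] [DecidableEq κ] {ϖ : ℂ} {n : ℕ}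

/-- the vector attached to a pair -/
noncomputable def pv (P : PData κ ϖ) (G : Matrix (Fin n) (Fin n) ℚ)
    (t : Fin n → Module.End ℂ (κ → ℂ)) : (κ → ℂ) →ₗ[ℂ] (κ → ℂ) →ₗ[ℂ] (Fin n → ℂ) :=
  LinearMap.mk₂ ℂ (fun u v b => ∑ a, ((G⁻¹ a b : ℚ) : ℂ) * P.ψ (t a u) v)
    (by
      intro u u' v
      funext b
      simp only [map_add, LinearMap.add_apply, mul_add, Finset.sum_add_distrib, Pi.add_apply])
    (by
      intro c u v
      funext b
      simp only [map_smul, LinearMap.smul_apply, smul_eq_mul, Pi.smul_apply, Finset.mul_sum]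
      refine Finset.sum_congr rfl fun a _ => ?_
      ring)
    (by
      intro u v v'
      funext b
      simp only [map_add, mul_add, Finset.sum_add_distrib, Pi.add_apply])
    (by
      intro c u v
      funext b
      simp only [map_smul, smul_eq_mul, Pi.smul_apply, Finset.mul_sum]
      refine Finset.sum_congr rfl fun a _ => ?_
      ring)

lemma pv_apply (P : PData κ ϖ) (G : Matrix (Fin n) (Fin n) ℚ)
    (t : Fin n → Module.End ℂ (κ → ℂ)) (u v : κ → ℂ) (b : Fin n) :
    pv P G t u v b = ∑ a, ((G⁻¹ a b : ℚ) : ℂ) * P.ψ (t a u) v := rfl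

lemma det_ne {G : Matrix (Fin n) (Fin n) ℚ} (hnd : (bil (rm G)).Nondegenerate) : G.det ≠ 0 := by
  have hGc' : (rm G).map ((↑) : ℝ → ℂ) = G.map ((↑) : ℚ → ℂ) := by
    ext i j
    simp [rm]
  have hdet : (G.map ((↑) : ℚ → ℂ)).det ≠ 0 := by
    rw [← hGc']
    exact LinearMap.BilinForm.nondegenerate_toBilin'_iff_det_ne_zero.1 hnd
  intro h0
  apply hdet
  have h1 := RingHom.map_det (algebraMap ℚ ℂ) G
  rw [h0, map_zero] at h1
  exact h1.symm

lemma inv_mul_entry {G : Matrix (Fin n) (Fin n) ℚ} (hdet : G.det ≠ 0) (a j : Fin n) :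
    ∑ i, ((G⁻¹ a i : ℚ) : ℂ) * ((G i j : ℚ) : ℂ) = if a = j then 1 else 0 := by
  have h1 := congrFun (congrFun (Matrix.nonsing_inv_mul G (isUnit_iff_ne_zero.2 hdet)) a) j
  rw [Matrix.mul_apply, Matrix.one_apply] at h1
  have h2 := congrArg ((↑) : ℚ → ℂ) h1
  push_cast at h2
  rw [h2]
  split_ifs <;> simp

lemma tau_psi (P : PData κ ϖ) (t : Fin n → Module.End ℂ (κ → ℂ)) (x : Fin n → ℂ)
    (u v : κ → ℂ) : P.ψ (tau t x u) v = ∑ j, x j * P.ψ (t j u) v := by
  rw [tau_apply]
  simp only [LinearMap.sum_apply, map_sum, LinearMap.smul_apply, map_smul, smul_eq_mul]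

lemma pv_bil (P : PData κ ϖ) {G : Matrix (Fin n) (Fin n) ℚ} (hdet : G.det ≠ 0)
    (t : Fin n → Module.End ℂ (κ → ℂ)) (u v : κ → ℂ) (x : Fin n → ℂ) :
    bil (rm G) (pv P G t u v) x = P.ψ (tau t x u) v := by
  rw [bil_apply, Finset.sum_comm, tau_psi]
  refine Finset.sum_congr rfl fun j _ => ?_
  have h1 : ∀ i, pv P G t u v i * ((rm G i j : ℝ) : ℂ) * x j =
      ∑ a, (P.ψ (t a u) v * x j) * (((G⁻¹ a i : ℚ) : ℂ) * ((G i j : ℚ) : ℂ)) := by
    intro i
    rw [pv_apply, Finset.sum_mul, Finset.sum_mul]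
    refine Finset.sum_congr rfl fun a _ => ?_
    rw [rm, Matrix.map_apply]
    push_cast
    ring
  rw [Finset.sum_congr rfl fun i _ => h1 i, Finset.sum_comm]
  have h2 : ∀ a, ∑ i, (P.ψ (t a u) v * x j) * (((G⁻¹ a i : ℚ) : ℂ) * ((G i j : ℚ) : ℂ)) =
      if a = j then P.ψ (t a u) v * x j else 0 := by
    intro a
    rw [← Finset.mul_sum, inv_mul_entry hdet]
    split_ifs <;> simp
  rw [Finset.sum_congr rfl fun a _ => h2 a, Finset.sum_ite_eq' Finset.univ j,
    if_pos (Finset.mem_univ j), mul_comm]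

lemma pv_rat {P : PData κ ϖ} {G : Matrix (Fin n) (Fin n) ℚ}
    {t : Fin n → Module.End ℂ (κ → ℂ)} (K : KSD P G t) (u v : κ → ℂ) (hu : u ∈ P.Q)
    (hv : v ∈ P.Q) : ∃ z : Fin n → ℚ, ∀ b, pv P G t u v b = ϖ * z b := by
  have h1 : ∀ a, ∃ q : ℚ, P.ψ (t a u) v = ϖ * q := fun a => P.hψQ _ (K.rat a _ hu) _ hv
  choose q hq using h1
  refine ⟨fun b => ∑ a, G⁻¹ a b * q a, fun b => ?_⟩
  rw [pv_apply]
  push_cast
  rw [Finset.mul_sum]
  refine Finset.sum_congr rfl fun a _ => ?_
  rw [hq]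
  ring

lemma pv_act {P : PData κ ϖ} {G : Matrix (Fin n) (Fin n) ℚ}
    (hnd : (bil (rm G)).Nondegenerate) {t : Fin n → Module.End ℂ (κ → ℂ)}
    {B : Module.End ℂ (κ → ℂ)} {M : Module.End ℂ (Fin n → ℂ)} (hA : Act t B M)
    (hψ : ∀ u v, P.ψ (B u) v + P.ψ u (B v) = 0) (hM : Skw (bil (rm G)) M) (u v : κ → ℂ) :
    pv P G t (B u) v + pv P G t u (B v) = M (pv P G t u v) := by
  have hdet := det_ne hnd
  rw [← sub_eq_zero]
  apply hnd.1
  intro x
  rw [map_sub, map_add, LinearMap.sub_apply, LinearMap.add_apply, pv_bil P hdet, pv_bil P hdet]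
  have h1 := hM (pv P G t u v) x
  rw [pv_bil P hdet, ← hA x] at h1
  have h2 := hψ (tau t x u) v
  rw [LinearMap.sub_apply, map_sub, LinearMap.sub_apply, Module.End.mul_apply,
    Module.End.mul_apply] at h1
  linear_combination h2 - h1

lemma pv_span [Nonempty κ] {P : PData κ ϖ} {G : Matrix (Fin n) (Fin n) ℚ}
    (hnd : (bil (rm G)).Nondegenerate) {t : Fin n → Module.End ℂ (κ → ℂ)} (K : KSD P G t) :
    Submodule.span ℂ {y : Fin n → ℂ | ∃ u v, pv P G t u v = y} = ⊤ := by
  have hdet := det_ne hnd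
  by_contra hne
  obtain ⟨y, hy⟩ : ∃ y, y ∉ Submodule.span ℂ {y : Fin n → ℂ | ∃ u v, pv P G t u v = y} := by
    by_contra hcon
    push Not at hcon
    exact hne (eq_top_iff.2 fun y _ => hcon y)
  obtain ⟨μ, hμ1, hμ2⟩ := Submodule.exists_dual_map_eq_bot_of_notMem hy inferInstance
  have hμS : ∀ u v, μ (pv P G t u v) = 0 := by
    intro u v
    have : μ (pv P G t u v) ∈ Submodule.map μ
        (Submodule.span ℂ {y : Fin n → ℂ | ∃ u v, pv P G t u v = y}) :=
      Submodule.mem_map_of_mem (Submodule.subset_span ⟨u, v, rfl⟩)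
    rw [hμ2] at this
    exact (Submodule.mem_bot ℂ).1 this
  have hμx : ∀ x : Fin n → ℂ, μ x = ∑ b, x b * μ (Pi.single b 1) := by
    intro x
    have h1 : x = ∑ b, x b • (Pi.single b (1 : ℂ) : Fin n → ℂ) := by
      ext j; simp [Finset.sum_apply, Pi.single_apply]
    conv_lhs => rw [h1]
    rw [map_sum]
    exact Finset.sum_congr rfl fun b _ => by rw [map_smul, smul_eq_mul]
  set g : Fin n → ℂ := fun a => ∑ b, ((G⁻¹ a b : ℚ) : ℂ) * μ (Pi.single b 1) with hg
  have h3 : tau t g = 0 := by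
    apply beta_op_zero P.hψnd
    intro u v
    rw [tau_psi, ← hμS u v, hμx]
    simp only [hg, pv_apply, Finset.sum_mul]
    rw [Finset.sum_comm]
    refine Finset.sum_congr rfl fun b _ => Finset.sum_congr rfl fun a _ => ?_
    ring
  have h4 : g = 0 := by
    apply tau_injective (t := t) K.cliff hnd
    rw [h3, map_zero]
  apply hμ1
  rw [hμx]
  refine Finset.sum_eq_zero fun b _ => ?_
  have h5 : μ (Pi.single b 1) = ∑ a, ((G b a : ℚ) : ℂ) * g a := by
    have h6 := fun c => congrFun (congrFun (Matrix.mul_nonsing_inv G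
      (isUnit_iff_ne_zero.2 hdet)) b) c
    have h7 : ∀ c, ∑ a, ((G b a : ℚ) : ℂ) * ((G⁻¹ a c : ℚ) : ℂ) = if b = c then 1 else 0 := by
      intro c
      have h8 := h6 c
      rw [Matrix.mul_apply, Matrix.one_apply] at h8
      have h9 := congrArg ((↑) : ℚ → ℂ) h8
      push_cast at h9
      rw [h9]
      split_ifs <;> simp
    simp only [hg, Finset.mul_sum]
    rw [Finset.sum_comm]
    have h10 : ∀ c, ∑ a, ((G b a : ℚ) : ℂ) * (((G⁻¹ a c : ℚ) : ℂ) * μ (Pi.single c 1)) =
        if b = c then μ (Pi.single c 1) else 0 := by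
      intro c
      have : ∑ a, ((G b a : ℚ) : ℂ) * (((G⁻¹ a c : ℚ) : ℂ) * μ (Pi.single c 1)) =
          (∑ a, ((G b a : ℚ) : ℂ) * ((G⁻¹ a c : ℚ) : ℂ)) * μ (Pi.single c 1) := by
        rw [Finset.sum_mul]
        exact Finset.sum_congr rfl fun a _ => by ring
      rw [this, h7]
      split_ifs <;> simp
    rw [Finset.sum_congr rfl fun c _ => h10 c, Finset.sum_ite_eq Finset.univ b,
      if_pos (Finset.mem_univ b)]
  rw [h5, h4]
  simp

lemma alg_decomp [Nonempty κ] {P : PData κ ϖ} {G : Matrix (Fin n) (Fin n) ℚ}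
    (hnd : (bil (rm G)).Nondegenerate) {t : Fin n → Module.End ℂ (κ → ℂ)} (K : KSD P G t) :
    ∃ c D : Matrix (Fin n) (Fin n) ℂ,
      (∀ b i j, IsAlgebraic ℚ ((∑ a, c a b • t a) (Pi.single i 1) j)) ∧
      (∀ e e', IsAlgebraic ℚ (D e e')) ∧
      ∀ a b, ((G⁻¹ a b : ℚ) : ℂ) = ∑ e, ∑ e', c a e * D e e' * c b e' := by
  classical
  set Gc : Matrix (Fin n) (Fin n) ℂ := G.map ((↑) : ℚ → ℂ) with hGc
  have hGc' : (rm G).map ((↑) : ℝ → ℂ) = Gc := by
    ext i j
    simp [rm, hGc]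
  have hdet : Gc.det ≠ 0 := by
    rw [← hGc']
    exact LinearMap.BilinForm.nondegenerate_toBilin'_iff_det_ne_zero.1 hnd
  set H : Matrix (Fin n) (Fin n) ℂ := (G⁻¹).map ((↑) : ℚ → ℂ) with hHdef
  have hdetQ : G.det ≠ 0 := det_ne hnd
  have hHG : H * Gc = 1 := by
    have h1 : (algebraMap ℚ ℂ).mapMatrix (G⁻¹ * G) = 1 := by
      rw [Matrix.nonsing_inv_mul G (isUnit_iff_ne_zero.2 hdetQ), map_one]
    rw [map_mul] at h1
    exact h1
  obtain ⟨c, hc, hcalg⟩ := K.alg
  set f : Fin n → Module.End ℂ (κ → ℂ) := fun b => ∑ a, c a b • t a with hf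
  set C : Matrix (Fin n) (Fin n) ℂ := cᵀ * Gc * c with hCdef
  have hcdet : c.det ≠ 0 := isUnit_iff_ne_zero.1 ((Matrix.isUnit_iff_isUnit_det c).1 hc)
  have hCdet : C.det ≠ 0 := by
    rw [hCdef, Matrix.det_mul, Matrix.det_mul, Matrix.det_transpose]
    exact mul_ne_zero (mul_ne_zero hcdet hdet) hcdet
  have hff : ∀ b b', f b * f b' + f b' * f b = (2 * C b b') • 1 := by
    intro b b'
    have hfb : ∀ b, f b = tau t (fun a => c a b) := fun b => by rw [tau_apply]
    rw [hfb, hfb, tau_cliff K.cliff, bil_apply]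
    congr 2
    rw [hCdef, Matrix.mul_apply]
    simp only [Matrix.mul_apply, Matrix.transpose_apply, Finset.sum_mul]
    rw [Finset.sum_comm]
    refine Finset.sum_congr rfl fun j _ => Finset.sum_congr rfl fun i _ => ?_
    simp [rm, hGc]
  obtain ⟨k⟩ := (inferInstance : Nonempty κ)
  have hsingle : ∀ i j : κ, IsAlgebraic ℚ ((Pi.single i (1 : ℂ) : κ → ℂ) j) := by
    intro i j
    by_cases h : j = i
    · subst h; rw [Pi.single_eq_same]; exact isAlgebraic_one
    · rw [Pi.single_eq_of_ne h]; exact isAlgebraic_zero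
  have hCalg : ∀ b b', IsAlgebraic ℚ (C b b') := by
    intro b b'
    have h1 := congrFun (LinearMap.congr_fun (hff b b') (Pi.single k 1)) k
    rw [LinearMap.add_apply, Pi.add_apply, LinearMap.smul_apply, Pi.smul_apply, smul_eq_mul,
      Module.End.one_apply, Pi.single_eq_same, mul_one, Module.End.mul_apply,
      Module.End.mul_apply] at h1
    have h2 : IsAlgebraic ℚ (2 * C b b') := by
      rw [← h1]
      exact (beta_apply_alg (f b) (hcalg b) _ (fun i => beta_apply_alg (f b') (hcalg b') _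
        (hsingle k) i) k).add (beta_apply_alg (f b') (hcalg b') _
          (fun i => beta_apply_alg (f b) (hcalg b) _ (hsingle k) i) k)
    have h3 : C b b' = (2 : ℂ)⁻¹ * (2 * C b b') := by ring
    rw [h3]
    have h4 : IsAlgebraic ℚ (2 : ℂ) := by
      have := isAlgebraic_algebraMap (R := ℚ) (A := ℂ) 2
      simpa using this
    exact h4.inv.mul h2
  have hCu : IsUnit C.det := isUnit_iff_ne_zero.2 hCdet
  have hCinv : ∀ b b', IsAlgebraic ℚ (C⁻¹ b b') := by
    intro b b'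
    refine beta_alg_solve C hCalg hCdet (fun i => (1 : Matrix (Fin n) (Fin n) ℂ) i b')
      (fun l => C⁻¹ l b') ?_ ?_ b
    · intro i
      by_cases h : i = b'
      · subst h; rw [Matrix.one_apply_eq]; exact isAlgebraic_one
      · rw [Matrix.one_apply_ne h]; exact isAlgebraic_zero
    · intro i
      rw [← Matrix.mul_nonsing_inv C hCu, Matrix.mul_apply]
  have hH : H = c * C⁻¹ * cᵀ := by
    have hcu : IsUnit c.det := isUnit_iff_ne_zero.2 hcdet
    have hctu : IsUnit cᵀ.det := by rw [Matrix.det_transpose]; exact hcu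
    have h1 : Gc = (cᵀ)⁻¹ * C * c⁻¹ := by
      rw [hCdef]
      rw [Matrix.mul_assoc cᵀ Gc c, ← Matrix.mul_assoc (cᵀ)⁻¹ cᵀ, Matrix.nonsing_inv_mul _ hctu,
        Matrix.one_mul, Matrix.mul_assoc, Matrix.mul_nonsing_inv _ hcu, Matrix.mul_one]
    have h2 : Gc * (c * C⁻¹ * cᵀ) = 1 := by
      rw [h1]
      calc (cᵀ)⁻¹ * C * c⁻¹ * (c * C⁻¹ * cᵀ)
          = (cᵀ)⁻¹ * C * (c⁻¹ * c) * C⁻¹ * cᵀ := by simp only [Matrix.mul_assoc]
        _ = (cᵀ)⁻¹ * (C * C⁻¹) * cᵀ := by
            rw [Matrix.nonsing_inv_mul _ hcu, Matrix.mul_one]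
            simp only [Matrix.mul_assoc]
        _ = 1 := by
            rw [Matrix.mul_nonsing_inv _ hCu, Matrix.mul_one, Matrix.nonsing_inv_mul _ hctu]
    calc H = H * (Gc * (c * C⁻¹ * cᵀ)) := by rw [h2, Matrix.mul_one]
      _ = (H * Gc) * (c * C⁻¹ * cᵀ) := (Matrix.mul_assoc H Gc _).symm
      _ = c * C⁻¹ * cᵀ := by rw [hHG, Matrix.one_mul]
  refine ⟨c, C⁻¹, hcalg, hCinv, ?_⟩
  intro a b
  have h1 : ((G⁻¹ a b : ℚ) : ℂ) = H a b := rfl
  rw [h1, hH, Matrix.mul_apply]
  simp only [Matrix.mul_apply, Matrix.transpose_apply, Finset.sum_mul]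
  rw [Finset.sum_comm]

lemma pv_alg [Nonempty κ] {P : PData κ ϖ} {G : Matrix (Fin n) (Fin n) ℚ}
    (hnd : (bil (rm G)).Nondegenerate) {t : Fin n → Module.End ℂ (κ → ℂ)} (K : KSD P G t)
    (u v : κ → ℂ) (hu : ∀ i, IsAlgebraic ℚ (u i)) (hv : ∀ i, IsAlgebraic ℚ (v i)) (k l : κ) :
    IsAlgebraic ℚ (tau t (pv P G t u v) (Pi.single k 1) l) := by
  obtain ⟨c, D, hc, hD, hG⟩ := alg_decomp hnd K
  have h1 : tau t (pv P G t u v) (Pi.single k 1) l =
      ∑ a, ∑ b, (∑ e, ∑ e', c a e * D e e' * c b e') *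
        (P.ψ (t a u) v * t b (Pi.single k 1) l) := by
    rw [tau_apply, LinearMap.sum_apply, Finset.sum_apply, Finset.sum_comm]
    refine Finset.sum_congr rfl fun b _ => ?_
    rw [LinearMap.smul_apply, Pi.smul_apply, smul_eq_mul, pv_apply, Finset.sum_mul]
    refine Finset.sum_congr rfl fun a _ => ?_
    rw [hG a b]
    ring
  rw [h1, beta_reorder c D (fun a => P.ψ (t a u) v) (fun b => t b (Pi.single k 1) l)]
  refine isAlg_sum _ _ fun e _ => isAlg_sum _ _ fun e' _ => ?_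
  have h2 : ∑ a, c a e * P.ψ (t a u) v = P.ψ ((∑ a, c a e • t a) u) v := by
    simp only [LinearMap.sum_apply, map_sum, LinearMap.smul_apply, map_smul, smul_eq_mul]
  have h3 : ∑ b, c b e' * t b (Pi.single k 1) l = (∑ a, c a e' • t a) (Pi.single k 1) l := by
    simp only [LinearMap.sum_apply, Finset.sum_apply, LinearMap.smul_apply, Pi.smul_apply,
      smul_eq_mul]
  rw [h2, h3]
  exact (hD e e').mul ((psi_alg P.ψ P.hψalg _ _ (beta_apply_alg _ (hc e) _ hu) hv).mul
    (hc e' k l))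

end single

section family

variable {I : Type} [Fintype I] [DecidableEq I] {κ : I → Type}
  [∀ i, Fintype (κ i)] [∀ i, DecidableEq (κ i)] {ϖ : ℂ} {d : I → ℕ}

/-- the vectors attached to a pair, all components -/
noncomputable def pp (P : ∀ i, PData (κ i) ϖ) (G : ∀ i, Matrix (Fin (d i)) (Fin (d i)) ℚ)
    (t : ∀ i, Fin (d i) → Module.End ℂ (κ i → ℂ)) :
    HW κ (fun _ => 1) →ₗ[ℂ] HW κ (fun _ => 1) →ₗ[ℂ] ((i : I) → Fin (d i) → ℂ) :=
  LinearMap.mk₂ ℂ (fun w w' i => pv (P i) (G i) (t i) (w i 0) (w' i 0))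
    (by
      intro u u' v
      funext i
      simp only [Pi.add_apply, map_add, LinearMap.add_apply])
    (by
      intro c u v
      funext i
      simp only [Pi.smul_apply, map_smul, LinearMap.smul_apply])
    (by
      intro u v v'
      funext i
      simp only [Pi.add_apply, map_add])
    (by
      intro c u v
      funext i
      simp only [Pi.smul_apply, map_smul])

omit [Fintype I] [DecidableEq I] in
lemma pp_apply (P : ∀ i, PData (κ i) ϖ) (G : ∀ i, Matrix (Fin (d i)) (Fin (d i)) ℚ)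
    (t : ∀ i, Fin (d i) → Module.End ℂ (κ i → ℂ)) (w w' : HW κ (fun _ => 1)) (i : I) :
    pp P G t w w' i = pv (P i) (G i) (t i) (w i 0) (w' i 0) := rfl

lemma pp_span [∀ i, Nonempty (κ i)] (P : ∀ i, PData (κ i) ϖ)
    {G : ∀ i, Matrix (Fin (d i)) (Fin (d i)) ℚ} (hnd : ∀ i, (bil (rm (G i))).Nondegenerate)
    {t : ∀ i, Fin (d i) → Module.End ℂ (κ i → ℂ)} (K : ∀ i, KSD (P i) (G i) (t i)) :
    Submodule.span ℂ {y : (i : I) → Fin (d i) → ℂ | ∃ w w', pp P G t w w' = y} = ⊤ := by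
  rw [eq_top_iff]
  intro y _
  have h1 : y = ∑ i, (Pi.single i (y i) : (i : I) → Fin (d i) → ℂ) :=
    (Finset.univ_sum_single y).symm
  rw [h1]
  refine Submodule.sum_mem _ fun i _ => ?_
  have h2 : y i ∈ Submodule.span ℂ {y : Fin (d i) → ℂ | ∃ u v, pv (P i) (G i) (t i) u v = y} := by
    rw [pv_span (hnd i) (K i)]
    trivial
  have h3 : ∀ z ∈ Submodule.span ℂ {y : Fin (d i) → ℂ | ∃ u v, pv (P i) (G i) (t i) u v = y},
      (Pi.single i z : (i : I) → Fin (d i) → ℂ) ∈
        Submodule.span ℂ {y : (i : I) → Fin (d i) → ℂ | ∃ w w', pp P G t w w' = y} := by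
    intro z hz
    induction hz using Submodule.span_induction with
    | mem x hx =>
      obtain ⟨u, v, rfl⟩ := hx
      refine Submodule.subset_span ⟨Pi.single i (fun _ => u), Pi.single i (fun _ => v), ?_⟩
      funext i'
      rw [pp_apply]
      by_cases h : i' = i
      · subst h
        rw [Pi.single_eq_same, Pi.single_eq_same, Pi.single_eq_same]
      · rw [Pi.single_eq_of_ne h, Pi.single_eq_of_ne h, Pi.single_eq_of_ne h]
        simp
    | zero => rw [Pi.single_zero]; exact Submodule.zero_mem _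
    | add x y _ _ hx hy => rw [Pi.single_add]; exact Submodule.add_mem _ hx hy
    | smul a x _ hx => rw [Pi.single_smul]; exact Submodule.smul_mem _ _ hx
  exact h3 _ h2

end family

end TenA

theorem tensor_form {I : Type} [Fintype I] [DecidableEq I] {κ : I → Type}
    [∀ i, Fintype (κ i)] [∀ i, DecidableEq (κ i)] [∀ i, Nonempty (κ i)] {ϖ : ℂ}
    (P : ∀ i, PData (κ i) ϖ) {d : I → ℕ} {G : ∀ i, Matrix (Fin (d i)) (Fin (d i)) ℚ}
    (hG : ∀ i, (G i)ᵀ = G i) (hnd : ∀ i, (bil (rm (G i))).Nondegenerate)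
    {t : ∀ i, Fin (d i) → Module.End ℂ (κ i → ℂ)} (K : ∀ i, KSD (P i) (G i) (t i)) {j : ℕ}
    (F : MultilinearMap ℂ (fun _ : Fin j => (i : I) → Fin (d i) → ℂ) ℂ)
    (hFQ : ∀ v : Fin j → (i : I) → Fin (d i) → ℂ, (∀ r i a, ∃ c : ℚ, v r i a = c) →
      ∃ c : ℚ, F v = c)
    (hFA : ∀ v : Fin j → (i : I) → Fin (d i) → ℂ,
      (∀ r i a b, IsAlgebraic ℚ (tau (t i) (v r i) (Pi.single a 1) b)) → IsAlgebraic ℚ (F v)) :
    ∃ α : MultilinearMap ℂ (fun _ : Fin (2 * j) => HW κ (fun _ => 1)) ℂ,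
      (∀ v : Fin (2 * j) → HW κ (fun _ => 1), (∀ r, IsRatP (fun _ => 1) P (v r)) →
        ∃ q : ℚ, α v = ϖ ^ j * q) ∧
      (∀ v : Fin (2 * j) → HW κ (fun _ => 1), (∀ r i m j, IsAlgebraic ℚ (v r i m j)) →
        IsAlgebraic ℚ (α v)) ∧
      ∀ (i : I) (B : Module.End ℂ (κ i → ℂ)) (M : Module.End ℂ (Fin (d i) → ℂ)),
        Act (t i) B M → (∀ u v, (P i).ψ (B u) v + (P i).ψ u (B v) = 0) →
        Skw (bil (rm (G i))) M → actForm (lift (fun _ => 1) (Pi.single i B)) α = 0 →
        ∀ v : Fin j → (i : I) → Fin (d i) → ℂ,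
          ∑ r, F (Function.update v r (Pi.single i (M (v r i)))) = 0 := by
  refine ⟨TenA.pairForm F (TenA.pp P G t), ?_, ?_, ?_⟩
  · intro v hv
    have h1 : ∀ (r : Fin j) (i : I), ∃ z : Fin (d i) → ℚ, ∀ b,
        TenA.pv (P i) (G i) (t i) (v (TenA.ee j (r, 0)) i 0) (v (TenA.ee j (r, 1)) i 0) b =
          ϖ * z b := fun r i => TenA.pv_rat (K i) _ _ (hv _ i 0) (hv _ i 0)
    choose z hz using h1
    obtain ⟨c, hc⟩ := hFQ (fun r i b => (z r i b : ℂ)) (fun r i a => ⟨z r i a, rfl⟩)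
    refine ⟨c, ?_⟩
    rw [TenA.pairForm_apply]
    have h2 : (fun r => TenA.pp P G t (v (TenA.ee j (r, 0))) (v (TenA.ee j (r, 1)))) =
        fun r => ϖ • (fun i b => ((z r i b : ℚ) : ℂ)) := by
      funext r i b
      rw [TenA.pp_apply, hz]
      rfl
    rw [h2, F.map_smul_univ (fun _ => ϖ), hc, Finset.prod_const, Finset.card_univ,
      Fintype.card_fin, smul_eq_mul]
  · intro v hv
    rw [TenA.pairForm_apply]
    apply hFA
    intro r i a b
    exact TenA.pv_alg (hnd i) (K i) _ _ (fun k => hv _ i 0 k) (fun k => hv _ i 0 k) a b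
  · intro i B M hA hψ hM h v
    let N : Module.End ℂ ((i : I) → Fin (d i) → ℂ) :=
      (LinearMap.single ℂ (fun i => Fin (d i) → ℂ) i) ∘ₗ M ∘ₗ (LinearMap.proj i)
    have hN : ∀ y, N y = Pi.single i (M (y i)) := fun y => rfl
    have h1 := TenA.act_zero F (TenA.pp P G t) (lift (fun _ => 1) (Pi.single i B)) N (by
      intro x y
      funext i'
      rw [Pi.add_apply, TenA.pp_apply, TenA.pp_apply, hN, lift_apply, lift_apply]
      by_cases hi : i' = i
      · subst hi
        rw [Pi.single_eq_same, Pi.single_eq_same]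
        exact TenA.pv_act (hnd i') hA hψ hM _ _
      · rw [Pi.single_eq_of_ne hi, Pi.single_eq_of_ne hi]
        simp) (TenA.pp_span P hnd K) h
    have h2 := congrArg (fun f : MultilinearMap ℂ (fun _ : Fin j => (i : I) → Fin (d i) → ℂ) ℂ =>
      f v) h1
    simp only [actForm_apply] at h2
    exact h2

end Pool.Agent.KSP
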