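import Pool.Agent.KSP.Ideal

/-!
Module Goursat. Goursat's lemma for orthogonal Lie algebras.

Proof. For `S` a finset with `i ∉ S` let `𝔞 S = {A | ∃ X ∈ R, (∀ j ∈ S, X j = 0) ∧ X i = A}`, a
subspace of the skew operators, an ideal by `hpr` (lift `M` to `Y ∈ R`, `Y i = M`, and take the
bracket of `Y` and `X`). For `S = {j}` it is not zero by `hnl`, so it is everything by `ideal_top`.
Induction: if `𝔞 S` is everything and `j ∉ S`, `j ≠ i`, then `𝔞 (insert j S)` contains the brackets of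
elements of `𝔞 S` and of `𝔞 {j}`, that is all brackets of skew operators, and they are not all zero
(`d i ≥ 3`), so it is everything by `ideal_top`. Take `S = univ \ {i}`; `S = ∅` is `hpr`.
-/

namespace Pool.Agent.KSP

open Module Matrix Pool.Agent.KS

namespace Goursat

lemma skw_wed {V : Type} [AddCommGroup V] [Module ℂ V] (q : LinearMap.BilinForm ℂ V)
    (hs : ∀ x y, q x y = q y x) (x y : V) : Skw q (wed q x y) := by
  intro u v
  rw [wed_apply, wed_apply, map_sub, map_smul, map_smul, LinearMap.sub_apply,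
    LinearMap.smul_apply, LinearMap.smul_apply, map_sub, map_smul, map_smul]
  simp only [smul_eq_mul]
  rw [hs u x, hs u y]
  ring

/-- two skew operators which do not commute -/
lemma exists_noncomm {n : ℕ} (hn : 3 ≤ n) (q : LinearMap.BilinForm ℂ (Fin n → ℂ))
    (hs : ∀ x y, q x y = q y x) (hnd : q.Nondegenerate) :
    ∃ B C : Module.End ℂ (Fin n → ℂ), Skw q B ∧ Skw q C ∧ B * C - C * B ≠ 0 := by
  have : Invertible (2 : ℂ) := invertibleOfNonzero two_ne_zero
  have hsym : LinearMap.IsSymm q := ⟨fun x y => hs x y⟩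
  obtain ⟨v, hv⟩ := LinearMap.BilinForm.exists_orthogonal_basis hsym
  have hfr : finrank ℂ (Fin n → ℂ) = n := by simp
  have hg : ∀ a, q (v a) (v a) ≠ 0 := by
    intro a h
    exact hv.not_isOrtho_basis_self_of_separatingLeft hnd.1 a h
  have ho : ∀ a b, a ≠ b → q (v a) (v b) = 0 := fun a b hab => hv hab
  set a0 : Fin (finrank ℂ (Fin n → ℂ)) := ⟨0, by omega⟩ with ha0
  set a1 : Fin (finrank ℂ (Fin n → ℂ)) := ⟨1, by omega⟩ with ha1
  set a2 : Fin (finrank ℂ (Fin n → ℂ)) := ⟨2, by omega⟩ with ha2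
  have h01 : a0 ≠ a1 := by rw [ha0, ha1]; simp
  have h02 : a0 ≠ a2 := by rw [ha0, ha2]; simp
  have h12 : a1 ≠ a2 := by rw [ha1, ha2]; simp
  refine ⟨wed q (v a0) (v a1), wed q (v a0) (v a2), skw_wed q hs _ _, skw_wed q hs _ _, ?_⟩
  intro h
  have h2 := congrArg (fun f : Module.End ℂ (Fin n → ℂ) => f (v a2)) h
  simp only [LinearMap.sub_apply, Module.End.mul_apply, wed_apply, map_sub, map_smul,
    LinearMap.zero_apply] at h2
  rw [ho a0 a2 h02, ho a1 a2 h12, ho a1 a0 h01.symm] at h2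
  simp only [zero_smul, sub_zero, zero_sub, smul_neg, neg_eq_zero, smul_smul] at h2
  rcases smul_eq_zero.1 h2 with h3 | h3
  · exact mul_ne_zero (hg a2) (hg a0) h3
  · exact v.ne_zero a1 h3

section

variable {I : Type} (d : I → ℕ)
    (R : Submodule ℂ (∀ i, Module.End ℂ (Fin (d i) → ℂ)))

/-- the components at `i` of the elements of `R` vanishing on `S` -/
def comp (i : I) (S : Finset I) : Submodule ℂ (Module.End ℂ (Fin (d i) → ℂ)) where
  carrier := {A | ∃ X ∈ R, (∀ j ∈ S, X j = 0) ∧ X i = A}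
  add_mem' := by
    rintro A B ⟨X, hX, hX0, rfl⟩ ⟨Y, hY, hY0, rfl⟩
    exact ⟨X + Y, R.add_mem hX hY, fun j hj => by rw [Pi.add_apply, hX0 j hj, hY0 j hj, add_zero],
      rfl⟩
  zero_mem' := ⟨0, R.zero_mem, fun _ _ => rfl, rfl⟩
  smul_mem' := by
    rintro c A ⟨X, hX, hX0, rfl⟩
    exact ⟨c • X, R.smul_mem c hX, fun j hj => by rw [Pi.smul_apply, hX0 j hj, smul_zero], rfl⟩

lemma mem_comp {i : I} {S : Finset I} {A : Module.End ℂ (Fin (d i) → ℂ)} :
    A ∈ comp d R i S ↔ ∃ X ∈ R, (∀ j ∈ S, X j = 0) ∧ X i = A := Iff.rfl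

end

end Goursat

open Goursat in
theorem goursat {I : Type} [Fintype I] [DecidableEq I] (d : I → ℕ)
    (hd : ∀ i, d i = 3 ∨ 5 ≤ d i) (q : ∀ i, LinearMap.BilinForm ℂ (Fin (d i) → ℂ))
    (hs : ∀ i x y, q i x y = q i y x) (hnd : ∀ i, (q i).Nondegenerate)
    (R : Submodule ℂ (∀ i, Module.End ℂ (Fin (d i) → ℂ)))
    (hbr : ∀ X ∈ R, ∀ Y ∈ R, X * Y - Y * X ∈ R) (hsk : ∀ X ∈ R, ∀ i, Skw (q i) (X i))
    (hpr : ∀ i A, Skw (q i) A → ∃ X ∈ R, X i = A)
    (hnl : ∀ i j, i ≠ j → ∃ X ∈ R, X j = 0 ∧ X i ≠ 0)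
    (i : I) (A : Module.End ℂ (Fin (d i) → ℂ)) (hA : Skw (q i) A) : Pi.single i A ∈ R := by
  have top : ∀ (S : Finset I), (∃ B ∈ comp d R i S, B ≠ 0) →
      ∀ M, Skw (q i) M → M ∈ comp d R i S := by
    rintro S ⟨B, hB, hB0⟩ M hM
    refine ideal_top (hd i) (q i) (hs i) (hnd i) (comp d R i S) ?_ ?_ B hB hB0 M hM
    · rintro A ⟨X, hX, -, rfl⟩
      exact hsk X hX i
    · rintro A ⟨X, hX, hX0, rfl⟩ N hN
      obtain ⟨Y, hY, rfl⟩ := hpr i N hN
      refine ⟨Y * X - X * Y, hbr Y hY X hX, fun j hj => ?_, rfl⟩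
      rw [Pi.sub_apply, Pi.mul_apply, Pi.mul_apply, hX0 j hj, mul_zero, zero_mul, sub_zero]
  have key : ∀ S : Finset I, i ∉ S → ∀ M, Skw (q i) M → M ∈ comp d R i S := by
    intro S
    induction S using Finset.induction_on with
    | empty =>
      intro _ M hM
      obtain ⟨X, hX, rfl⟩ := hpr i M hM
      exact ⟨X, hX, fun j hj => absurd hj (Finset.notMem_empty j), rfl⟩
    | insert j S hj ih =>
      intro hi
      have hij : i ≠ j := fun h => hi (h ▸ Finset.mem_insert_self _ _)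
      have hiS : i ∉ S := fun h => hi (Finset.mem_insert_of_mem h)
      apply top
      obtain ⟨B, C, hB, hC, hBC⟩ := exists_noncomm
        (by rcases hd i with h | h <;> omega) (q i) (hs i) (hnd i)
      obtain ⟨X, hX, hX0, rfl⟩ := ih hiS B hB
      have h1 : ∃ D ∈ comp d R i {j}, D ≠ 0 := by
        obtain ⟨Z, hZ, hZ0, hZi⟩ := hnl i j hij
        exact ⟨Z i, ⟨Z, hZ, fun k hk => by rw [Finset.mem_singleton] at hk; subst hk; exact hZ0,
          rfl⟩, hZi⟩
      obtain ⟨Y, hY, hY0, rfl⟩ := top {j} h1 C hC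
      refine ⟨X i * Y i - Y i * X i, ⟨X * Y - Y * X, hbr X hX Y hY, fun k hk => ?_, rfl⟩, hBC⟩
      rcases Finset.mem_insert.1 hk with rfl | hk
      · rw [Pi.sub_apply, Pi.mul_apply, Pi.mul_apply, hY0 k (Finset.mem_singleton_self k),
          mul_zero, zero_mul, sub_zero]
      · rw [Pi.sub_apply, Pi.mul_apply, Pi.mul_apply, hX0 k hk, mul_zero, zero_mul, sub_zero]
  obtain ⟨X, hX, hX0, hXi⟩ := key (Finset.univ.erase i) (Finset.notMem_erase i _) A hA
  have : Pi.single i A = X := by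
    funext k
    by_cases hk : k = i
    · subst hk
      rw [Pi.single_eq_same, hXi]
    · rw [Pi.single_eq_of_ne hk, hX0 k (Finset.mem_erase.2 ⟨hk, Finset.mem_univ k⟩)]
  rw [this]
  exact hX

end Pool.Agent.KSP
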