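import Pool.Agent.KSP.Defs
import Pool.Agent.KS.Witt

/-!
Module LinkHyp. Under an isomorphism of real orthogonal Lie algebras of signature `(2, n - 2)` a
hyperbolic element of rank two goes to a hyperbolic element of rank two.

Proof. There are real `e, f` with `G e e = G f f = 0`, `G e f = 1` (the signature). Let
`w = wed (bil G) (cx e) (cx f)` and `(w, D) ∈ R` (`hpr`). `w` commutes with `star`, so by `hconj` and
`hl` `D (star v) = star (D v)`. For `Y` skew `⁅w, ⁅w, ⁅w, Y⁆⁆⁆ = ⁅w, Y⁆`, so, by `hl` and `hpr'`, the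
same holds for `D`.

Let `v` be an eigenvector of `D` of the eigenvalue `l`. Applying the identity to `wed u v` one gets
that `(D + l) ^ 3 u - (D + l) u` is a multiple of `v` for all `u`. If `l = 0` then `D ^ 3 - D` is skew
with values in the line of `v`, so it is zero. If `l ≠ 0` there is an eigenvector `v'` of `- l`, and
modulo the span of `v` and `v'` one has `3 D ^ 2 = 1 - l ^ 2`, `D ^ 3 = (1 - 3 l ^ 2) D`, hence
`(8 l ^ 2 - 2) D = 0`; so either the rank of `D` is at most two, and `0` is an eigenvalue, or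
`l ^ 2 = 1 / 4`, and then `D ^ 2 = 1 / 4`. In the last case `witt` gives that the rank of `D` is at
most four, so `0` is an eigenvalue again (`n' = 3` or `6 ≤ n'`). So always `D ^ 3 = D`, and `witt`
gives the result.
-/

namespace Pool.Agent.KSP

open Module Matrix Pool.Agent.KS

namespace LinkHyp

section alg

variable {V : Type} [AddCommGroup V] [Module ℂ V] {q : LinearMap.BilinForm ℂ V}

/-- the commutator -/
def cm (X Y : Module.End ℂ V) : Module.End ℂ V := X * Y - Y * X

lemma cm_add (D X Y : Module.End ℂ V) : cm D (X + Y) = cm D X + cm D Y := by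
  unfold cm
  noncomm_ring

lemma wed_skw (hs : ∀ u v, q u v = q v u) (u v : V) : Skw q (wed q u v) := by
  intro x y
  rw [wed_apply, wed_apply]
  simp only [map_sub, map_smul, LinearMap.sub_apply, LinearMap.smul_apply, smul_eq_mul]
  rw [hs x u, hs x v]
  ring

lemma cm_wed {D : Module.End ℂ V} (hD : Skw q D) (u v : V) :
    cm D (wed q u v) = wed q (D u) v + wed q u (D v) := by
  apply LinearMap.ext
  intro z
  have h1 : q v (D z) = - q (D v) z := by
    have := hD v z
    linear_combination this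
  have h2 : q u (D z) = - q (D u) z := by
    have := hD u z
    linear_combination this
  simp only [cm, LinearMap.sub_apply, LinearMap.add_apply, Module.End.mul_apply, wed_apply, map_sub,
    map_smul, h1, h2]
  module

/-- the cubic relation of a hyperbolic element -/
lemma wed_cube (hs : ∀ u v, q u v = q v u) {e f : V} (he : q e e = 0) (hf : q f f = 0)
    (hef : q e f = 1) {Y : Module.End ℂ V} (hY : Skw q Y) :
    cm (wed q e f) (cm (wed q e f) (cm (wed q e f) Y)) = cm (wed q e f) Y := by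
  have hfe : q f e = 1 := by rw [hs, hef]
  have h1 : q e (Y e) = 0 := by
    have h := hY e e
    rw [hs (Y e) e] at h
    linear_combination h / 2
  have h2 : q f (Y f) = 0 := by
    have h := hY f f
    rw [hs (Y f) f] at h
    linear_combination h / 2
  apply LinearMap.ext
  intro z
  simp only [cm, LinearMap.sub_apply, Module.End.mul_apply, wed_apply, map_sub, map_smul, he, hf,
    hef, hfe, h1, h2]
  module

/-- the identity for `wed u v` -/
lemma key {D : Module.End ℂ V} (hs : ∀ u v, q u v = q v u) (hD : Skw q D)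
    (hc : ∀ Y, Skw q Y → cm D (cm D (cm D Y)) = cm D Y) (u v : V) :
    wed q (D (D (D u))) v + (3 : ℂ) • wed q (D (D u)) (D v) + (3 : ℂ) • wed q (D u) (D (D v)) +
      wed q u (D (D (D v))) = wed q (D u) v + wed q u (D v) := by
  have h := hc _ (wed_skw hs u v)
  simp only [cm_wed hD, cm_add] at h
  rw [← h]
  module

lemma eig {D : Module.End ℂ V} (hs : ∀ u v, q u v = q v u) (hnd : ∀ v, v ≠ 0 → ∃ z, q v z = 1)
    (hD : Skw q D) (hc : ∀ Y, Skw q Y → cm D (cm D (cm D Y)) = cm D Y) {v : V} (hv : v ≠ 0) {l : ℂ}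
    (hl : D v = l • v) (u : V) :
    ∃ c : ℂ, D (D (D u)) + (3 * l) • D (D u) + (3 * l ^ 2 - 1) • D u + (l ^ 3 - l) • u = c • v := by
  obtain ⟨z, hz⟩ := hnd v hv
  have h := LinearMap.congr_fun (key hs hD hc u v) z
  simp only [LinearMap.add_apply, LinearMap.smul_apply, wed_apply, hl, map_smul, smul_eq_mul,
    hz] at h
  refine ⟨q (D (D (D u))) z + 3 * l * q (D (D u)) z + (3 * l ^ 2 - 1) * q (D u) z +
    (l ^ 3 - l) * q u z, ?_⟩
  linear_combination (norm := module) h

/-- with a kernel the operator is a root of `x ^ 3 - x` -/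
lemma cube {D : Module.End ℂ V} (hs : ∀ u v, q u v = q v u) (hnd : ∀ v, v ≠ 0 → ∃ z, q v z = 1)
    (hD : Skw q D) (hc : ∀ Y, Skw q Y → cm D (cm D (cm D Y)) = cm D Y) {v : V} (hv : v ≠ 0)
    (hl : D v = 0) (u : V) : D (D (D u)) = D u := by
  have hsk : ∀ x y, q (D (D (D x)) - D x) y + q x (D (D (D y)) - D y) = 0 := by
    intro x y
    have h1 := hD (D (D x)) y
    have h2 := hD (D x) (D y)
    have h3 := hD x (D (D y))
    have h4 := hD x y
    simp only [map_sub, LinearMap.sub_apply]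
    linear_combination h1 - h2 + h3 - h4
  have hmul : ∀ x, ∃ c : ℂ, D (D (D x)) - D x = c • v := by
    intro x
    obtain ⟨c, h⟩ := eig hs hnd hD hc hv (l := 0) (by rw [hl, zero_smul]) x
    refine ⟨c, ?_⟩
    rw [← h]
    module
  have hz : ∀ x, q v x ≠ 0 → D (D (D x)) - D x = 0 := by
    intro x hx
    obtain ⟨c, h⟩ := hmul x
    have h1 := hsk x x
    rw [hs x, h, map_smul, LinearMap.smul_apply, smul_eq_mul] at h1
    have h2 : c * q v x = 0 := by linear_combination h1 / 2
    rcases mul_eq_zero.1 h2 with h3 | h3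
    · rw [h, h3, zero_smul]
    · exact absurd h3 hx
  obtain ⟨z, hzz⟩ := hnd v hv
  by_cases hu : q v u = 0
  · have h1 := hz (u + z) (by rw [map_add, hu, hzz]; simp)
    have h2 := hz z (by rw [hzz]; exact one_ne_zero)
    simp only [map_add] at h1
    have h3 : D (D (D u)) - D u = 0 := by
      linear_combination (norm := module) h1 - h2
    exact sub_eq_zero.1 h3
  · exact sub_eq_zero.1 (hz u hu)

/-- the eigenvalues are symmetric -/
lemma neg_eig [FiniteDimensional ℂ V] {D : Module.End ℂ V} (hnd : ∀ v, v ≠ 0 → ∃ z, q v z = 1)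
    (hD : Skw q D) {v : V} (hv : v ≠ 0) {l : ℂ} (hl : D v = l • v) :
    ∃ v', v' ≠ 0 ∧ D v' = (-l) • v' := by
  by_contra hcon
  push Not at hcon
  have hinj : Function.Injective (D + l • (1 : Module.End ℂ V)) := by
    rw [injective_iff_map_eq_zero]
    intro x hx
    by_contra hx0
    apply hcon x hx0
    rw [LinearMap.add_apply, LinearMap.smul_apply, Module.End.one_apply] at hx
    rw [neg_smul]
    exact eq_neg_of_add_eq_zero_left hx
  have hsur := LinearMap.injective_iff_surjective.1 hinj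
  obtain ⟨z, hz⟩ := hnd v hv
  obtain ⟨y, rfl⟩ := hsur z
  rw [LinearMap.add_apply, LinearMap.smul_apply, Module.End.one_apply, map_add, map_smul,
    smul_eq_mul] at hz
  have h := hD v y
  rw [hl, map_smul, LinearMap.smul_apply, smul_eq_mul] at h
  have : (0 : ℂ) = 1 := by linear_combination hz - h
  exact zero_ne_one this

/-- two eigenvectors of opposite eigenvalues are independent -/
lemma indep {D : Module.End ℂ V} {v v' : V} (hv : v ≠ 0) (hv' : v' ≠ 0) {l : ℂ} (hl0 : l ≠ 0)
    (hl : D v = l • v) (hl' : D v' = (-l) • v') {a b : ℂ} (h : a • v + b • v' = 0) :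
    a = 0 ∧ b = 0 := by
  have h1 : D (a • v + b • v') = 0 := by rw [h, map_zero]
  rw [map_add, map_smul, map_smul, hl, hl'] at h1
  have h2 : (2 * l * a) • v = 0 := by
    linear_combination (norm := module) h1 + l • h
  have h3 : (2 * l * b) • v' = 0 := by
    linear_combination (norm := module) l • h - h1
  have h2l : 2 * l ≠ 0 := mul_ne_zero two_ne_zero hl0
  constructor
  · rcases smul_eq_zero.1 h2 with h4 | h4
    · exact (mul_eq_zero.1 h4).resolve_left h2l
    · exact absurd h4 hv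
  · rcases smul_eq_zero.1 h3 with h4 | h4
    · exact (mul_eq_zero.1 h4).resolve_left h2l
    · exact absurd h4 hv'

theorem dich [FiniteDimensional ℂ V] {D : Module.End ℂ V} (hs : ∀ u v, q u v = q v u)
    (hnd : ∀ v, v ≠ 0 → ∃ z, q v z = 1) (h3 : 3 ≤ finrank ℂ V)
    (hD : Skw q D) (hc : ∀ Y, Skw q Y → cm D (cm D (cm D Y)) = cm D Y) :
    (∃ v, v ≠ 0 ∧ D v = 0) ∨ ∀ u, D (D u) = (1 / 4 : ℂ) • u := by
  have : Nontrivial V := by
    apply Module.nontrivial_of_finrank_pos (R := ℂ)
    omega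
  obtain ⟨l, hl⟩ := Module.End.exists_eigenvalue D
  obtain ⟨v, hv1, hv⟩ := hl.exists_hasEigenvector
  replace hv1 := Module.End.mem_eigenspace_iff.1 hv1
  by_cases hl0 : l = 0
  · left
    refine ⟨v, hv, ?_⟩
    rw [hv1, hl0, zero_smul]
  obtain ⟨v', hv', hv1'⟩ := neg_eig hnd hD hv hv1
  have hp := eig hs hnd hD hc hv hv1
  have hp' := eig hs hnd hD hc hv' hv1'
  have hq : ∀ u, ∃ a b : ℂ, (3 : ℂ) • D (D u) + (l ^ 2 - 1) • u = a • v + b • v' := by
    intro u
    obtain ⟨c, h⟩ := hp u
    obtain ⟨c', h'⟩ := hp' u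
    refine ⟨c / (2 * l), - c' / (2 * l), ?_⟩
    have h2l : 2 * l ≠ 0 := mul_ne_zero two_ne_zero hl0
    have e1 : (2 * l) • ((3 : ℂ) • D (D u) + (l ^ 2 - 1) • u -
        ((c / (2 * l)) • v + (- c' / (2 * l)) • v')) = 0 := by
      have e2 : (2 * l) • ((c / (2 * l)) • v + (- c' / (2 * l)) • v') = c • v - c' • v' := by
        rw [smul_add, smul_smul, smul_smul, mul_div_cancel₀ _ h2l, mul_div_cancel₀ _ h2l, neg_smul]
        abel
      rw [smul_sub, e2]
      linear_combination (norm := module) h - h'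
    rcases smul_eq_zero.1 e1 with e3 | e3
    · exact absurd e3 h2l
    · exact sub_eq_zero.1 e3
  have hr : ∀ u, ∃ a b : ℂ, (8 * l ^ 2 - 2) • D u = a • v + b • v' := by
    intro u
    obtain ⟨c, h⟩ := hp u
    obtain ⟨c', h'⟩ := hp' u
    obtain ⟨a, b, h''⟩ := hq u
    have h4 := congrArg D h''
    rw [map_add, map_add, map_smul, map_smul, map_smul, map_smul, hv1, hv1'] at h4
    refine ⟨3 / 2 * c - a * l, 3 / 2 * c' + b * l, ?_⟩
    linear_combination (norm := module) (3 / 2 : ℂ) • h + (3 / 2 : ℂ) • h' - h4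
  by_cases hl4 : 8 * l ^ 2 - 2 = 0
  · right
    have hl5 : l ^ 2 = 1 / 4 := by linear_combination hl4 / 8
    intro u
    obtain ⟨a, b, h⟩ := hq u
    obtain ⟨c, h1⟩ := hp u
    obtain ⟨c', h1'⟩ := hp' u
    have h4 := congrArg D h
    rw [map_add, map_add, map_smul, map_smul, map_smul, map_smul, hv1, hv1'] at h4
    -- `3 (D + 3 l) E u`
    have e1 : (4 * l * a - 3 * c) • v + (2 * l * b) • v' = 0 := by
      have e2 : (3 * l ^ 2 - 1 : ℂ) = - 1 / 4 := by rw [hl5]; norm_num
      have e3 : (l ^ 3 - l : ℂ) = (- 3 / 4) * l := by linear_combination l * hl5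
      have e4 : (l ^ 2 - 1 : ℂ) = - 3 / 4 := by rw [hl5]; norm_num
      rw [e2, e3] at h1
      rw [e4] at h h4
      linear_combination (norm := module) (3 : ℂ) • h1 - h4 - (3 * l) • h
    have e1' : (- 2 * l * a) • v + (- 4 * l * b - 3 * c') • v' = 0 := by
      have e2 : (3 * (-l) ^ 2 - 1 : ℂ) = - 1 / 4 := by
        have : (-l) ^ 2 = 1 / 4 := by rw [neg_sq, hl5]
        rw [this]; norm_num
      have e3 : ((-l) ^ 3 - -l : ℂ) = (3 / 4) * l := by linear_combination - l * hl5
      have e4 : (l ^ 2 - 1 : ℂ) = - 3 / 4 := by rw [hl5]; norm_num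
      rw [e2, e3] at h1'
      rw [e4] at h h4
      linear_combination (norm := module) (3 : ℂ) • h1' - h4 + (3 * l) • h
    have hb := (indep hv hv' hl0 hv1 hv1' e1).2
    have ha := (indep hv hv' hl0 hv1 hv1' e1').1
    have hb0 : b = 0 := by
      rcases mul_eq_zero.1 hb with h5 | h5
      · exact absurd h5 (mul_ne_zero two_ne_zero hl0)
      · exact h5
    have ha0 : a = 0 := by
      rcases mul_eq_zero.1 ha with h5 | h5
      · exact absurd h5 (mul_ne_zero (neg_ne_zero.2 two_ne_zero) hl0)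
      · exact h5
    rw [ha0, hb0, hl5] at h
    linear_combination (norm := module) (1 / 3 : ℂ) • h
  · left
    have hr' : ∀ u, D u ∈ Submodule.span ℂ ({v, v'} : Set V) := by
      intro u
      obtain ⟨a, b, h⟩ := hr u
      rw [Submodule.mem_span_pair]
      refine ⟨(8 * l ^ 2 - 2)⁻¹ * a, (8 * l ^ 2 - 2)⁻¹ * b, ?_⟩
      rw [mul_smul, mul_smul, ← smul_add, ← h, smul_smul, inv_mul_cancel₀ hl4, one_smul]
    have hle : LinearMap.range D ≤ Submodule.span ℂ ({v, v'} : Set V) := by
      rintro _ ⟨u, rfl⟩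
      exact hr' u
    have h5 := Submodule.finrank_mono hle
    have h6 : finrank ℂ (Submodule.span ℂ ({v, v'} : Set V)) ≤ 2 := by
      classical
      have h9 := finrank_span_finset_le_card (R := ℂ) ({v, v'} : Finset V)
      rw [Finset.coe_insert, Finset.coe_singleton] at h9
      exact h9.trans Finset.card_le_two
    have h7 := LinearMap.finrank_range_add_finrank_ker D
    have h8 : LinearMap.ker D ≠ ⊥ := by
      intro h
      rw [h, finrank_bot] at h7
      omega
    obtain ⟨x, hx, hx0⟩ := Submodule.exists_mem_ne_zero_of_ne_bot h8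
    exact ⟨x, hx0, LinearMap.mem_ker.1 hx⟩

end alg

section real

open WittAux

variable {n : ℕ}

/-- a real hyperbolic pair -/
lemma hyp_pair {G : Matrix (Fin n) (Fin n) ℝ} (hG : Gᵀ = G) {x y : Fin n → ℝ}
    (hx : 0 < wbil G x x) (hy : wbil G y y < 0) :
    ∃ e f : Fin n → ℝ, e ⬝ᵥ (G *ᵥ e) = 0 ∧ f ⬝ᵥ (G *ᵥ f) = 0 ∧ e ⬝ᵥ (G *ᵥ f) = 1 := by
  have hyx : wbil G y x = wbil G x y := wbil_symm G hG y x
  simp only [← wbil_apply]
  generalize hA : wbil G x x = A at *
  generalize hB : wbil G x y = B at *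
  generalize hC : wbil G y y = C at *
  have hdis : 0 < B ^ 2 - A * C := by nlinarith [mul_pos hx (neg_pos.2 hy), sq_nonneg B]
  obtain ⟨s, hs0, hs⟩ : ∃ s : ℝ, s ≠ 0 ∧ s ^ 2 = B ^ 2 - A * C :=
    ⟨Real.sqrt (B ^ 2 - A * C), (Real.sqrt_pos.2 hdis).ne', Real.sq_sqrt hdis.le⟩
  have hE : wbil G ((s - B) • x + A • y) ((s - B) • x + A • y) = 0 := by
    simp only [map_add, map_smul, LinearMap.add_apply, LinearMap.smul_apply, smul_eq_mul, hA, hB,
      hC, hyx]
    linear_combination A * hs
  have hF : wbil G ((-s - B) • x + A • y) ((-s - B) • x + A • y) = 0 := by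
    simp only [map_add, map_smul, LinearMap.add_apply, LinearMap.smul_apply, smul_eq_mul, hA, hB,
      hC, hyx]
    linear_combination A * hs
  have hEF : wbil G ((s - B) • x + A • y) ((-s - B) • x + A • y) = - 2 * A * s ^ 2 := by
    simp only [map_add, map_smul, LinearMap.add_apply, LinearMap.smul_apply, smul_eq_mul, hA, hB,
      hC, hyx]
    linear_combination A * hs
  have hne : - 2 * A * s ^ 2 ≠ 0 :=
    mul_ne_zero (mul_ne_zero (by norm_num) hx.ne') (pow_ne_zero 2 hs0)
  refine ⟨(s - B) • x + A • y, (- 2 * A * s ^ 2)⁻¹ • ((-s - B) • x + A • y), hE, ?_, ?_⟩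
  · rw [LinearMap.map_smul₂, map_smul, hF, smul_zero, smul_zero]
  · rw [map_smul, hEF, smul_eq_mul, inv_mul_cancel₀ hne]

lemma sig_pair {G : Matrix (Fin n) (Fin n) ℝ} (hn : 3 ≤ n) (h : Sig2 G) :
    ∃ x y : Fin n → ℝ, 0 < wbil G x x ∧ wbil G y y < 0 := by
  obtain ⟨W, W', h1, h2, h3, h4⟩ := h
  have hW : W ≠ ⊥ := by
    rintro rfl
    rw [finrank_bot] at h1
    omega
  have hW' : W' ≠ ⊥ := by
    rintro rfl
    rw [finrank_bot] at h2
    omega
  obtain ⟨x, hx, hx0⟩ := Submodule.exists_mem_ne_zero_of_ne_bot hW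
  obtain ⟨y, hy, hy0⟩ := Submodule.exists_mem_ne_zero_of_ne_bot hW'
  refine ⟨x, y, ?_, ?_⟩
  · rw [wbil_apply]
    exact h3 x hx hx0
  · rw [wbil_apply]
    exact h4 y hy hy0

lemma wbil_neg (G : Matrix (Fin n) (Fin n) ℝ) (x y : Fin n → ℝ) :
    wbil (-G) x y = - wbil G x y := by
  rw [wbil_apply, wbil_apply, Matrix.neg_mulVec, dotProduct_neg]

lemma bil_neg (G : Matrix (Fin n) (Fin n) ℝ) : bil (-G) = - bil G := by
  apply LinearMap.ext
  intro x
  apply LinearMap.ext
  intro y
  rw [LinearMap.neg_apply, LinearMap.neg_apply, bil_apply, bil_apply, ← Finset.sum_neg_distrib]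
  refine Finset.sum_congr rfl fun i _ => ?_
  rw [← Finset.sum_neg_distrib]
  refine Finset.sum_congr rfl fun j _ => ?_
  rw [Matrix.neg_apply]
  push_cast
  ring

lemma exists_pair {G : Matrix (Fin n) (Fin n) ℝ} (hG : Gᵀ = G) (hn : 3 ≤ n)
    (h : Sig2 G ∨ Sig2 (-G)) :
    ∃ e f : Fin n → ℝ, e ⬝ᵥ (G *ᵥ e) = 0 ∧ f ⬝ᵥ (G *ᵥ f) = 0 ∧ e ⬝ᵥ (G *ᵥ f) = 1 := by
  rcases h with h | h
  · obtain ⟨x, y, hx, hy⟩ := sig_pair hn h
    exact hyp_pair hG hx hy
  · obtain ⟨x, y, hx, hy⟩ := sig_pair hn h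
    rw [wbil_neg] at hx hy
    exact hyp_pair hG (x := y) (y := x) (by linarith) (by linarith)

lemma exists_common {V : Type} [AddCommGroup V] [Module ℂ V] [FiniteDimensional ℂ V] {k : ℕ}
    (φ : Fin k → (V →ₗ[ℂ] ℂ)) (hk : k < finrank ℂ V) : ∃ x : V, x ≠ 0 ∧ ∀ i, φ i x = 0 := by
  have h : LinearMap.ker (LinearMap.pi φ) ≠ ⊥ := by
    apply LinearMap.ker_ne_bot_of_finrank_lt
    rw [Module.finrank_fin_fun]
    exact hk
  obtain ⟨x, hx, hx0⟩ := Submodule.exists_mem_ne_zero_of_ne_bot h
  refine ⟨x, hx0, fun i => ?_⟩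
  have := congrFun (LinearMap.mem_ker.1 hx) i
  simpa using this

lemma real_form {G : Matrix (Fin n) (Fin n) ℝ} (hG : Gᵀ = G) (h : Sig2 G) (hn : n = 3 ∨ 6 ≤ n)
    {D : Module.End ℂ (Fin n → ℂ)} (hD0 : D ≠ 0) (hD : Skw (bil G) D)
    (hc : ∀ Y, Skw (bil G) Y → cm D (cm D (cm D Y)) = cm D Y)
    (hstar : ∀ v, D (star v) = star (D v)) :
    ∃ e f : Fin n → ℝ, e ⬝ᵥ (G *ᵥ e) = 0 ∧ f ⬝ᵥ (G *ᵥ f) = 0 ∧ e ⬝ᵥ (G *ᵥ f) = 1 ∧
      D = wed (bil G) (cx e) (cx f) := by
  have hs : ∀ u v, bil G u v = bil G v u := bil_symm hG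
  have hnd : ∀ v, v ≠ 0 → ∃ z, bil G v z = 1 := by
    intro v hv
    by_contra hcon
    push Not at hcon
    apply hv
    apply (sig2_nondeg G hG h).1
    intro z
    by_contra hz
    apply hcon ((bil G v z)⁻¹ • z)
    rw [map_smul, smul_eq_mul, inv_mul_cancel₀ hz]
  have hfr : finrank ℂ (Fin n → ℂ) = n := Module.finrank_fin_fun ℂ
  have h3 : 3 ≤ finrank ℂ (Fin n → ℂ) := by
    rw [hfr]
    omega
  -- a kernel
  have hker : ∃ v, v ≠ 0 ∧ D v = 0 := by
    rcases dich hs hnd h3 hD hc with h4 | h4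
    · exact h4
    have hBd : ∀ v, v ∈ Submodule.span ℂ {w | ∃ r : ℝ, D w = (r : ℂ) • w} := by
      intro v
      have h5 : v = ((1 / 2 : ℂ) • v + D v) + ((1 / 2 : ℂ) • v - D v) := by module
      rw [h5]
      refine Submodule.add_mem _ (Submodule.subset_span ⟨1 / 2, ?_⟩)
        (Submodule.subset_span ⟨-1 / 2, ?_⟩)
      · rw [map_add, map_smul, h4]
        push_cast
        module
      · rw [map_sub, map_smul, h4]
        push_cast
        module
    rcases witt G hG h D hD0 hD hstar hBd with ⟨e, f, a, -, -, -, -, hDe⟩ |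
      ⟨e1, e2, f1, f2, a, b, h11, h12, h22, g11, g12, g22, k11, k12, k21, k22, -, -, -, hDe⟩
    · obtain ⟨x, hx0, hx⟩ := exists_common ![bil G (cx e), bil G (cx f)] (by omega)
      refine ⟨x, hx0, ?_⟩
      have hx1 : bil G (cx e) x = 0 := hx 0
      have hx2 : bil G (cx f) x = 0 := hx 1
      rw [hDe, LinearMap.smul_apply, wed_apply, hx1, hx2, zero_smul, zero_smul, sub_zero,
        smul_zero]
    · rcases hn with hn | hn
      · exfalso
        subst hn
        have hli : LinearIndependent ℝ ![e1, e2, f1, f2] := by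
          rw [Fintype.linearIndependent_iff]
          intro g hg
          rw [Fin.sum_univ_four] at hg
          simp only [Matrix.cons_val_zero, Matrix.cons_val_one, Matrix.cons_val] at hg
          have w1 := congrArg (fun x => wbil G x e1) hg
          have w2 := congrArg (fun x => wbil G x e2) hg
          have w3 := congrArg (fun x => wbil G x f1) hg
          have w4 := congrArg (fun x => wbil G x f2) hg
          rw [← wbil_apply] at h11 h12 h22 g11 g12 g22 k11 k12 k21 k22
          have h21 : wbil G e2 e1 = 0 := by rw [wbil_symm G hG, h12]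
          have g21 : wbil G f2 f1 = 0 := by rw [wbil_symm G hG, g12]
          have m11 : wbil G f1 e1 = 1 := by rw [wbil_symm G hG, k11]
          have m12 : wbil G f1 e2 = 0 := by rw [wbil_symm G hG, k21]
          have m21 : wbil G f2 e1 = 0 := by rw [wbil_symm G hG, k12]
          have m22 : wbil G f2 e2 = 1 := by rw [wbil_symm G hG, k22]
          simp only [map_add, map_smul, LinearMap.add_apply, LinearMap.smul_apply, smul_eq_mul,
            h11, h12, h22, g11, g12, g22, k11, k12, k21, k22, h21, g21, m11, m12, m21, m22,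
            map_zero, LinearMap.zero_apply, mul_zero, mul_one, zero_add, add_zero] at w1 w2 w3 w4
          intro i
          fin_cases i
          · exact w3
          · exact w4
          · exact w1
          · exact w2
        have := hli.fintype_card_le_finrank
        rw [Fintype.card_fin, Module.finrank_fin_fun] at this
        omega
      · obtain ⟨x, hx0, hx⟩ := exists_common ![bil G (cx e1), bil G (cx e2), bil G (cx f1),
          bil G (cx f2)] (by omega)
        refine ⟨x, hx0, ?_⟩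
        have hx1 : bil G (cx e1) x = 0 := hx 0
        have hx2 : bil G (cx e2) x = 0 := hx 1
        have hx3 : bil G (cx f1) x = 0 := hx 2
        have hx4 : bil G (cx f2) x = 0 := hx 3
        rw [hDe, LinearMap.add_apply, LinearMap.smul_apply, LinearMap.smul_apply, wed_apply,
          wed_apply, hx1, hx2, hx3, hx4]
        simp
  obtain ⟨v0, hv0, hDv0⟩ := hker
  have hcube := cube hs hnd hD hc hv0 hDv0
  have hBd : ∀ v, v ∈ Submodule.span ℂ {w | ∃ r : ℝ, D w = (r : ℂ) • w} := by
    intro v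
    have h5 : v = (v - D (D v)) + (1 / 2 : ℂ) • (D (D v) + D v) +
        (1 / 2 : ℂ) • (D (D v) - D v) := by module
    rw [h5]
    refine Submodule.add_mem _ (Submodule.add_mem _ (Submodule.subset_span ⟨0, ?_⟩)
      (Submodule.smul_mem _ _ (Submodule.subset_span ⟨1, ?_⟩)))
      (Submodule.smul_mem _ _ (Submodule.subset_span ⟨-1, ?_⟩))
    · rw [map_sub, hcube]
      push_cast
      module
    · rw [map_add, hcube]
      push_cast
      module
    · rw [map_sub, hcube]
      push_cast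
      module
  rcases witt G hG h D hD0 hD hstar hBd with ⟨e, f, a, he, hf, hef, ha, hDe⟩ |
    ⟨e1, e2, f1, f2, a, b, h11, h12, h22, g11, g12, g22, k11, k12, k21, k22, -, hb, hab, hDe⟩
  · have qe : bil G (cx e) (cx e) = 0 := by rw [KS.bil_cx, he, Complex.ofReal_zero]
    have qf : bil G (cx f) (cx f) = 0 := by rw [KS.bil_cx, hf, Complex.ofReal_zero]
    have qef : bil G (cx e) (cx f) = 1 := by rw [KS.bil_cx, hef, Complex.ofReal_one]
    have qfe : bil G (cx f) (cx e) = 1 := by rw [hs, qef]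
    have hDee : D (cx e) = (a : ℂ) • cx e := by
      rw [hDe, LinearMap.smul_apply, wed_apply, qe, qfe, zero_smul, sub_zero, one_smul]
    have h6 := hcube (cx e)
    rw [hDee, map_smul, map_smul, hDee, map_smul, hDee] at h6
    have h7 : ((a : ℂ) ^ 3 - a) • cx e = 0 := by
      linear_combination (norm := module) h6
    have hcxe : cx e ≠ 0 := by
      intro h0
      rw [h0] at qef
      simp at qef
    have h8 : (a : ℂ) ^ 3 - a = 0 := (smul_eq_zero.1 h7).resolve_right hcxe
    have h9 : a ^ 3 - a = 0 := by exact_mod_cast h8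
    have h10 : a = 1 ∨ a = -1 := by
      have h11 : a * ((a - 1) * (a + 1)) = 0 := by linear_combination h9
      rcases mul_eq_zero.1 h11 with h12 | h12
      · exact absurd h12 ha
      · rcases mul_eq_zero.1 h12 with h13 | h13
        · left; linarith
        · right; linarith
    rcases h10 with h10 | h10
    · refine ⟨e, f, he, hf, hef, ?_⟩
      rw [hDe, h10, Complex.ofReal_one, one_smul]
    · refine ⟨f, e, hf, he, ?_, ?_⟩
      · rw [← wbil_apply, wbil_symm G hG, wbil_apply]
        exact hef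
      · rw [hDe, h10]
        apply LinearMap.ext
        intro z
        rw [LinearMap.smul_apply, wed_apply, wed_apply]
        push_cast
        module
  · exfalso
    have q11 : bil G (cx e1) (cx e1) = 0 := by rw [KS.bil_cx, h11, Complex.ofReal_zero]
    have q12 : bil G (cx e1) (cx e2) = 0 := by rw [KS.bil_cx, h12, Complex.ofReal_zero]
    have q22 : bil G (cx e2) (cx e2) = 0 := by rw [KS.bil_cx, h22, Complex.ofReal_zero]
    have q21 : bil G (cx e2) (cx e1) = 0 := by rw [hs, q12]
    have r11 : bil G (cx e1) (cx f1) = 1 := by rw [KS.bil_cx, k11, Complex.ofReal_one]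
    have r12 : bil G (cx e1) (cx f2) = 0 := by rw [KS.bil_cx, k12, Complex.ofReal_zero]
    have r21 : bil G (cx e2) (cx f1) = 0 := by rw [KS.bil_cx, k21, Complex.ofReal_zero]
    have r22 : bil G (cx e2) (cx f2) = 1 := by rw [KS.bil_cx, k22, Complex.ofReal_one]
    have s11 : bil G (cx f1) (cx e1) = 1 := by rw [hs, r11]
    have s12 : bil G (cx f1) (cx e2) = 0 := by rw [hs, r21]
    have s21 : bil G (cx f2) (cx e1) = 0 := by rw [hs, r12]
    have s22 : bil G (cx f2) (cx e2) = 1 := by rw [hs, r22]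
    have hD1 : D (cx e1) = (a : ℂ) • cx e1 := by
      rw [hDe, LinearMap.add_apply, LinearMap.smul_apply, LinearMap.smul_apply, wed_apply,
        wed_apply, q11, q21, s11, s21]
      module
    have hD2 : D (cx e2) = (b : ℂ) • cx e2 := by
      rw [hDe, LinearMap.add_apply, LinearMap.smul_apply, LinearMap.smul_apply, wed_apply,
        wed_apply, q12, q22, s12, s22]
      module
    have hc1 : cx e1 ≠ 0 := by
      intro h0
      rw [h0] at r11
      simp at r11
    have hc2 : cx e2 ≠ 0 := by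
      intro h0
      rw [h0] at r22
      simp at r22
    have one : ∀ (c : ℝ) (x : Fin n → ℝ), 0 < c → cx x ≠ 0 → D (cx x) = (c : ℂ) • cx x →
        c = 1 := by
      intro c x hc0 hx0 hDx
      have h6 := hcube (cx x)
      rw [hDx, map_smul, map_smul, hDx, map_smul, hDx] at h6
      have h7 : ((c : ℂ) ^ 3 - c) • cx x = 0 := by
        linear_combination (norm := module) h6
      have h8 : (c : ℂ) ^ 3 - c = 0 := (smul_eq_zero.1 h7).resolve_right hx0
      have h9 : c ^ 3 - c = 0 := by exact_mod_cast h8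
      have h11 : c * ((c - 1) * (c + 1)) = 0 := by linear_combination h9
      rcases mul_eq_zero.1 h11 with h12 | h12
      · exact absurd h12 hc0.ne'
      · rcases mul_eq_zero.1 h12 with h13 | h13
        · linarith
        · linarith
    have ha1 := one a e1 (hb.trans_le hab) hc1 hD1
    have hb1 := one b e2 hb hc2 hD2
    rw [ha1, Complex.ofReal_one, one_smul] at hD1
    rw [hb1, Complex.ofReal_one, one_smul] at hD2
    have hk := LinearMap.congr_fun (key hs hD hc (cx e1) (cx e2)) (cx f1)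
    simp only [hD1, hD2, LinearMap.add_apply, LinearMap.smul_apply, wed_apply, r21, r11,
      zero_smul, one_smul, zero_sub] at hk
    have h0 : (-6 : ℂ) • cx e2 = 0 := by
      linear_combination (norm := module) hk
    rcases smul_eq_zero.1 h0 with h6 | h6
    · norm_num at h6
    · exact hc2 h6

end real

end LinkHyp

open LinkHyp WittAux in
theorem link_hyp {n n' : ℕ} (hn : n = 3 ∨ 6 ≤ n) (hn' : n' = 3 ∨ 6 ≤ n')
    (G : Matrix (Fin n) (Fin n) ℝ) (hG : Gᵀ = G) (hsig : Sig2 G ∨ Sig2 (-G))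
    (G' : Matrix (Fin n') (Fin n') ℝ) (hG' : G'ᵀ = G') (hsig' : Sig2 G' ∨ Sig2 (-G'))
    (R : Submodule ℂ (Module.End ℂ (Fin n → ℂ) × Module.End ℂ (Fin n' → ℂ)))
    (hbr : ∀ X ∈ R, ∀ Y ∈ R, X * Y - Y * X ∈ R)
    (hsk : ∀ X ∈ R, Skw (bil G) X.1 ∧ Skw (bil G') X.2)
    (hpr : ∀ A, Skw (bil G) A → ∃ X ∈ R, X.1 = A) (hpr' : ∀ A, Skw (bil G') A → ∃ X ∈ R, X.2 = A)
    (hl : ∀ X ∈ R, X.1 = 0 ↔ X.2 = 0)
    (hconj : ∀ X ∈ R, ∃ X' ∈ R, (∀ v, X'.1 v = star (X.1 (star v))) ∧
      ∀ v, X'.2 v = star (X.2 (star v))) :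
    ∃ (e f : Fin n → ℝ) (e' f' : Fin n' → ℝ), e ⬝ᵥ (G *ᵥ e) = 0 ∧ f ⬝ᵥ (G *ᵥ f) = 0 ∧
      e ⬝ᵥ (G *ᵥ f) = 1 ∧ e' ⬝ᵥ (G' *ᵥ e') = 0 ∧ f' ⬝ᵥ (G' *ᵥ f') = 0 ∧ e' ⬝ᵥ (G' *ᵥ f') = 1 ∧
      (wed (bil G) (cx e) (cx f), wed (bil G') (cx e') (cx f')) ∈ R := by
  obtain ⟨e, f, he, hf, hef⟩ := exists_pair hG (by omega) hsig
  have hs : ∀ u v, bil G u v = bil G v u := bil_symm hG
  have qe : bil G (cx e) (cx e) = 0 := by rw [KS.bil_cx, he, Complex.ofReal_zero]
  have qf : bil G (cx f) (cx f) = 0 := by rw [KS.bil_cx, hf, Complex.ofReal_zero]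
  have qef : bil G (cx e) (cx f) = 1 := by rw [KS.bil_cx, hef, Complex.ofReal_one]
  have qfe : bil G (cx f) (cx e) = 1 := by rw [hs, qef]
  obtain ⟨X, hX, hX1⟩ := hpr _ (wed_skw hs (cx e) (cx f))
  have hD : Skw (bil G') X.2 := (hsk X hX).2
  -- nonzero
  have hX10 : X.1 ≠ 0 := by
    intro h0
    have h1 := LinearMap.congr_fun h0 (cx e)
    rw [hX1, wed_apply, qe, qfe, zero_smul, sub_zero, one_smul, LinearMap.zero_apply] at h1
    rw [h1] at qef
    simp at qef
  have hD0 : X.2 ≠ 0 := fun h0 => hX10 ((hl X hX).2 h0)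
  -- real
  have hstar : ∀ v, X.2 (star v) = star (X.2 v) := by
    obtain ⟨X', hX', h1, h2⟩ := hconj X hX
    have h3 : (X - X').1 = 0 := by
      apply LinearMap.ext
      intro v
      rw [Prod.fst_sub, LinearMap.sub_apply, h1, hX1, wed_apply, wed_apply, star_sub, star_smul,
        star_smul, star_cx, star_cx, ← bil_star, ← bil_star, star_cx, star_cx, star_star, sub_self,
        LinearMap.zero_apply]
    have h4 := (hl _ (R.sub_mem hX hX')).1 h3
    intro v
    have h5 := LinearMap.congr_fun h4 (star v)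
    rw [Prod.snd_sub, LinearMap.sub_apply, h2, star_star, LinearMap.zero_apply] at h5
    exact sub_eq_zero.1 h5
  -- the cubic relation
  have hcm : ∀ A ∈ R, ∀ B ∈ R, ((cm A.1 B.1, cm A.2 B.2) :
      Module.End ℂ (Fin n → ℂ) × Module.End ℂ (Fin n' → ℂ)) ∈ R := by
    intro A hA B hB
    exact hbr A hA B hB
  have hc : ∀ Y, Skw (bil G') Y → cm X.2 (cm X.2 (cm X.2 Y)) = cm X.2 Y := by
    intro Y hY
    obtain ⟨Z, hZ, hZY⟩ := hpr' Y hY
    have h1 := hcm X hX Z hZ
    have h2 := hcm X hX _ h1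
    have h3 := hcm X hX _ h2
    have h4 := R.sub_mem h3 h1
    have h5 := (hl _ h4).1 (by
      show cm X.1 (cm X.1 (cm X.1 Z.1)) - cm X.1 Z.1 = 0
      rw [hX1, wed_cube hs qe qf qef (hsk Z hZ).1, sub_self])
    have h6 : cm X.2 (cm X.2 (cm X.2 Z.2)) - cm X.2 Z.2 = 0 := h5
    rw [hZY] at h6
    exact sub_eq_zero.1 h6
  rcases hsig' with h' | h'
  · obtain ⟨e', f', he', hf', hef', hDe⟩ := real_form hG' h' hn' hD0 hD hc hstar
    refine ⟨e, f, e', f', he, hf, hef, he', hf', hef', ?_⟩
    rw [← hX1, ← hDe]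
    exact hX
  · have hGn : (-G')ᵀ = -G' := by rw [Matrix.transpose_neg, hG']
    have hskn : ∀ Y, Skw (bil (-G')) Y ↔ Skw (bil G') Y := by
      intro Y
      unfold Skw
      rw [bil_neg]
      simp only [LinearMap.neg_apply]
      constructor
      · intro h1 u v
        linear_combination - h1 u v
      · intro h1 u v
        linear_combination - h1 u v
    obtain ⟨e', f', he', hf', hef', hDe⟩ := real_form hGn h' hn' hD0 ((hskn _).2 hD)
      (fun Y hY => hc Y ((hskn Y).1 hY)) hstar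
    rw [← wbil_apply, wbil_neg] at he' hf' hef'
    refine ⟨e, f, e', -f', he, hf, hef, ?_, ?_, ?_, ?_⟩
    · rw [← wbil_apply]
      linarith
    · rw [← wbil_apply]
      simp only [map_neg, LinearMap.neg_apply, neg_neg]
      linarith
    · rw [← wbil_apply, map_neg]
      exact hef'
    · have h1 : wed (bil G') (cx e') (cx (-f')) = X.2 := by
        rw [hDe]
        apply LinearMap.ext
        intro z
        have h2 : cx (-f') = - cx f' := by
          funext i
          simp [cx]
        rw [wed_apply, wed_apply, h2, bil_neg]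
        simp only [map_neg, LinearMap.neg_apply]
        module
      rw [← hX1, h1]
      exact hX

end Pool.Agent.KSP
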