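import Pool.Agent.KSP.Defs

/-!
Module LinkIso. An isomorphism of orthogonal Lie algebras which maps a hyperbolic element of rank two to
such an element is induced by an isometry.

Proof. `w = wed q e f`, `w' = wed q' e' f'`. For `X` skew `⁅X, wed q x y⁆ = wed q (X x) y + wed q x (X y)`
(`wed_comm` in `KS/CaseCAux.lean`). `Z` is the orthogonal of `e, f`, `Z'` that of `e', f'`. `w e = e`,
`w f = - f`, `w z = 0` for `z ∈ Z`. By `hl` and `hpr` there is a linear bijection `φ` of skew operators,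
with `(A, φ A) ∈ R`, and it respects brackets; `φ w = w'`. The skew `Y` with `⁅w, Y⁆ = Y` are the
`wed q e z`, `z ∈ Z` (take `z = - (Y f)`), those with `⁅w, Y⁆ = - Y` are the `wed q f z`. So there are
linear bijections `g, h : Z → Z'` with `φ (wed e z) = wed e' (g z)`, `φ (wed f z) = wed f' (h z)`.
From `⁅wed e z, wed f z'⁆ = - wed z z' - q z z' • w` one gets
`φ (wed z z') + q z z' • w' = wed (g z) (h z') + q' (g z) (h z') • w'`; adding the same with `z, z'`
exchanged: `wed (g z) (h z') + wed (g z') (h z) = 0` and `q' (g z) (h z') + q' (g z') (h z) = 2 q z z'`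
(evaluate at `e'`). With `z = z'`: `h z` is a multiple of `g z` for all `z`, so `h = λ g`, and
`λ q' (g z) (g z') = q z z'`. Let `μ ^ 2 = λ`. Define `ĝ e = μ⁻¹ e'`, `ĝ f = μ f'`, `ĝ z = μ g z`:
an isometry with `φ (wed x y) = wed (ĝ x) (ĝ y)` for all `x, y`; as every skew operator is a combination of
`wed`s, `(φ A) ĝ = ĝ A`.
-/

namespace Pool.Agent.KSP

open Module Matrix Pool.Agent.KS

namespace LinkIso

section one

variable {V : Type} [AddCommGroup V] [Module ℂ V] {q : LinearMap.BilinForm ℂ V}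

lemma wed_add_right (x y y' : V) : wed q x (y + y') = wed q x y + wed q x y' := by
  ext z; simp only [wed_apply, LinearMap.add_apply, map_add, add_smul, smul_add]; abel

lemma wed_add_left (x x' y : V) : wed q (x + x') y = wed q x y + wed q x' y := by
  ext z; simp only [wed_apply, LinearMap.add_apply, map_add, add_smul, smul_add]; abel

lemma wed_smul_right (c : ℂ) (x y : V) : wed q x (c • y) = c • wed q x y := by
  ext z; simp only [wed_apply, LinearMap.smul_apply, map_smul, smul_eq_mul]; module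

lemma wed_smul_left (c : ℂ) (x y : V) : wed q (c • x) y = c • wed q x y := by
  ext z; simp only [wed_apply, LinearMap.smul_apply, map_smul, smul_eq_mul]; module

lemma wed_neg_left (x y : V) : wed q (-x) y = - wed q x y := by
  ext z; simp only [wed_apply, LinearMap.neg_apply, map_neg, neg_smul, smul_neg]; abel

lemma wed_self (x : V) : wed q x x = 0 := by
  ext z; simp only [wed_apply, sub_self, LinearMap.zero_apply]

lemma wed_swap (x y : V) : wed q x y = - wed q y x := by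
  ext z; simp only [wed_apply, LinearMap.neg_apply]; abel

lemma wed_zero_right (x : V) : wed q x 0 = 0 := by
  ext z; simp [wed_apply]

lemma wed_zero_left (x : V) : wed q 0 x = 0 := by
  ext z; simp [wed_apply]

lemma wed_skew (hs : ∀ x y, q x y = q y x) (x y : V) : Skw q (wed q x y) := by
  intro u v
  simp only [wed_apply, map_sub, map_smul, LinearMap.sub_apply, LinearMap.smul_apply, smul_eq_mul]
  rw [hs u x, hs u y]; ring

lemma wed_comm {X : Module.End ℂ V} (hX : Skw q X) (x y : V) :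
    X * wed q x y - wed q x y * X = wed q (X x) y + wed q x (X y) := by
  ext z
  simp only [wed_apply, LinearMap.sub_apply, Module.End.mul_apply, map_sub, map_smul,
    LinearMap.add_apply]
  have h1 : q y (X z) = - q (X y) z := by linear_combination hX y z
  have h2 : q x (X z) = - q (X x) z := by linear_combination hX x z
  rw [h1, h2]
  module

/-- hyperbolic pairs -/
structure Hyp (q : LinearMap.BilinForm ℂ V) (e f : V) : Prop where
  s : ∀ x y, q x y = q y x
  ee : q e e = 0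
  ff : q f f = 0
  ef : q e f = 1

variable {e f : V}

lemma Hyp.fe (H : Hyp q e f) : q f e = 1 := by rw [H.s f e]; exact H.ef

lemma Hyp.swap (H : Hyp q e f) : Hyp q f e := ⟨H.s, H.ff, H.ee, H.fe⟩

/-- the component orthogonal to the pair -/
def pj (q : LinearMap.BilinForm ℂ V) (e f x : V) : V := x - q f x • e - q e x • f

lemma pj_exp (x : V) : x = q f x • e + q e x • f + pj q e f x := by
  unfold pj; abel

lemma pj_e (H : Hyp q e f) (x : V) : q e (pj q e f x) = 0 := by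
  simp only [pj, map_sub, map_smul, smul_eq_mul, H.ee, H.ef]; ring

lemma pj_f (H : Hyp q e f) (x : V) : q f (pj q e f x) = 0 := by
  simp only [pj, map_sub, map_smul, smul_eq_mul, H.ff, H.fe]; ring

lemma skw_self (hs : ∀ x y, q x y = q y x) {X : Module.End ℂ V} (hX : Skw q X) (x : V) :
    q x (X x) = 0 := by
  have h1 := hX x x
  rw [hs (X x) x] at h1
  linear_combination h1 / 2

/-- skew operators with `[w, B] = B` -/
lemma shape (H : Hyp q e f) {B : Module.End ℂ V} (hB : Skw q B)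
    (h : wed q e f * B - B * wed q e f = B) :
    B = wed q e (- B f) ∧ q e (B f) = 0 ∧ q f (B f) = 0 := by
  have hx : ∀ x, q f (B x) • e - q e (B x) • f - (q f x • B e - q e x • B f) = B x := by
    intro x
    have h1 := LinearMap.congr_fun h x
    simp only [LinearMap.sub_apply, Module.End.mul_apply, wed_apply, map_sub, map_smul] at h1
    exact h1
  have h0 : q e (B e) = 0 := skw_self H.s hB e
  have h1 : q f (B e) = 0 := by
    have h2 := congrArg (fun v => q f v) (hx e)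
    simp only [map_sub, map_smul, smul_eq_mul, H.fe, H.ff, H.ee, h0] at h2
    linear_combination -h2
  have h2 : B e = 0 := by
    have h3 := hx e
    rw [h0, h1, H.fe, H.ee] at h3
    have h4 : (2 : ℂ) • B e = 0 := by
      rw [two_smul]
      have h5 : - B e = B e := by
        simpa using h3
      nth_rewrite 1 [← h5]
      simp
    exact (smul_eq_zero.1 h4).resolve_left two_ne_zero
  have h6 : q e (B f) = 0 := by
    have h7 := hB e f
    rw [h2] at h7
    simpa using h7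
  refine ⟨?_, h6, skw_self H.s hB f⟩
  ext x
  have h8 : q f (B x) = - q (B f) x := by linear_combination hB f x
  have h9 : q e (B x) = 0 := by
    have h10 := hB e x
    rw [h2] at h10
    simpa using h10
  rw [wed_apply, ← hx x, h8, h9, h2]
  simp only [map_neg, LinearMap.neg_apply]
  module

end one

end LinkIso

namespace LinkIso

section two

variable {V V' : Type} [AddCommGroup V] [Module ℂ V] [AddCommGroup V'] [Module ℂ V']

/-- graphs of isomorphisms between the Lie algebras of skew operators -/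
structure Gr (q : LinearMap.BilinForm ℂ V) (q' : LinearMap.BilinForm ℂ V')
    (R : Submodule ℂ (Module.End ℂ V × Module.End ℂ V')) : Prop where
  br : ∀ X ∈ R, ∀ Y ∈ R, X * Y - Y * X ∈ R
  sk : ∀ X ∈ R, Skw q X.1 ∧ Skw q' X.2
  pr : ∀ A, Skw q A → ∃ X ∈ R, X.1 = A
  pr' : ∀ A, Skw q' A → ∃ X ∈ R, X.2 = A
  l : ∀ X ∈ R, X.1 = 0 ↔ X.2 = 0

variable {q : LinearMap.BilinForm ℂ V} {q' : LinearMap.BilinForm ℂ V'}
  {R : Submodule ℂ (Module.End ℂ V × Module.End ℂ V')} {e f : V} {e' f' : V'}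

lemma Gr.fn (G : Gr q q' R) {A : Module.End ℂ V} {B B' : Module.End ℂ V'} (h : (A, B) ∈ R)
    (h' : (A, B') ∈ R) : B = B' := by
  have h1 := (G.l _ (R.sub_mem h h')).1 (by simp)
  exact sub_eq_zero.1 h1

lemma Gr.inj (G : Gr q q' R) {A A' : Module.End ℂ V} {B : Module.End ℂ V'} (h : (A, B) ∈ R)
    (h' : (A', B) ∈ R) : A = A' := by
  have h1 := (G.l _ (R.sub_mem h h')).2 (by simp)
  exact sub_eq_zero.1 h1

lemma Gr.brk (G : Gr q q' R) {A A' : Module.End ℂ V} {B B' : Module.End ℂ V'} (h : (A, B) ∈ R)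
    (h' : (A', B') ∈ R) : (A * A' - A' * A, B * B' - B' * B) ∈ R := G.br _ h _ h'

lemma Gr.lin (G : Gr q q' R) (hs : ∀ x y, q x y = q y x) (x : V) :
    ∃ T : V →ₗ[ℂ] Module.End ℂ V', ∀ y, (wed q x y, T y) ∈ R := by
  have h1 : ∀ y, ∃ B, (wed q x y, B) ∈ R := by
    intro y
    obtain ⟨X, hX, h⟩ := G.pr _ (wed_skew hs x y)
    exact ⟨X.2, by rw [← h]; exact hX⟩
  choose T hT using h1
  refine ⟨{ toFun := T, map_add' := ?_, map_smul' := ?_ }, hT⟩
  · intro y y'
    refine G.fn (hT (y + y')) ?_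
    rw [wed_add_right]
    exact R.add_mem (hT y) (hT y')
  · intro c y
    refine G.fn (hT (c • y)) ?_
    rw [wed_smul_right]
    exact R.smul_mem c (hT y)

lemma ad_wed (H : Hyp q e f) {z : V} (h1 : q e z = 0) (h2 : q f z = 0) :
    wed q e f * wed q e z - wed q e z * wed q e f = wed q e z := by
  rw [wed_comm (wed_skew H.s e f), wed_apply, wed_apply, H.fe, H.ee, h1, h2]
  simp [wed_zero_right]

lemma Gr.shp (G : Gr q q' R) (H : Hyp q e f) (H' : Hyp q' e' f')
    (hR : (wed q e f, wed q' e' f') ∈ R) {z : V} {B : Module.End ℂ V'} (h1 : q e z = 0)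
    (h2 : q f z = 0) (hB : (wed q e z, B) ∈ R) :
    B = wed q' e' (- B f') ∧ q' e' (B f') = 0 ∧ q' f' (B f') = 0 := by
  refine shape H' (G.sk _ hB).2 ?_
  have h3 := G.brk hR hB
  rw [ad_wed H h1 h2] at h3
  exact G.fn h3 hB

lemma Gr.shp' (G : Gr q q' R) (H : Hyp q e f) (H' : Hyp q' e' f')
    (hR : (wed q e f, wed q' e' f') ∈ R) {z : V'} {A : Module.End ℂ V} (h1 : q' e' z = 0)
    (h2 : q' f' z = 0) (hA : (A, wed q' e' z) ∈ R) :
    A = wed q e (- A f) ∧ q e (A f) = 0 ∧ q f (A f) = 0 := by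
  refine shape H (G.sk _ hA).1 ?_
  have h3 := G.brk hR hA
  rw [ad_wed H' h1 h2] at h3
  exact G.inj h3 hA

lemma wed_f (H : Hyp q e f) {z : V} (h : q f z = 0) : wed q e z f = - z := by
  rw [wed_apply, H.ef, H.s z f, h]
  simp

/-- the linear map defined by the eigenspace for the eigenvalue one -/
lemma Gr.exg (G : Gr q q' R) (H : Hyp q e f) (H' : Hyp q' e' f')
    (hR : (wed q e f, wed q' e' f') ∈ R) :
    ∃ g : V →ₗ[ℂ] V', (∀ z, q e z = 0 → q f z = 0 → (wed q e z, wed q' e' (g z)) ∈ R ∧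
      q' e' (g z) = 0 ∧ q' f' (g z) = 0 ∧ (g z = 0 → z = 0)) ∧
      ∀ z', q' e' z' = 0 → q' f' z' = 0 → ∃ z, q e z = 0 ∧ q f z = 0 ∧ g z = z' := by
  obtain ⟨T, hT⟩ := G.lin H.s e
  have key : ∀ z, q e z = 0 → q f z = 0 →
      (wed q e z, wed q' e' (- T z f')) ∈ R ∧ q' e' (- T z f') = 0 ∧ q' f' (- T z f') = 0 := by
    intro z h1 h2
    obtain ⟨h3, h4, h5⟩ := G.shp H H' hR h1 h2 (hT z)
    refine ⟨?_, by rw [map_neg, h4, neg_zero], by rw [map_neg, h5, neg_zero]⟩
    rw [← h3]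
    exact hT z
  refine ⟨- ((LinearMap.applyₗ f').comp T), ?_, ?_⟩
  · intro z h1 h2
    have h3 := key z h1 h2
    have h4 : (- ((LinearMap.applyₗ f').comp T) : V →ₗ[ℂ] V') z = - T z f' := rfl
    rw [h4]
    refine ⟨h3.1, h3.2.1, h3.2.2, ?_⟩
    intro h5
    have h6 := h3.1
    rw [h5, wed_zero_right] at h6
    have h7 : wed q e z = 0 := (G.l _ h6).2 rfl
    have h8 := LinearMap.congr_fun h7 f
    rw [wed_f H h2] at h8
    simpa using h8
  · intro z' h1 h2
    obtain ⟨X, hX, hX2⟩ := G.pr' _ (wed_skew H'.s e' z')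
    have hX' : (X.1, wed q' e' z') ∈ R := by rw [← hX2]; exact hX
    obtain ⟨h3, h4, h5⟩ := G.shp' H H' hR h1 h2 hX'
    have h4' : q e (- X.1 f) = 0 := by rw [map_neg, h4, neg_zero]
    have h5' : q f (- X.1 f) = 0 := by rw [map_neg, h5, neg_zero]
    refine ⟨- X.1 f, h4', h5', ?_⟩
    have h6 := (key _ h4' h5').1
    rw [← h3] at h6
    have h7 := G.fn h6 hX'
    have h8 := LinearMap.congr_fun h7 f'
    rw [wed_f H' (key _ h4' h5').2.2, wed_f H' h2] at h8
    exact neg_injective h8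

lemma Gr.star (G : Gr q q' R) (H : Hyp q e f) (H' : Hyp q' e' f') {z y : V} {z' y' : V'}
    (hz : q f z = 0) (hy : q e y = 0) (hz' : q' f' z' = 0) (hy' : q' e' y' = 0)
    (h1 : (wed q e z, wed q' e' z') ∈ R) (h2 : (wed q f y, wed q' f' y') ∈ R) :
    (wed q z y + q z y • wed q e f, wed q' z' y' + q' z' y' • wed q' e' f') ∈ R := by
  have h3 := R.neg_mem (G.brk h1 h2)
  have e1 : -(wed q e z * wed q f y - wed q f y * wed q e z) =
      wed q z y + q z y • wed q e f := by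
    rw [wed_comm (wed_skew H.s e z), wed_f H hz]
    have h4 : wed q e z y = q z y • e := by rw [wed_apply, hy]; simp
    rw [h4, wed_smul_right, wed_neg_left, wed_swap f e]
    module
  have e2 : -(wed q' e' z' * wed q' f' y' - wed q' f' y' * wed q' e' z') =
      wed q' z' y' + q' z' y' • wed q' e' f' := by
    rw [wed_comm (wed_skew H'.s e' z'), wed_f H' hz']
    have h4 : wed q' e' z' y' = q' z' y' • e' := by rw [wed_apply, hy']; simp
    rw [h4, wed_smul_right, wed_neg_left, wed_swap f' e']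
    module
  rw [← e1, ← e2]
  exact h3

end two

end LinkIso

namespace LinkIso

section three

variable {V V' : Type} [AddCommGroup V] [Module ℂ V] [AddCommGroup V'] [Module ℂ V']
variable {q : LinearMap.BilinForm ℂ V} {q' : LinearMap.BilinForm ℂ V'}
  {R : Submodule ℂ (Module.End ℂ V × Module.End ℂ V')} {e f : V} {e' f' : V'}

lemma Gr.cross (G : Gr q q' R) (H : Hyp q e f) (H' : Hyp q' e' f')
    (hR : (wed q e f, wed q' e' f') ∈ R) {g h : V → V'}
    (hg : ∀ z, q e z = 0 → q f z = 0 → (wed q e z, wed q' e' (g z)) ∈ R ∧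
      q' e' (g z) = 0 ∧ q' f' (g z) = 0)
    (hh : ∀ z, q e z = 0 → q f z = 0 → (wed q f z, wed q' f' (h z)) ∈ R ∧
      q' e' (h z) = 0 ∧ q' f' (h z) = 0) {z y : V} (z1 : q e z = 0) (z2 : q f z = 0)
    (y1 : q e y = 0) (y2 : q f y = 0) :
    q' (g z) (h y) + q' (g y) (h z) = 2 * q z y ∧
      wed q' (g z) (h y) + wed q' (g y) (h z) = 0 := by
  have hgz := hg z z1 z2
  have hgy := hg y y1 y2
  have hhz := hh z z1 z2
  have hhy := hh y y1 y2
  have s1 := G.star H H' z2 y1 hgz.2.2 hhy.2.1 hgz.1 hhy.1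
  have s2 := G.star H H' y2 z1 hgy.2.2 hhz.2.1 hgy.1 hhz.1
  have s3 := R.add_mem s1 s2
  have s4 := R.smul_mem (2 * q z y) hR
  have e1 : (wed q z y + q z y • wed q e f) + (wed q y z + q y z • wed q e f) =
      (2 * q z y) • wed q e f := by
    rw [H.s y z, wed_swap y z]
    module
  have s5 : ((2 * q z y) • wed q e f, (wed q' (g z) (h y) + q' (g z) (h y) • wed q' e' f') +
      (wed q' (g y) (h z) + q' (g y) (h z) • wed q' e' f')) ∈ R := by
    rw [← e1]
    exact s3
  have s6 := G.fn s5 s4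
  have e2 : wed q' e' f' e' = e' := by
    rw [wed_apply, H'.fe, H'.ee]; simp
  have e3 : ∀ u v : V', q' e' u = 0 → q' e' v = 0 → wed q' u v e' = 0 := by
    intro u v hu hv
    rw [wed_apply, H'.s v e', H'.s u e', hu, hv]; simp
  have s7 : q' (g z) (h y) + q' (g y) (h z) = 2 * q z y := by
    have h1 := congrArg (fun T : Module.End ℂ V' => q' f' (T e')) s6
    simp only [LinearMap.add_apply, LinearMap.smul_apply, e2, e3 _ _ hgz.2.1 hhy.2.1,
      e3 _ _ hgy.2.1 hhz.2.1, map_add, map_smul, map_zero, smul_eq_mul, H'.fe] at h1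
    linear_combination h1
  refine ⟨s7, ?_⟩
  have e4 : wed q' (g z) (h y) + wed q' (g y) (h z) =
      ((wed q' (g z) (h y) + q' (g z) (h y) • wed q' e' f') +
      (wed q' (g y) (h z) + q' (g y) (h z) • wed q' e' f')) -
      (q' (g z) (h y) + q' (g y) (h z)) • wed q' e' f' := by module
  rw [e4, s6, s7]
  simp

/-- the two maps are proportional -/
lemma prop {g h : V →ₗ[ℂ] V'}
    (hgi : ∀ z, q e z = 0 → q f z = 0 → g z = 0 → z = 0)
    (hhi : ∀ z, q e z = 0 → q f z = 0 → h z = 0 → z = 0)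
    (hc : ∀ z y, q e z = 0 → q f z = 0 → q e y = 0 → q f y = 0 →
      q' (g z) (h y) + q' (g y) (h z) = 2 * q z y ∧
      wed q' (g z) (h y) + wed q' (g y) (h z) = 0)
    {z₀ : V} (h1 : q e z₀ = 0) (h2 : q f z₀ = 0) (h3 : q z₀ z₀ ≠ 0) :
    ∃ μ : ℂ, μ ≠ 0 ∧ ∀ z, q e z = 0 → q f z = 0 → h z = (μ * μ) • g z := by
  have a1 := hc z₀ z₀ h1 h2 h1 h2
  have a2 : q' (g z₀) (h z₀) = q z₀ z₀ := by linear_combination a1.1 / 2
  have a3 : wed q' (g z₀) (h z₀) = 0 := by
    have h4 := a1.2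
    rw [← two_smul ℂ] at h4
    exact (smul_eq_zero.1 h4).resolve_left two_ne_zero
  have hz0 : z₀ ≠ 0 := by
    rintro rfl
    simp at h3
  have hh0 : h z₀ ≠ 0 := fun h4 => hz0 (hhi z₀ h1 h2 h4)
  have hg0 : g z₀ ≠ 0 := fun h4 => hz0 (hgi z₀ h1 h2 h4)
  obtain ⟨lam, hlam⟩ : ∃ lam : ℂ, h z₀ = lam • g z₀ := by
    have h4 := LinearMap.congr_fun a3 (h z₀)
    rw [wed_apply, a2, LinearMap.zero_apply, sub_eq_zero] at h4
    refine ⟨(q z₀ z₀)⁻¹ * q' (h z₀) (h z₀), ?_⟩
    rw [mul_smul, h4, smul_smul, inv_mul_cancel₀ h3, one_smul]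
  have hlam0 : lam ≠ 0 := by
    rintro rfl
    rw [zero_smul] at hlam
    exact hh0 hlam
  obtain ⟨μ, hμ⟩ := IsAlgClosed.exists_eq_mul_self lam
  refine ⟨μ, ?_, ?_⟩
  · rintro rfl
    rw [mul_zero] at hμ
    exact hlam0 hμ
  rw [← hμ]
  intro z z1 z2
  have hN : q' (g z₀) (g z₀) ≠ 0 := by
    intro h4
    rw [hlam, map_smul, h4, smul_zero] at a2
    exact h3 a2.symm
  have b1 := (hc z₀ z h1 h2 z1 z2).2
  have b2 : wed q' (g z₀) (h z - lam • g z) = 0 := by
    rw [hlam, wed_smul_right, wed_swap (g z) (g z₀)] at b1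
    rw [← b1]
    ext x
    simp only [wed_apply, map_sub, map_smul, LinearMap.sub_apply, LinearMap.smul_apply,
      LinearMap.add_apply, LinearMap.neg_apply]
    module
  obtain ⟨c, hcc⟩ : ∃ c : ℂ, h z - lam • g z = c • g z₀ := by
    have h4 := LinearMap.congr_fun b2 (g z₀)
    rw [wed_apply, LinearMap.zero_apply, sub_eq_zero] at h4
    refine ⟨(q' (g z₀) (g z₀))⁻¹ * q' (h z - lam • g z) (g z₀), ?_⟩
    rw [mul_smul, h4, smul_smul, inv_mul_cancel₀ hN, one_smul]
  have b3 : wed q' (g z) (h z) = 0 := by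
    have h4 := (hc z z z1 z2 z1 z2).2
    rw [← two_smul ℂ] at h4
    exact (smul_eq_zero.1 h4).resolve_left two_ne_zero
  have b4 : h z = lam • g z + c • g z₀ := by
    rw [← hcc]; abel
  rw [b4, wed_add_right, wed_smul_right, wed_smul_right, wed_self, smul_zero, zero_add] at b3
  rcases smul_eq_zero.1 b3 with h4 | h4
  · rw [b4, h4, zero_smul, add_zero]
  · obtain ⟨d, hd⟩ : ∃ d : ℂ, g z = d • g z₀ := by
      have h5 := LinearMap.congr_fun h4 (g z₀)
      rw [wed_apply, LinearMap.zero_apply, sub_eq_zero] at h5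
      refine ⟨(q' (g z₀) (g z₀))⁻¹ * q' (g z) (g z₀), ?_⟩
      rw [mul_smul, ← h5, smul_smul, inv_mul_cancel₀ hN, one_smul]
    have h6 : z - d • z₀ = 0 := by
      apply hgi
      · rw [map_sub, map_smul, z1, h1]; simp
      · rw [map_sub, map_smul, z2, h2]; simp
      · rw [map_sub, map_smul, hd, sub_self]
    have h7 : z = d • z₀ := sub_eq_zero.1 h6
    rw [h7, map_smul, map_smul, hlam]
    module

end three

end LinkIso

namespace LinkIso

section four

variable {V V' : Type} [AddCommGroup V] [Module ℂ V] [AddCommGroup V'] [Module ℂ V']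
variable {q : LinearMap.BilinForm ℂ V} {q' : LinearMap.BilinForm ℂ V'}
  {R : Submodule ℂ (Module.End ℂ V × Module.End ℂ V')} {e f : V} {e' f' : V'}

lemma decomp (H : Hyp q e f) (x : V) :
    ∃ (a b : ℂ) (z : V), x = a • e + b • f + z ∧ q e z = 0 ∧ q f z = 0 :=
  ⟨q f x, q e x, pj q e f x, pj_exp x, pj_e H x, pj_f H x⟩

/-- the isometry -/
noncomputable def gh (q : LinearMap.BilinForm ℂ V) (e f : V) (e' f' : V') (g : V →ₗ[ℂ] V')
    (μ : ℂ) : V →ₗ[ℂ] V' :=
  μ⁻¹ • (q f).smulRight e' + μ • (q e).smulRight f' +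
    μ • g ∘ₗ (LinearMap.id - (q f).smulRight e - (q e).smulRight f)

lemma gh_apply (g : V →ₗ[ℂ] V') (μ : ℂ) (x : V) : gh q e f e' f' g μ x =
    μ⁻¹ • q f x • e' + μ • q e x • f' + μ • g (x - q f x • e - q e x • f) := rfl

lemma gh_exp (H : Hyp q e f) (g : V →ₗ[ℂ] V') (μ : ℂ) (a b : ℂ) {z : V} (h1 : q e z = 0)
    (h2 : q f z = 0) : gh q e f e' f' g μ (a • e + b • f + z) =
      (a * μ⁻¹) • e' + (b * μ) • f' + μ • g z := by
  have e1 : q f (a • e + b • f + z) = a := by
    simp only [map_add, map_smul, smul_eq_mul, H.fe, H.ff, h2]; ring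
  have e2 : q e (a • e + b • f + z) = b := by
    simp only [map_add, map_smul, smul_eq_mul, H.ee, H.ef, h1]; ring
  rw [gh_apply, e1, e2]
  have e3 : a • e + b • f + z - a • e - b • f = z := by abel
  rw [e3]
  module

lemma gh_iso (H : Hyp q e f) (H' : Hyp q' e' f') {g : V →ₗ[ℂ] V'} {μ : ℂ} (hμ : μ ≠ 0)
    (hg : ∀ z, q e z = 0 → q f z = 0 → q' e' (g z) = 0 ∧ q' f' (g z) = 0)
    (hi : ∀ z y, q e z = 0 → q f z = 0 → q e y = 0 → q f y = 0 →
      μ * μ * q' (g z) (g y) = q z y) (x y : V) :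
    q' (gh q e f e' f' g μ x) (gh q e f e' f' g μ y) = q x y := by
  obtain ⟨a, b, z, rfl, h1, h2⟩ := decomp H x
  obtain ⟨a', b', z', rfl, h1', h2'⟩ := decomp H y
  rw [gh_exp H g μ a b h1 h2, gh_exp H g μ a' b' h1' h2']
  obtain ⟨g1, g2⟩ := hg z h1 h2
  obtain ⟨g1', g2'⟩ := hg z' h1' h2'
  have g3 : q' (g z) e' = 0 := by rw [H'.s]; exact g1
  have g4 : q' (g z) f' = 0 := by rw [H'.s]; exact g2
  have g5 : q z e = 0 := by rw [H.s]; exact h1
  have g6 : q z f = 0 := by rw [H.s]; exact h2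
  simp only [map_add, map_smul, LinearMap.add_apply, LinearMap.smul_apply, smul_eq_mul, H.ee, H.ef,
    H.fe, H.ff, H'.ee, H'.ef, H'.fe, H'.ff, g1', g2', g3, g4, g5, g6, h1', h2']
  have h3 := hi z z' h1 h2 h1' h2'
  have h4 : μ⁻¹ * μ = 1 := inv_mul_cancel₀ hμ
  linear_combination h3 + (a * b' + b * a') * h4

lemma pairs (G : Gr q q' R) (H : Hyp q e f) (H' : Hyp q' e' f')
    (hR : (wed q e f, wed q' e' f') ∈ R) {g h : V →ₗ[ℂ] V'} {μ : ℂ} (hμ : μ ≠ 0)
    (hg : ∀ z, q e z = 0 → q f z = 0 → (wed q e z, wed q' e' (g z)) ∈ R ∧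
      q' e' (g z) = 0 ∧ q' f' (g z) = 0)
    (hh : ∀ z, q e z = 0 → q f z = 0 → (wed q f z, wed q' f' (h z)) ∈ R ∧
      q' e' (h z) = 0 ∧ q' f' (h z) = 0)
    (hm : ∀ z, q e z = 0 → q f z = 0 → h z = (μ * μ) • g z)
    (hi : ∀ z y, q e z = 0 → q f z = 0 → q e y = 0 → q f y = 0 →
      μ * μ * q' (g z) (g y) = q z y) (x y : V) :
    (wed q x y, wed q' (gh q e f e' f' g μ x) (gh q e f e' f' g μ y)) ∈ R := by
  obtain ⟨a, b, z, rfl, h1, h2⟩ := decomp H x
  obtain ⟨a', b', z', rfl, h1', h2'⟩ := decomp H y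
  rw [gh_exp H g μ a b h1 h2, gh_exp H g μ a' b' h1' h2']
  have p1 := (hg z h1 h2).1
  have p1' := (hg z' h1' h2').1
  have p2 := (hh z h1 h2).1
  have p2' := (hh z' h1' h2').1
  have p3 := G.star H H' h2 h1' (hg z h1 h2).2.2 (hh z' h1' h2').2.1 p1 p2'
  rw [hm z h1 h2, wed_smul_right] at p2
  rw [hm z' h1' h2', wed_smul_right] at p2' p3
  rw [map_smul, smul_eq_mul, hi z z' h1 h2 h1' h2'] at p3
  have p4 := R.sub_mem p3 (R.smul_mem (q z z') hR)
  have key := R.add_mem (R.add_mem (R.add_mem (R.smul_mem (a * b' - b * a') hR)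
    (R.sub_mem (R.smul_mem a p1') (R.smul_mem a' p1)))
    (R.sub_mem (R.smul_mem b p2') (R.smul_mem b' p2))) p4
  convert key using 1
  have h3 : μ⁻¹ * μ = 1 := inv_mul_cancel₀ hμ
  refine Prod.ext ?_ ?_
  · ext v
    simp only [Prod.fst_add, Prod.fst_sub, Prod.smul_fst, LinearMap.add_apply, LinearMap.sub_apply,
      LinearMap.smul_apply, wed_apply, map_add, map_smul, smul_eq_mul]
    module
  · ext v
    simp only [Prod.snd_add, Prod.snd_sub, Prod.smul_snd, LinearMap.add_apply, LinearMap.sub_apply,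
      LinearMap.smul_apply, wed_apply, map_add, map_smul, smul_eq_mul]
    linear_combination (norm := module) h3 • ((a * b' - b * a') • (q' f' v • e' - q' e' v • f') +
      a • (q' (g z') v • e' - q' e' v • g z') - a' • (q' (g z) v • e' - q' e' v • g z))

end four

end LinkIso

namespace LinkIso

section five

variable {V V' : Type} [AddCommGroup V] [Module ℂ V] [AddCommGroup V'] [Module ℂ V']
variable {q : LinearMap.BilinForm ℂ V} {q' : LinearMap.BilinForm ℂ V'}
  {R : Submodule ℂ (Module.End ℂ V × Module.End ℂ V')} {e f : V}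

/-- an isometry which respects all operators `wed` respects all skew operators -/
lemma final (G : Gr q q' R) (H : Hyp q e f) (hs' : ∀ x y, q' x y = q' y x) {T : V →ₗ[ℂ] V'}
    (hT : ∀ x y, q' (T x) (T y) = q x y)
    (hp : ∀ x y, (wed q x y, wed q' (T x) (T y)) ∈ R) {z₀ : V} (h1 : q e z₀ = 0)
    (h2 : q f z₀ = 0) (h3 : q z₀ z₀ ≠ 0) {A : Module.End ℂ V} {B : Module.End ℂ V'}
    (hX : (A, B) ∈ R) (x : V) : B (T x) = T (A x) := by
  obtain ⟨D, hD⟩ : ∃ D : V → V', ∀ x, D x = B (T x) - T (A x) := ⟨_, fun _ => rfl⟩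
  have sA := (G.sk _ hX).1
  have sB := (G.sk _ hX).2
  have d1 : ∀ x y, q' (D x) (T y) + q' (T x) (D y) = 0 := by
    intro x y
    have e1 := sA x y
    have e2 := sB (T x) (T y)
    rw [hD, hD, map_sub, map_sub, LinearMap.sub_apply, hT, hT]
    linear_combination e2 - e1
  have d0 : ∀ x, q' (D x) (T x) = 0 := by
    intro x
    have e1 := d1 x x
    rw [hs' (T x) (D x)] at e1
    linear_combination e1 / 2
  have d2 : ∀ x y v, q y v • D x - q' (D x) (T v) • T y + q' (D y) (T v) • T x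
      - q x v • D y = 0 := by
    intro x y v
    have e1 := G.brk hX (hp x y)
    rw [wed_comm sA, wed_comm sB] at e1
    have e2 := G.fn e1 (R.add_mem (hp (A x) y) (hp x (A y)))
    have e3 := LinearMap.congr_fun e2 (T v)
    simp only [LinearMap.add_apply, wed_apply, hT] at e3
    have e4 : ∀ x, B (T x) = D x + T (A x) := by
      intro x
      rw [hD]; abel
    rw [e4, e4] at e3
    simp only [map_add, LinearMap.add_apply, hT] at e3
    linear_combination (norm := module) e3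
  have d3 : ∀ a b, q a a = 0 → q b a = 1 → q a z₀ = 0 → D a = 0 := by
    intro a b ha hb haz
    have e1 := d2 a b a
    rw [hb, d0 a, ha] at e1
    have e2 : D a = - q' (D b) (T a) • T a := by
      linear_combination (norm := module) e1
    have e3 := d2 a z₀ z₀
    rw [haz, d0 z₀] at e3
    have e4 : q' (D a) (T z₀) = 0 := by
      rw [e2, map_smul, LinearMap.smul_apply, hT, haz, smul_zero]
    rw [e4] at e3
    have e5 : q z₀ z₀ • D a = 0 := by
      linear_combination (norm := module) e3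
    exact (smul_eq_zero.1 e5).resolve_left h3
  have de : D e = 0 := d3 e f H.ee H.fe h1
  have df : D f = 0 := d3 f e H.ff H.ef h2
  have e1 := d2 x e f
  have e2 : q' (D x) (T f) = 0 := by
    have e3 := d1 x f
    rw [df, map_zero, add_zero] at e3
    exact e3
  rw [H.ef, e2, de] at e1
  have e4 : D x = 0 := by
    simpa using e1
  rw [hD] at e4
  exact sub_eq_zero.1 e4

/-- vectors in the orthogonal of a hyperbolic pair -/
lemma exz [FiniteDimensional ℂ V] (hn : 2 < Module.finrank ℂ V) (H : Hyp q e f)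
    (hnd : q.Nondegenerate) : ∃ z, q e z = 0 ∧ q f z = 0 ∧ q z z ≠ 0 := by
  by_contra hne
  push Not at hne
  have h1 : LinearMap.ker ((q e).prod (q f)) ≠ ⊥ := by
    apply LinearMap.ker_ne_bot_of_finrank_lt
    rw [Module.finrank_prod, Module.finrank_self]
    exact hn
  obtain ⟨z, hz, hz0⟩ := Submodule.exists_mem_ne_zero_of_ne_bot h1
  have hz' : (q e z, q f z) = (0, 0) := LinearMap.mem_ker.1 hz
  replace hz := Prod.mk.inj hz'
  apply hz0
  apply hnd.1
  intro x
  obtain ⟨a, b, y, rfl, y1, y2⟩ := decomp H x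
  have h2 : q z e = 0 := by rw [H.s]; exact hz.1
  have h3 : q z f = 0 := by rw [H.s]; exact hz.2
  have h4 : q (z + y) (z + y) = 0 := hne _ (by rw [map_add, hz.1, y1, add_zero])
    (by rw [map_add, hz.2, y2, add_zero])
  have h5 : q z z = 0 := hne _ hz.1 hz.2
  have h6 : q y y = 0 := hne _ y1 y2
  simp only [map_add, LinearMap.add_apply, h5, h6, H.s y z] at h4
  rw [map_add, map_add, map_smul, map_smul, h2, h3, smul_zero, smul_zero]
  linear_combination h4 / 2

end five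

end LinkIso

theorem link_iso {n n' : ℕ} (hn : 3 ≤ n) (hn' : 3 ≤ n')
    (q : LinearMap.BilinForm ℂ (Fin n → ℂ)) (hs : ∀ x y, q x y = q y x) (hnd : q.Nondegenerate)
    (q' : LinearMap.BilinForm ℂ (Fin n' → ℂ)) (hs' : ∀ x y, q' x y = q' y x)
    (hnd' : q'.Nondegenerate)
    (R : Submodule ℂ (Module.End ℂ (Fin n → ℂ) × Module.End ℂ (Fin n' → ℂ)))
    (hbr : ∀ X ∈ R, ∀ Y ∈ R, X * Y - Y * X ∈ R) (hsk : ∀ X ∈ R, Skw q X.1 ∧ Skw q' X.2)
    (hpr : ∀ A, Skw q A → ∃ X ∈ R, X.1 = A) (hpr' : ∀ A, Skw q' A → ∃ X ∈ R, X.2 = A)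
    (hl : ∀ X ∈ R, X.1 = 0 ↔ X.2 = 0) (e f : Fin n → ℂ) (e' f' : Fin n' → ℂ)
    (he : q e e = 0) (hf : q f f = 0) (hef : q e f = 1) (he' : q' e' e' = 0) (hf' : q' f' f' = 0)
    (hef' : q' e' f' = 1) (hR : (wed q e f, wed q' e' f') ∈ R) :
    ∃ g : (Fin n → ℂ) ≃ₗ[ℂ] (Fin n' → ℂ), (∀ x y, q' (g x) (g y) = q x y) ∧
      ∀ X ∈ R, ∀ x, X.2 (g x) = g (X.1 x) := by
  have H : LinkIso.Hyp q e f := ⟨hs, he, hf, hef⟩
  have H' : LinkIso.Hyp q' e' f' := ⟨hs', he', hf', hef'⟩
  have G : LinkIso.Gr q q' R := ⟨hbr, hsk, hpr, hpr', hl⟩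
  obtain ⟨g, hg, hgs⟩ := G.exg H H' hR
  have hR2 : (wed q f e, wed q' f' e') ∈ R := by
    rw [LinkIso.wed_swap f e, LinkIso.wed_swap f' e']
    exact R.neg_mem hR
  obtain ⟨h, hh, _⟩ := G.exg H.swap H'.swap hR2
  have hg' : ∀ z, q e z = 0 → q f z = 0 → (wed q e z, wed q' e' (g z)) ∈ R ∧
      q' e' (g z) = 0 ∧ q' f' (g z) = 0 :=
    fun z h1 h2 => ⟨(hg z h1 h2).1, (hg z h1 h2).2.1, (hg z h1 h2).2.2.1⟩
  have hh' : ∀ z, q e z = 0 → q f z = 0 → (wed q f z, wed q' f' (h z)) ∈ R ∧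
      q' e' (h z) = 0 ∧ q' f' (h z) = 0 :=
    fun z h1 h2 => ⟨(hh z h2 h1).1, (hh z h2 h1).2.2.1, (hh z h2 h1).2.1⟩
  have hc := fun z y z1 z2 y1 y2 => G.cross H H' hR hg' hh' (z := z) (y := y) z1 z2 y1 y2
  obtain ⟨z₀, h1, h2, h3⟩ := LinkIso.exz (by rw [Module.finrank_fin_fun]; omega) H hnd
  obtain ⟨μ, hμ, hm⟩ := LinkIso.prop (fun z h1 h2 => (hg z h1 h2).2.2.2)
    (fun z h1 h2 => (hh z h2 h1).2.2.2) hc h1 h2 h3
  have hi : ∀ z y, q e z = 0 → q f z = 0 → q e y = 0 → q f y = 0 →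
      μ * μ * q' (g z) (g y) = q z y := by
    intro z y z1 z2 y1 y2
    have h4 := (hc z y z1 z2 y1 y2).1
    rw [hm z z1 z2, hm y y1 y2, map_smul, map_smul, smul_eq_mul, smul_eq_mul,
      hs' (g y) (g z)] at h4
    linear_combination h4 / 2
  have hp := LinkIso.pairs G H H' hR hμ hg' hh' hm hi
  have hT := LinkIso.gh_iso H H' hμ (fun z h1 h2 => (hg' z h1 h2).2) hi
  have hbij : Function.Bijective (LinkIso.gh q e f e' f' g μ) := by
    constructor
    · rw [← LinearMap.ker_eq_bot, LinearMap.ker_eq_bot']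
      intro x hx
      apply hnd.1
      intro y
      rw [← hT x y, hx, map_zero, LinearMap.zero_apply]
    · intro y
      obtain ⟨a, b, z', rfl, y1, y2⟩ := LinkIso.decomp H' y
      obtain ⟨z, z1, z2, rfl⟩ := hgs z' y1 y2
      refine ⟨(a * μ) • e + (b * μ⁻¹) • f + μ⁻¹ • z, ?_⟩
      rw [LinkIso.gh_exp H g μ _ _ (by rw [map_smul, z1, smul_zero])
        (by rw [map_smul, z2, smul_zero]), map_smul, smul_smul, mul_inv_cancel₀ hμ,
        mul_assoc, mul_inv_cancel₀ hμ, mul_assoc, inv_mul_cancel₀ hμ]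
      simp
  refine ⟨LinearEquiv.ofBijective _ hbij, hT, ?_⟩
  intro X hX x
  exact LinkIso.final G H hs' hT hp h1 h2 h3 hX x

end Pool.Agent.KSP
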