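import Pool.Agent.KSP.Fam2
import Pool.Agent.KSP.Goursat
import Pool.Agent.KSP.LinkHyp
import Pool.Agent.KSP.LinkIso

/-!
Products of Kuga-Satake varieties: independence of the factors.
-/

namespace Pool.Agent.KSP

open Module Matrix Pool.Agent.Helper7 Pool.Agent.Ball Pool.Agent.KS Pool.Agent.Helper28.GPC

section skw

variable {V : Type} [AddCommGroup V] [Module ℂ V] {q : LinearMap.BilinForm ℂ V}

lemma Skw.add {A B : Module.End ℂ V} (hA : Skw q A) (hB : Skw q B) : Skw q (A + B) := by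
  intro u v
  rw [LinearMap.add_apply, LinearMap.add_apply, map_add, LinearMap.add_apply, map_add,
    add_add_add_comm, hA, hB, add_zero]

lemma Skw.zero : Skw q (0 : Module.End ℂ V) := by
  intro u v
  rw [LinearMap.zero_apply, LinearMap.zero_apply, map_zero, LinearMap.zero_apply, map_zero,
    add_zero]

lemma Skw.smul (c : ℂ) {A : Module.End ℂ V} (hA : Skw q A) : Skw q (c • A) := by
  intro u v
  rw [LinearMap.smul_apply, LinearMap.smul_apply, map_smul, LinearMap.smul_apply, map_smul,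
    ← smul_add, hA, smul_zero]

lemma Skw.bracket {A B : Module.End ℂ V} (hA : Skw q A) (hB : Skw q B) :
    Skw q (A * B - B * A) := by
  intro u v
  rw [LinearMap.sub_apply, LinearMap.sub_apply, Module.End.mul_apply, Module.End.mul_apply,
    Module.End.mul_apply, Module.End.mul_apply, map_sub, LinearMap.sub_apply, map_sub]
  have h1 := hA (B u) v
  have h2 := hB (A u) v
  have h3 := hA u (B v)
  have h4 := hB u (A v)
  linear_combination h1 - h2 + h3 - h4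

end skw

lemma exists_skw {n : ℕ} (hn : 2 ≤ n) (q : LinearMap.BilinForm ℂ (Fin n → ℂ))
    (hs : ∀ x y, q x y = q y x) (hnd : q.Nondegenerate) :
    ∃ A : Module.End ℂ (Fin n → ℂ), Skw q A ∧ A ≠ 0 := by
  let a : Fin n := ⟨0, by omega⟩
  let b : Fin n := ⟨1, by omega⟩
  have hab : b ≠ a := by
    intro h
    have := congrArg Fin.val h
    simp [a, b] at this
  refine ⟨wed q (Pi.single a 1) (Pi.single b 1), wed_skew' q hs _ _, fun h0 => ?_⟩
  have h1 : ∀ z, q (Pi.single b 1) z = 0 := by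
    intro z
    have e1 := congrFun (LinearMap.congr_fun h0 z) a
    rw [wed_apply, LinearMap.zero_apply, Pi.sub_apply, Pi.smul_apply, Pi.smul_apply,
      Pi.single_eq_same, Pi.single_eq_of_ne (Ne.symm hab), smul_zero, sub_zero, smul_eq_mul,
      mul_one] at e1
    exact e1
  have h2 := hnd.1 _ h1
  have h3 := congrFun h2 b
  rw [Pi.single_eq_same] at h3
  exact one_ne_zero h3

section fam

variable {I : Type} [Fintype I] [DecidableEq I] (n : I → ℕ) {κ : I → Type}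
    [∀ i, Fintype (κ i)] [∀ i, DecidableEq (κ i)] {ϖ : ℂ} (hϖ : ϖ ≠ 0) (P : ∀ i, PData (κ i) ϖ)
    {d : I → ℕ} {G : ∀ i, Matrix (Fin (d i)) (Fin (d i)) ℚ}
    {t : ∀ i, Fin (d i) → Module.End ℂ (κ i → ℂ)}
    (K : ∀ i, KSD (P i) (G i) (t i)) {k : ℕ}
    (γ : MultilinearMap ℂ (fun _ : Fin (2 * k) => HW κ n) ℂ)
    (hB : ∀ v : Fin (2 * k) → HW κ n, (∀ r, IsRatP n P (v r)) → ∃ q : ℚ, γ v = ϖ ^ k * q)
    (hA : ∀ v : Fin (2 * k) → HW κ n, (∀ r i m j, IsAlgebraic ℚ (v r i m j)) →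
      IsAlgebraic ℚ (γ v))
    (hP : ∀ i, HNd (P i)) (hn : ∀ i, 3 ≤ d i) (hn5 : ∀ i, d i ≠ 5)
    (hG : ∀ i, (G i)ᵀ = G i)
    (hsig : ∀ i, Sig2 (rm (G i)) ∨ Sig2 (-(rm (G i))))
    (hT : ∀ X : GG κ, IsInv n P γ X → ∀ i, ∃ M, Act (t i) (X.1 i) M)
    (hTg : ∀ g : (i : I) → Module.End ℂ (κ i → ℂ), IsGrp n P γ g → ∀ i,
      ∃ A : Module.End ℂ (Fin (d i) → ℂ), ∀ x, g i * tau (t i) x = tau (t i) (A x) * g i)
    (hHom : ∀ i j, i ≠ j → ∀ f : (κ i → ℂ) →ₗ[ℂ] (κ j → ℂ), IsDRB (P i) (P j) f → f = 0)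

/-- the action of the symmetries on the quadratic spaces -/
def RR : Submodule ℂ (∀ i, Module.End ℂ (Fin (d i) → ℂ)) where
  carrier := {M | (∀ i, Skw (bil (rm (G i))) (M i)) ∧ ∃ X : GG κ, IsInv n P γ X ∧ X.2 = 0 ∧
    ∀ i, Act (t i) (X.1 i) (M i)}
  add_mem' := by
    rintro M M' ⟨h1, X, hX, hX2, hXM⟩ ⟨h1', X', hX', hX'2, hXM'⟩
    refine ⟨fun i => (h1 i).add (h1' i), X + X', hX.add _ _ _ hX', ?_,
      fun i => (hXM i).add (hXM' i)⟩
    show X.2 + X'.2 = 0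
    rw [hX2, hX'2, add_zero]
  zero_mem' := by
    refine ⟨fun i => Skw.zero, 0, IsInv.zero _ _ _, rfl, fun i x => ?_⟩
    show (0 : Module.End ℂ (κ i → ℂ)) * tau (t i) x - tau (t i) x * 0 = tau (t i) 0
    rw [map_zero, zero_mul, mul_zero, sub_zero]
  smul_mem' := by
    rintro c M ⟨h1, X, hX, hX2, hXM⟩
    refine ⟨fun i => (h1 i).smul c, c • X, hX.smul _ _ _ c, ?_, fun i => (hXM i).smul c⟩
    show c * X.2 = 0
    rw [hX2, mul_zero]

lemma mem_RR (M : ∀ i, Module.End ℂ (Fin (d i) → ℂ)) :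
    M ∈ RR n P (G := G) (t := t) γ ↔ (∀ i, Skw (bil (rm (G i))) (M i)) ∧
      ∃ X : GG κ, IsInv n P γ X ∧ X.2 = 0 ∧ ∀ i, Act (t i) (X.1 i) (M i) := Iff.rfl

lemma RR_bracket (M M' : ∀ i, Module.End ℂ (Fin (d i) → ℂ))
    (h : M ∈ RR n P (G := G) (t := t) γ) (h' : M' ∈ RR n P (G := G) (t := t) γ) :
    M * M' - M' * M ∈ RR n P (G := G) (t := t) γ := by
  obtain ⟨h1, X, hX, hX2, hXM⟩ := h
  obtain ⟨h1', X', hX', hX'2, hXM'⟩ := h'
  refine ⟨fun i => (h1 i).bracket (h1' i), X * X' - X' * X, hX.bracket _ _ _ hX', ?_,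
    fun i => (hXM i).bracket (hXM' i)⟩
  show X.2 * X'.2 - X'.2 * X.2 = 0
  rw [hX2, hX'2]; ring

include K hT in
/-- the action of a symmetry -/
lemma exists_fam (X : GG κ) (hX : IsInv n P γ X) (hX2 : X.2 = 0) :
    ∃ M ∈ RR n P (G := G) (t := t) γ, ∀ i, Act (t i) (X.1 i) (M i) := by
  classical
  have h : ∀ i, ∃ M, Act (t i) (X.1 i) M ∧ Skw (bil (rm (G i))) M := by
    intro i
    rcases isEmpty_or_nonempty (κ i) with hκ | hκ
    · refine ⟨0, fun x => ?_, Skw.zero⟩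
      apply LinearMap.ext
      intro v
      funext j
      exact hκ.elim j
    · obtain ⟨M, hM⟩ := hT X hX i
      exact ⟨M, hM, fun u v => hM.skew (K i).cliff u v⟩
  choose M hM using h
  exact ⟨M, ⟨fun i => (hM i).2, X, hX, hX2, fun i => (hM i).1⟩, fun i => (hM i).1⟩

include hϖ K hB hA hP hn hn5 hG hsig hT hTg in
lemma RR_proj (i : I) (A : Module.End ℂ (Fin (d i) → ℂ)) (hA' : Skw (bil (rm (G i))) A) :
    ∃ M ∈ RR n P (G := G) (t := t) γ, M i = A := by
  rcases isEmpty_or_nonempty (κ i) with hκ | hκ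
  · refine ⟨Pi.single i A, ⟨fun j => ?_, 0, IsInv.zero _ _ _, rfl, fun j => ?_⟩,
      Pi.single_eq_same _ _⟩
    · by_cases h : j = i
      · subst h
        rw [Pi.single_eq_same]
        exact hA'
      · rw [Pi.single_eq_of_ne h]
        exact Skw.zero
    · by_cases h : j = i
      · subst h
        intro x
        apply LinearMap.ext
        intro v
        funext j
        exact hκ.elim j
      · rw [Pi.single_eq_of_ne h]
        intro x
        show (0 : Module.End ℂ (κ j → ℂ)) * tau (t j) x - tau (t j) x * 0 = tau (t j) 0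
        rw [map_zero, zero_mul, mul_zero, sub_zero]
  · obtain ⟨X, hX, hX2, hXA⟩ := skew_memF n hϖ P i (K i) γ hB hA hκ (hP i) (hn i) (hn5 i) (hG i)
      (hsig i) (fun X hX => hT X hX i) (fun g hg => hTg g hg i) A hA'
    obtain ⟨M, hM, hMX⟩ := exists_fam n P K γ hT X hX hX2
    refine ⟨M, hM, ?_⟩
    have hnd := nondeg_of_sig (rm (G i)) (rm_symm (hG i)) (hsig i)
    exact Act.unique (tau_injective (K i).cliff hnd) (hMX i) hXA

include hϖ K hB hA hP hn hn5 hG hsig hT hTg in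
/-- a link between two factors gives a homomorphism -/
lemma hom_of_link (i j : I) (hd : (d i = 3 ∨ 6 ≤ d i) ∧ (d j = 3 ∨ 6 ≤ d j)) (hκ : Nonempty (κ i))
    (hκ' : Nonempty (κ j))
    (hl : ∀ M ∈ RR n P (G := G) (t := t) γ, M i = 0 ↔ M j = 0) :
    ∃ f : (κ i → ℂ) →ₗ[ℂ] (κ j → ℂ), IsDRB (P i) (P j) f ∧ f ≠ 0 := by
  classical
  have hnd : ∀ i, (bil (rm (G i))).Nondegenerate := fun i =>
    nondeg_of_sig (rm (G i)) (rm_symm (hG i)) (hsig i)
  let pr : (∀ i, Module.End ℂ (Fin (d i) → ℂ)) →ₗ[ℂ]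
      Module.End ℂ (Fin (d i) → ℂ) × Module.End ℂ (Fin (d j) → ℂ) :=
    (LinearMap.proj i).prod (LinearMap.proj j)
  obtain ⟨R, hR⟩ : ∃ R, R = (RR n P (G := G) (t := t) γ).map pr := ⟨_, rfl⟩
  have hmem : ∀ X, X ∈ R ↔ ∃ M ∈ RR n P (G := G) (t := t) γ, (M i, M j) = X := by
    intro X
    rw [hR]
    exact Submodule.mem_map
  have hbr : ∀ X ∈ R, ∀ Y ∈ R, X * Y - Y * X ∈ R := by
    intro X hX Y hY
    rw [hmem] at hX hY ⊢
    obtain ⟨M, hM, rfl⟩ := hX
    obtain ⟨M', hM', rfl⟩ := hY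
    exact ⟨_, RR_bracket n P γ M M' hM hM', rfl⟩
  have hsk : ∀ X ∈ R, Skw (bil (rm (G i))) X.1 ∧ Skw (bil (rm (G j))) X.2 := by
    intro X hX
    rw [hmem] at hX
    obtain ⟨M, hM, rfl⟩ := hX
    exact ⟨hM.1 i, hM.1 j⟩
  have hpr : ∀ A, Skw (bil (rm (G i))) A → ∃ X ∈ R, X.1 = A := by
    intro A hA'
    obtain ⟨M, hM, hMA⟩ := RR_proj n hϖ P K γ hB hA hP hn hn5 hG hsig hT hTg i A hA'
    exact ⟨(M i, M j), (hmem _).mpr ⟨M, hM, rfl⟩, hMA⟩
  have hpr' : ∀ A, Skw (bil (rm (G j))) A → ∃ X ∈ R, X.2 = A := by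
    intro A hA'
    obtain ⟨M, hM, hMA⟩ := RR_proj n hϖ P K γ hB hA hP hn hn5 hG hsig hT hTg j A hA'
    exact ⟨(M i, M j), (hmem _).mpr ⟨M, hM, rfl⟩, hMA⟩
  have hl' : ∀ X ∈ R, X.1 = 0 ↔ X.2 = 0 := by
    intro X hX
    rw [hmem] at hX
    obtain ⟨M, hM, rfl⟩ := hX
    exact hl M hM
  have hconj : ∀ X ∈ R, ∃ X' ∈ R, (∀ v, X'.1 v = star (X.1 (star v))) ∧
      ∀ v, X'.2 v = star (X.2 (star v)) := by
    intro X hX
    rw [hmem] at hX
    obtain ⟨M, ⟨hM1, Y, hY, hY2, hYM⟩, rfl⟩ := hX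
    obtain ⟨Y', hY', hY'2, hc⟩ := exists_conj n hϖ P γ hB Y hY hY2
    obtain ⟨M', hM', hY'M⟩ := exists_fam n P K γ hT Y' hY' hY'2
    refine ⟨(M' i, M' j), (hmem _).mpr ⟨M', hM', rfl⟩, fun x => ?_, fun x => ?_⟩
    · apply tau_injective (K i).cliff (hnd i)
      show tau (t i) (M' i x) = _
      rw [← hY'M i x]
      exact hc i _ (G i) (t i) (K i) _ (hYM i) x
    · apply tau_injective (K j).cliff (hnd j)
      show tau (t j) (M' j x) = _
      rw [← hY'M j x]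
      exact hc j _ (G j) (t j) (K j) _ (hYM j) x
  obtain ⟨e, f, e', f', he, hf, hef, he', hf', hef', hw⟩ :=
    link_hyp hd.1 hd.2 (rm (G i)) (rm_symm (hG i)) (hsig i) (rm (G j)) (rm_symm (hG j)) (hsig j)
      R hbr hsk hpr hpr' hl' hconj
  obtain ⟨g, hg1, hg2⟩ := link_iso (hn i) (hn j) (bil (rm (G i))) (bil_symm (rm_symm (hG i)))
    (hnd i) (bil (rm (G j))) (bil_symm (rm_symm (hG j))) (hnd j) R hbr hsk hpr hpr' hl'
    (cx e) (cx f) (cx e') (cx f') (by rw [bil_cx, he]; simp) (by rw [bil_cx, hf]; simp)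
    (by rw [bil_cx, hef]; simp) (by rw [bil_cx, he']; simp) (by rw [bil_cx, hf']; simp)
    (by rw [bil_cx, hef']; simp) hw
  -- the homomorphism of Clifford modules
  have hne : (LinearMap.id : ((κ i → ℂ) →ₗ[ℂ] (κ j → ℂ)) →ₗ[ℂ] ((κ i → ℂ) →ₗ[ℂ] (κ j → ℂ))) ≠ 0 := by
    intro h0
    obtain ⟨a⟩ := hκ
    obtain ⟨b⟩ := hκ'
    have h1 := LinearMap.congr_fun h0 ((LinearMap.proj a).smulRight (Pi.single b 1))
    have h2 := congrFun (LinearMap.congr_fun h1 (Pi.single a 1)) b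
    rw [LinearMap.id_apply, LinearMap.smulRight_apply, LinearMap.zero_apply,
      LinearMap.zero_apply, Pi.zero_apply, Pi.smul_apply, LinearMap.proj_apply, Pi.single_eq_same,
      Pi.single_eq_same, smul_eq_mul, mul_one] at h2
    exact one_ne_zero h2
  obtain ⟨F, hF, hF0⟩ := avg (bil (rm (G i))) (bil_symm (rm_symm (hG i))) (hnd i) (tau (t i))
    ((tau (t j)) ∘ₗ (g : (Fin (d i) → ℂ) →ₗ[ℂ] (Fin (d j) → ℂ))) (tau_cliff (K i).cliff)
    (by
      intro x y
      have h1 := tau_cliff (K j).cliff (g x) (g y)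
      rw [hg1] at h1
      exact h1) LinearMap.id (fun x f => rfl) (fun x f => rfl) hne
  have hF0' : F ≠ 0 := hF0
  have hFI0 : ∀ X : GG κ, IsInv n P γ X → X.2 = 0 → F ∘ₗ X.1 i = X.1 j ∘ₗ F := by
    intro X hX hX2
    obtain ⟨M, hM, hMX⟩ := exists_fam n P K γ hT X hX hX2
    obtain ⟨s, hs⟩ := exists_bv (t := t i) (bil (rm (G i))) (bil_symm (rm_symm (hG i))) (hnd i)
      (M i) (hM.1 i)
    have h1 := eq_bv n hϖ P i (K i) γ (hP i) (hn i) (hn5 i) (hG i) (hsig i) X hX hX2 (hMX i) hs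
    obtain ⟨s', M', h2, h3, h4⟩ := hs.trans (t' := t j) (q' := bil (rm (G j))) g hg1 F hF
    have h5 : M' = M j := by
      apply LinearMap.ext
      intro y
      obtain ⟨x, rfl⟩ := g.surjective y
      rw [h3]
      exact (hg2 (M i, M j) ((hmem _).mpr ⟨M, hM, rfl⟩) x).symm
    rw [h5] at h2
    have h6 := eq_bv n hϖ P j (K j) γ (hP j) (hn j) (hn5 j) (hG j) (hsig j) X hX hX2 (hMX j) h2
    rw [h1, h6, h4]
  have hFI : ∀ X : GG κ, IsInv n P γ X → F ∘ₗ X.1 i = X.1 j ∘ₗ F := by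
    intro X hX
    have h1 := hFI0 (X + (-X.2) • ((fun _ => (1 / 2 : ℂ) • (1 : Module.End ℂ _), 1) : GG κ))
      (hX.add _ _ _ ((Helper98.Ball.isInv_homothety _ _ _).smul _ _ _ _)) (by
        show X.2 + (-X.2) * 1 = 0
        ring)
    apply LinearMap.ext
    intro v
    have h2 := LinearMap.congr_fun h1 v
    have h3 : F (X.1 i v + (-X.2) • ((1 / 2 : ℂ) • v)) =
      X.1 j (F v) + (-X.2) • ((1 / 2 : ℂ) • F v) := h2
    rw [map_add, map_smul, map_smul] at h3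
    exact add_right_cancel h3
  obtain ⟨m, c, F', hF', hβ⟩ := bilin_of_inv n P γ hϖ hB hA i j ((P j).ψ ∘ₗ F) (by
    intro X hX u v
    have h1 : F (X.1 i u) = X.1 j (F u) := LinearMap.congr_fun (hFI X hX) u
    show (P j).ψ (F (X.1 i u)) v + (P j).ψ (F u) (X.1 j v) = X.2 * (P j).ψ (F u) v
    rw [h1]
    exact hX.pol j (F u) v)
  by_contra hcon
  push Not at hcon
  apply hF0'
  apply LinearMap.ext
  intro u
  rw [LinearMap.zero_apply]
  apply (P j).hψnd
  intro v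
  have h1 : (P j).ψ (F u) v = ∑ l, c l * (P j).ψ (F' l u) v := hβ u v
  rw [h1]
  refine Finset.sum_eq_zero fun l _ => ?_
  rw [hcon (F' l) (hF' l), LinearMap.zero_apply, map_zero, LinearMap.zero_apply, mul_zero]

include hϖ K hB hA hP hn hn5 hG hsig hT hTg hHom in
/-- two different factors are not linked -/
lemma not_linked (hn4 : ∀ i, d i ≠ 4) (i j : I) (hij : i ≠ j) :
    ∃ M ∈ RR n P (G := G) (t := t) γ, M j = 0 ∧ M i ≠ 0 := by
  classical
  have hnd : ∀ i, (bil (rm (G i))).Nondegenerate := fun i =>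
    nondeg_of_sig (rm (G i)) (rm_symm (hG i)) (hsig i)
  have hd : ∀ i, d i = 3 ∨ 6 ≤ d i := by
    intro i
    have h1 := hn i
    have h2 := hn4 i
    have h3 := hn5 i
    omega
  have hz : ∀ l, Act (t l) (0 : Module.End ℂ (κ l → ℂ)) 0 := by
    intro l x
    show (0 : Module.End ℂ (κ l → ℂ)) * tau (t l) x - tau (t l) x * 0 = tau (t l) 0
    rw [map_zero, zero_mul, mul_zero, sub_zero]
  obtain ⟨A, hA1, hA0⟩ := exists_skw (by have := hn i; omega) (bil (rm (G i)))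
    (bil_symm (rm_symm (hG i))) (hnd i)
  rcases isEmpty_or_nonempty (κ i) with hκ | hκ
  · refine ⟨Pi.single i A, ⟨fun l => ?_, 0, IsInv.zero _ _ _, rfl, fun l => ?_⟩, ?_, ?_⟩
    · by_cases h : l = i
      · subst h
        rw [Pi.single_eq_same]
        exact hA1
      · rw [Pi.single_eq_of_ne h]
        exact Skw.zero
    · by_cases h : l = i
      · subst h
        intro x
        apply LinearMap.ext
        intro v
        funext j
        exact hκ.elim j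
      · rw [Pi.single_eq_of_ne h]
        exact hz l
    · rw [Pi.single_eq_of_ne (Ne.symm hij)]
    · rw [Pi.single_eq_same]
      exact hA0
  obtain ⟨M, hM, hMA⟩ := RR_proj n hϖ P K γ hB hA hP hn hn5 hG hsig hT hTg i A hA1
  rcases isEmpty_or_nonempty (κ j) with hκ' | hκ'
  · obtain ⟨hM1, X, hX, hX2, hXM⟩ := hM
    refine ⟨Function.update M j 0, ⟨fun l => ?_, X, hX, hX2, fun l => ?_⟩, ?_, ?_⟩
    · by_cases h : l = j
      · subst h
        rw [Function.update_self]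
        exact Skw.zero
      · rw [Function.update_of_ne h]
        exact hM1 l
    · by_cases h : l = j
      · subst h
        intro x
        apply LinearMap.ext
        intro v
        funext j
        exact hκ'.elim j
      · rw [Function.update_of_ne h]
        exact hXM l
    · rw [Function.update_self]
    · rw [Function.update_of_ne hij, hMA]
      exact hA0
  by_contra hcon
  push Not at hcon
  have hl : ∀ M ∈ RR n P (G := G) (t := t) γ, M i = 0 ↔ M j = 0 := by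
    intro M' hM'
    refine ⟨fun h0 => ?_, fun h0 => hcon M' hM' h0⟩
    by_contra hj0
    let 𝔞 : Submodule ℂ (Module.End ℂ (Fin (d j) → ℂ)) :=
      { carrier := {B | ∃ N ∈ RR n P (G := G) (t := t) γ, N i = 0 ∧ N j = B}
        add_mem' := by
          rintro B B' ⟨N, hN, hN0, hNB⟩ ⟨N', hN', hN'0, hNB'⟩
          refine ⟨N + N', Submodule.add_mem _ hN hN', ?_, ?_⟩
          · rw [Pi.add_apply, hN0, hN'0, add_zero]
          · rw [Pi.add_apply, hNB, hNB']
        zero_mem' := ⟨0, Submodule.zero_mem _, rfl, rfl⟩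
        smul_mem' := by
          rintro c B ⟨N, hN, hN0, hNB⟩
          refine ⟨c • N, Submodule.smul_mem _ _ hN, ?_, ?_⟩
          · rw [Pi.smul_apply, hN0, smul_zero]
          · rw [Pi.smul_apply, hNB] }
    have htop := ideal_top (by have := hd j; omega) (bil (rm (G j)))
      (bil_symm (rm_symm (hG j))) (hnd j) 𝔞 (by
        rintro B ⟨N, hN, -, rfl⟩
        exact hN.1 j) (by
        rintro B ⟨N, hN, hN0, rfl⟩ C hC
        obtain ⟨N', hN', hNC⟩ := RR_proj n hϖ P K γ hB hA hP hn hn5 hG hsig hT hTg j C hC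
        refine ⟨N' * N - N * N', RR_bracket n P γ _ _ hN' hN, ?_, ?_⟩
        · rw [Pi.sub_apply, Pi.mul_apply, Pi.mul_apply, hN0, mul_zero, zero_mul, sub_zero]
        · rw [Pi.sub_apply, Pi.mul_apply, Pi.mul_apply, hNC]) (M' j) ⟨M', hM', h0, rfl⟩ hj0
    obtain ⟨N, hN, hN0, hNj⟩ := htop (M j) (hM.1 j)
    have h1 := hcon (M - N) (Submodule.sub_mem _ hM hN) (by rw [Pi.sub_apply, hNj, sub_self])
    rw [Pi.sub_apply, hN0, sub_zero, hMA] at h1
    exact hA0 h1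
  obtain ⟨f, hf, hf0⟩ := hom_of_link n hϖ P K γ hB hA hP hn hn5 hG hsig hT hTg i j
    ⟨hd i, hd j⟩ hκ hκ' hl
  exact hf0 (hHom i j hij f hf)

include hϖ K hB hA hP hn hn5 hG hsig hT hTg hHom in
/-- the symmetries contain the concentrated ones -/
lemma RR_single (hn4 : (∀ i, d i ≠ 4) ∨ Subsingleton I) (i : I)
    (A : Module.End ℂ (Fin (d i) → ℂ)) (hA' : Skw (bil (rm (G i))) A) :
    Pi.single i A ∈ RR n P (G := G) (t := t) γ := by
  rcases hn4 with hn4 | hI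
  · refine goursat d (fun i => by have := hn i; have := hn4 i; omega) (fun i => bil (rm (G i)))
      (fun i => bil_symm (rm_symm (hG i))) (fun i => nondeg_of_sig (rm (G i)) (rm_symm (hG i))
      (hsig i)) (RR n P (G := G) (t := t) γ) (fun X hX Y hY => RR_bracket n P γ X Y hX hY)
      (fun X hX => hX.1) (fun i A hA' => RR_proj n hϖ P K γ hB hA hP hn hn5 hG hsig hT hTg i A hA')
      (fun i j hij => not_linked n hϖ P K γ hB hA hP hn hn5 hG hsig hT hTg hHom hn4 i j hij) i A hA'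
  · obtain ⟨M, hM, hMA⟩ := RR_proj n hϖ P K γ hB hA hP hn hn5 hG hsig hT hTg i A hA'
    have h1 : M = Pi.single i A := by
      funext l
      have hl : l = i := Subsingleton.elim _ _
      subst hl
      rw [Pi.single_eq_same, hMA]
    rw [← h1]
    exact hM

end fam

section main

variable {I : Type} [Fintype I] [DecidableEq I] (n : I → ℕ) {κ : I → Type}
    [∀ i, Fintype (κ i)] [∀ i, DecidableEq (κ i)] {ϖ : ℂ} (hϖ : ϖ ≠ 0) (P : ∀ i, PData (κ i) ϖ)
    {d : I → ℕ} {G : ∀ i, Matrix (Fin (d i)) (Fin (d i)) ℚ}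
    {t : ∀ i, Fin (d i) → Module.End ℂ (κ i → ℂ)}
    (K : ∀ i, KSD (P i) (G i) (t i)) {k : ℕ}
    (α : MultilinearMap ℂ (fun _ : Fin (2 * k) => HW κ n) ℂ)
    (hB : ∀ v : Fin (2 * k) → HW κ n, (∀ r, IsRatP n P (v r)) → ∃ q : ℚ, α v = ϖ ^ k * q)
    (hA : ∀ v : Fin (2 * k) → HW κ n, (∀ r i m j, IsAlgebraic ℚ (v r i m j)) →
      IsAlgebraic ℚ (α v))
    (hP : ∀ i, HNd (P i)) (hn : ∀ i, 3 ≤ d i) (hn5 : ∀ i, d i ≠ 5)
    (hn4 : (∀ i, d i ≠ 4) ∨ Subsingleton I)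
    (hG : ∀ i, (G i)ᵀ = G i)
    (hsig : ∀ i, Sig2 (rm (G i)) ∨ Sig2 (-(rm (G i))))
    (hHom : ∀ i j, i ≠ j → ∀ f : (κ i → ℂ) →ₗ[ℂ] (κ j → ℂ), IsDRB (P i) (P j) f → f = 0)

include hϖ K hB hA hP hn hn5 hn4 hG hsig hHom in
/-- the spin algebras of the factors consist of symmetries -/
theorem biv_invF (hk : 0 < k) (i : I) {M : Module.End ℂ (Fin (d i) → ℂ)}
    {s : Module.End ℂ (κ i → ℂ)} (hs : IsBv (bil (rm (G i))) (t i) M s)
    (hM : Skw (bil (rm (G i))) M) : IsInv n P α ((Pi.single i s, 0) : GG κ) := by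
  have hnd : ∀ i, (bil (rm (G i))).Nondegenerate := fun i =>
    nondeg_of_sig (rm (G i)) (rm_symm (hG i)) (hsig i)
  obtain ⟨n', k', γ, hγB, hγA, hγ1, hγ2⟩ := exists_gam_all P hG hnd K n hk α hB hA
  have hT : ∀ X : GG κ, IsInv n' P γ X → ∀ i, ∃ M, Act (t i) (X.1 i) M :=
    fun X hX => (hγ1 X hX).2
  have hTg : ∀ g : (i : I) → Module.End ℂ (κ i → ℂ), IsGrp n' P γ g → ∀ i,
      ∃ A : Module.End ℂ (Fin (d i) → ℂ), ∀ x, g i * tau (t i) x = tau (t i) (A x) * g i :=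
    fun g hg => (hγ2 g hg).2
  obtain ⟨-, X, hX, hX2, hXM⟩ := RR_single n' hϖ P K γ hγB hγA hP hn hn5 hG hsig hT hTg hHom hn4 i
    M hM
  have h1 : X = ((Pi.single i s, 0) : GG κ) := by
    refine Prod.ext ?_ hX2
    funext l
    show X.1 l = (Pi.single i s : (i : I) → Module.End ℂ (κ i → ℂ)) l
    by_cases h : l = i
    · subst h
      have e1 := hXM l
      rw [Pi.single_eq_same] at e1 ⊢
      exact eq_bv n' hϖ P l (K l) γ (hP l) (hn l) (hn5 l) (hG l) (hsig l) X hX hX2 e1 hs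
    · have e1 := hXM l
      rw [Pi.single_eq_of_ne h] at e1 ⊢
      exact eq_bv n' hϖ P l (K l) γ (hP l) (hn l) (hn5 l) (hG l) (hsig l) X hX hX2 e1
        (Submodule.zero_mem _)
  rw [← h1]
  exact (hγ1 X hX).1

include hϖ K hB hA hP hn hn5 hn4 hG hsig hHom in
/-- the spin algebras of the factors kill the class -/
theorem kill_formF (i : I) (a b : Fin (d i)) :
    actForm (lift n (Pi.single i (t i a * t i b - t i b * t i a))) α = 0 := by
  rcases Nat.eq_zero_or_pos k with rfl | hk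
  · apply MultilinearMap.ext
    intro v
    rw [actForm_apply]
    exact Finset.sum_eq_zero fun r _ => Fin.elim0 r
  have h0 : IsBv (bil (rm (G i))) (t i) (wed (bil (rm (G i))) (Pi.single a 1) (Pi.single b 1))
      ((1 / 4 : ℂ) • (tau (t i) (Pi.single a 1) * tau (t i) (Pi.single b 1) -
        tau (t i) (Pi.single b 1) * tau (t i) (Pi.single a 1))) :=
    Submodule.subset_span ⟨_, _, rfl⟩
  have h1 := (biv_invF n hϖ P K α hB hA hP hn hn5 hn4 hG hsig hHom hk i h0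
    (wed_skew' _ (bil_symm (rm_symm (hG i))) _ _)).form
  rw [mul_zero, zero_smul, tau_single, tau_single] at h1
  have h2 : (Pi.single i (t i a * t i b - t i b * t i a) : (i : I) → Module.End ℂ (κ i → ℂ)) =
      (4 : ℂ) • Pi.single i ((1 / 4 : ℂ) • (t i a * t i b - t i b * t i a)) := by
    rw [← Pi.single_smul, smul_smul]
    norm_num
  rw [h2, lift_smul, actForm_smul, h1, smul_zero]

end main

end Pool.Agent.KSP
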