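import Pool.Agent.KS.AV
import Pool.Agent.KSP.Fam3
import Pool.Agent.Helper8.HomFil

/-!
Grothendieck classes on products of powers of Kuga-Satake varieties are Hodge classes.
-/

namespace Pool.Agent.KSP

open Module Matrix Pool.Agent.Helper7 Pool.Agent.Ball Pool.Agent.Helper28.GPC Pool.Agent.KS
open Pool.Agent.GPC (AbVar IsHodge IsGrothendieck Form)
open scoped ComplexConjugate

/-- the spin algebras kill the Grothendieck classes -/
theorem kill_av {I : Type} [Fintype I] [DecidableEq I] (A : I → AbVar) (d : I → ℕ)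
    (S : ∀ i, (A i).KugaSatake (d i)) (hn : ∀ i, 3 ≤ d i) (hn5 : ∀ i, d i ≠ 5)
    (hn4 : (∀ i, d i ≠ 4) ∨ Subsingleton I)
    (hHom : ∀ i j, i ≠ j → ∀ f, (A i).IsMor (A j) f → ∀ v, f v = 0) (n : I → ℕ) (k : ℕ)
    (α : MultilinearMap ℂ (fun _ : Fin (2 * k) => HW (fun i => Fin (A i).g ⊕ Fin (A i).g) n) ℂ)
    (hB : ∀ v : Fin (2 * k) → HW (fun i => Fin (A i).g ⊕ Fin (A i).g) n,
      (∀ r, IsRatP n (fun i => pData (A i)) (v r)) →
      ∃ q : ℚ, α v = (2 * Real.pi * Complex.I) ^ k * q)
    (hA : ∀ v : Fin (2 * k) → HW (fun i => Fin (A i).g ⊕ Fin (A i).g) n,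
      (∀ r i m j, IsAlgebraic ℚ (v r i m j)) → IsAlgebraic ℚ (α v)) (i : I) (a b : Fin (d i)) :
    actForm (lift n (Pi.single i (lt (A i) (S i) a * lt (A i) (S i) b -
      lt (A i) (S i) b * lt (A i) (S i) a))) α = 0 := by
  have hϖ := Complex.two_pi_I_ne_zero
  refine kill_formF n hϖ (fun i => pData (A i)) (fun i => ksd (A i) (S i)) α hB hA
    (fun i => hnd_pData (A i)) hn hn5 hn4 (fun i => (S i).symm) (fun i => (S i).signature) ?_ i a b
  intro i j hij f hf
  apply LinearMap.ext
  intro v
  have h1 := (isDRB_iff (A i) (A j) f).mp hf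
  exact hHom i j hij f ⟨f.isLinear, h1.1, h1.2, Pool.Agent.GPC.hom_fil (A i) (A j) f f.isLinear h1.1 h1.2⟩ v

theorem main_ksF {I : Type} [Fintype I] (A : I → AbVar) (d : I → ℕ)
    (S : ∀ i, (A i).KugaSatake (d i)) (hn : ∀ i, 3 ≤ d i) (hn5 : ∀ i, d i ≠ 5)
    (hn4 : (∀ i, d i ≠ 4) ∨ Subsingleton I)
    (hHom : ∀ i j, i ≠ j → ∀ f, (A i).IsMor (A j) f → ∀ v, f v = 0) (n : I → ℕ) (k : ℕ)
    (α : Form A n (2 * k)) (hα : IsGrothendieck A n k α) : IsHodge A n k α := by
  classical
  obtain ⟨hα1, hα2⟩ := hα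
  refine ⟨hα2, fun v J hJ hv => ?_⟩
  obtain ⟨α', hα'⟩ : ∃ α' : MultilinearMap ℂ (fun _ : Fin (2 * k) =>
    HW (fun i => Fin (A i).g ⊕ Fin (A i).g) n) ℂ, α' = (α : MultilinearMap ℂ
      (fun _ : Fin (2 * k) => HW (fun i => Fin (A i).g ⊕ Fin (A i).g) n) ℂ) := ⟨_, rfl⟩
  have hB : ∀ v : Fin (2 * k) → HW (fun i => Fin (A i).g ⊕ Fin (A i).g) n,
      (∀ r, IsRatP n (fun i => pData (A i)) (v r)) →
      ∃ q : ℚ, α' v = (2 * Real.pi * Complex.I) ^ k * q := by
    intro v hv
    rw [hα']
    apply hα2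
    intro r i m
    exact (mem_pData_Q _ _).mp (hv r i m)
  have hA : ∀ v : Fin (2 * k) → HW (fun i => Fin (A i).g ⊕ Fin (A i).g) n,
      (∀ r i m j, IsAlgebraic ℚ (v r i m j)) → IsAlgebraic ℚ (α' v) := by
    rw [hα']
    exact hα1
  have hkill := kill_av A d S hn hn5 hn4 hHom n k α' hB hA
  choose x hx hhod using fun i => hod_eq (A i) (S i)
  -- sums of symmetries
  have h0 : ∀ {J : Type} (s : Finset J) (F : J → (i : I) → Module.End ℂ (A i).H1),
      (∀ a ∈ s, actForm (lift n (F a)) α' = 0) →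
      actForm (lift n (∑ a ∈ s, F a)) α' = 0 := by
    intro J s F
    induction s using Finset.cons_induction with
    | empty =>
      intro _
      rw [Finset.sum_empty, lift_zero, actForm_zero]
    | cons a s ha ih =>
      intro h
      rw [Finset.sum_cons, lift_add, actForm_add, h a (Finset.mem_cons_self a s),
        ih fun b hb => h b (Finset.mem_cons_of_mem hb), add_zero]
  have hsum : ∀ i, ∀ (f : Fin (d i) → Fin (d i) → ℂ), actForm (lift n
      (Pi.single i (∑ a, ∑ b, f a b • (lt (A i) (S i) a * lt (A i) (S i) b -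
        lt (A i) (S i) b * lt (A i) (S i) a)))) α' = 0 := by
    intro i f
    have e1 : (Pi.single i (∑ a, ∑ b, f a b • (lt (A i) (S i) a * lt (A i) (S i) b -
        lt (A i) (S i) b * lt (A i) (S i) a)) : (i : I) → Module.End ℂ (A i).H1) =
        ∑ a, ∑ b, f a b • Pi.single i (lt (A i) (S i) a * lt (A i) (S i) b -
        lt (A i) (S i) b * lt (A i) (S i) a) := by
      funext l
      rw [Finset.sum_apply]
      by_cases h : l = i
      · subst h
        rw [Pi.single_eq_same]
        refine Finset.sum_congr rfl fun a _ => ?_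
        rw [Finset.sum_apply]
        refine Finset.sum_congr rfl fun b _ => ?_
        rw [Pi.smul_apply, Pi.single_eq_same]
      · rw [Pi.single_eq_of_ne h]
        symm
        refine Finset.sum_eq_zero fun a _ => ?_
        rw [Finset.sum_apply]
        refine Finset.sum_eq_zero fun b _ => ?_
        rw [Pi.smul_apply, Pi.single_eq_of_ne h, smul_zero]
    rw [e1]
    refine h0 _ _ fun a _ => h0 _ _ fun b _ => ?_
    rw [lift_smul, actForm_smul, hkill i a b, smul_zero]
  -- the Hodge projector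
  have hact : actForm (lift n (fun i => hod (A i))) α' = (k : ℂ) • α' := by
    have e1 : (fun i => hod (A i)) = ((fun i => (1 / 2 : ℂ) • (1 : Module.End ℂ (A i).H1)) +
        ∑ i, (-(1 / (4 * bil (rm (S i).G) (x i) (star (x i)))) : ℂ) •
          Pi.single i (∑ a, ∑ b, (x i a * star (x i b)) •
          (lt (A i) (S i) a * lt (A i) (S i) b - lt (A i) (S i) b * lt (A i) (S i) a)) :
          (i : I) → Module.End ℂ (A i).H1) := by
      funext l
      rw [Pi.add_apply, Finset.sum_apply, Finset.sum_eq_single l]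
      · rw [Pi.smul_apply, Pi.single_eq_same]
        have e2 : ∑ a, ∑ b, (x l a * star (x l b)) •
            (lt (A l) (S l) a * lt (A l) (S l) b - lt (A l) (S l) b * lt (A l) (S l) a) =
            tau (lt (A l) (S l)) (x l) * tau (lt (A l) (S l)) (star (x l)) -
              tau (lt (A l) (S l)) (star (x l)) * tau (lt (A l) (S l)) (x l) := by
          rw [tau_apply, tau_apply, Finset.sum_mul_sum, Finset.sum_mul_sum,
            Finset.sum_comm (f := fun i j => (star (x l)) i • lt (A l) (S l) i *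
              x l j • lt (A l) (S l) j), ← Finset.sum_sub_distrib]
          refine Finset.sum_congr rfl fun a _ => ?_
          rw [← Finset.sum_sub_distrib]
          refine Finset.sum_congr rfl fun b _ => ?_
          rw [smul_mul_smul_comm, smul_mul_smul_comm, mul_comm ((star (x l)) b)]
          exact smul_sub _ _ _
        rw [e2, hhod]
        module
      · intro i _ hi
        rw [Pi.smul_apply, Pi.single_eq_of_ne (Ne.symm hi), smul_zero]
      · intro h; exact absurd (Finset.mem_univ _) h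
    rw [e1, lift_add, actForm_add, h0 _ _ (fun i _ => by
      rw [lift_smul, actForm_smul, hsum i, smul_zero]), add_zero]
    have h3 := (Helper98.Ball.isInv_homothety n (fun i => pData (A i)) α').form
    rw [mul_one] at h3
    exact h3
  have h4 := Helper8.zero_of_type α' (lift n (fun i => hod (A i))) (fun w => ?_) hact v J hJ
    (fun r hr => ?_)
  · rw [hα'] at h4
    exact h4
  · funext i m
    rw [lift_apply, lift_apply]
    exact hod_idem (A i) _
  · funext i m
    rw [lift_apply]
    exact (hod_fil (A i)).mp (hv r hr i m)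

end Pool.Agent.KSP
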