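import Pool.Agent.KS.Beta
import Pool.Agent.KS.SOMain2
import Pool.Agent.KS.Final1
import Pool.Agent.KSP.Defs
import Pool.Agent.KSP.GamF
import Pool.Agent.KSP.IrrF
import Pool.Agent.KSP.HypF

/-!
Products of Kuga-Satake varieties: the symmetries of a class act on every `T` by all skew operators.
-/

namespace Pool.Agent.KSP

open Module Matrix Pool.Agent.Helper7 Pool.Agent.Ball Pool.Agent.KS Pool.Agent.Helper28.GPC

section fam

variable {I : Type} [Fintype I] [DecidableEq I] {κ : I → Type}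
    [∀ i, Fintype (κ i)] [∀ i, DecidableEq (κ i)] {ϖ : ℂ} (P : ∀ i, PData (κ i) ϖ)

theorem exists_gam_all {d : I → ℕ} {G : ∀ i, Matrix (Fin (d i)) (Fin (d i)) ℚ}
    (hG : ∀ i, (G i)ᵀ = G i) (hnd : ∀ i, (bil (rm (G i))).Nondegenerate)
    {t : ∀ i, Fin (d i) → Module.End ℂ (κ i → ℂ)} (K : ∀ i, KSD (P i) (G i) (t i))
    (n : I → ℕ) {k : ℕ}
    (hk : 0 < k) (α : MultilinearMap ℂ (fun _ : Fin (2 * k) => HW κ n) ℂ)
    (hB : ∀ v : Fin (2 * k) → HW κ n, (∀ r, IsRatP n P (v r)) → ∃ q : ℚ, α v = ϖ ^ k * q)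
    (hA : ∀ v : Fin (2 * k) → HW κ n, (∀ r i m j, IsAlgebraic ℚ (v r i m j)) →
      IsAlgebraic ℚ (α v)) :
    ∃ (n' : I → ℕ) (k' : ℕ) (γ : MultilinearMap ℂ (fun _ : Fin (2 * k') => HW κ n') ℂ),
      (∀ v : Fin (2 * k') → HW κ n', (∀ r, IsRatP n' P (v r)) → ∃ q : ℚ, γ v = ϖ ^ k' * q) ∧
      (∀ v : Fin (2 * k') → HW κ n', (∀ r i m j, IsAlgebraic ℚ (v r i m j)) →
        IsAlgebraic ℚ (γ v)) ∧
      (∀ X : GG κ, IsInv n' P γ X → IsInv n P α X ∧ ∀ i, ∃ M, Act (t i) (X.1 i) M) ∧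
      ∀ g : (i : I) → Module.End ℂ (κ i → ℂ), IsGrp n' P γ g → IsGrp n P α g ∧
        ∀ i, ∃ A : Module.End ℂ (Fin (d i) → ℂ), ∀ x,
          g i * tau (t i) x = tau (t i) (A x) * g i := by
  suffices h : ∀ s : Finset I, ∃ (n' : I → ℕ) (k' : ℕ)
      (γ : MultilinearMap ℂ (fun _ : Fin (2 * k') => HW κ n') ℂ), 0 < k' ∧
      (∀ v : Fin (2 * k') → HW κ n', (∀ r, IsRatP n' P (v r)) → ∃ q : ℚ, γ v = ϖ ^ k' * q) ∧
      (∀ v : Fin (2 * k') → HW κ n', (∀ r i m j, IsAlgebraic ℚ (v r i m j)) →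
        IsAlgebraic ℚ (γ v)) ∧
      (∀ X : GG κ, IsInv n' P γ X → IsInv n P α X ∧ ∀ i ∈ s, ∃ M, Act (t i) (X.1 i) M) ∧
      ∀ g : (i : I) → Module.End ℂ (κ i → ℂ), IsGrp n' P γ g → IsGrp n P α g ∧
        ∀ i ∈ s, ∃ A : Module.End ℂ (Fin (d i) → ℂ), ∀ x,
          g i * tau (t i) x = tau (t i) (A x) * g i by
    obtain ⟨n', k', γ, -, h1, h2, h3, h4⟩ := h Finset.univ
    exact ⟨n', k', γ, h1, h2, fun X hX => ⟨(h3 X hX).1, fun i => (h3 X hX).2 i (Finset.mem_univ _)⟩,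
      fun g hg => ⟨(h4 g hg).1, fun i => (h4 g hg).2 i (Finset.mem_univ _)⟩⟩
  intro s
  induction s using Finset.induction_on with
  | empty =>
    exact ⟨n, k, α, hk, hB, hA, fun X hX => ⟨hX, fun i hi => absurd hi (Finset.notMem_empty i)⟩,
      fun g hg => ⟨hg, fun i hi => absurd hi (Finset.notMem_empty i)⟩⟩
  | insert i s _ ih =>
    obtain ⟨n', k', γ, hk', h1, h2, h3, h4⟩ := ih
    rcases isEmpty_or_nonempty (κ i) with hκ | hκ
    · have hsub : ∀ f f' : Module.End ℂ (κ i → ℂ), f = f' := fun f f' => by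
        apply LinearMap.ext
        intro v
        funext j
        exact hκ.elim j
      refine ⟨n', k', γ, hk', h1, h2, fun X hX => ⟨(h3 X hX).1, fun j hj => ?_⟩,
        fun g hg => ⟨(h4 g hg).1, fun j hj => ?_⟩⟩
      · rcases Finset.mem_insert.mp hj with rfl | hj
        · exact ⟨0, fun x => hsub _ _⟩
        · exact (h3 X hX).2 j hj
      · rcases Finset.mem_insert.mp hj with rfl | hj
        · exact ⟨0, fun x => hsub _ _⟩
        · exact (h4 g hg).2 j hj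
    · obtain ⟨β, hβB, hβA, hβ1, hβ2⟩ := exists_beta (P i) (hG i) (hnd i) (K i)
      obtain ⟨γ', hγB, hγA, hγ1, hγ2⟩ := exists_gamF n' P hk' γ h1 h2 i hκ β hβB hβA
      refine ⟨fun l => n' l + 1, k' + 2, γ', by omega, hγB, hγA, fun X hX => ?_, fun g hg => ?_⟩
      · obtain ⟨e1, e2⟩ := hγ1 X hX
        obtain ⟨e3, e4⟩ := h3 X e1
        refine ⟨e3, fun j hj => ?_⟩
        rcases Finset.mem_insert.mp hj with rfl | hj
        · exact hβ1 (X.1 j) X.2 (hX.pol j) e2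
        · exact e4 j hj
      · obtain ⟨e1, e2⟩ := hγ2 g hg
        obtain ⟨e3, e4⟩ := h4 g e1
        refine ⟨e3, fun j hj => ?_⟩
        rcases Finset.mem_insert.mp hj with rfl | hj
        · exact hβ2 (g j) (hg.pol j) e2
        · exact e4 j hj

end fam

section conj

variable {I : Type} [Fintype I] [DecidableEq I] (n : I → ℕ) {κ : I → Type}
    [∀ i, Fintype (κ i)] [∀ i, DecidableEq (κ i)] {ϖ : ℂ} (hϖ : ϖ ≠ 0) (P : ∀ i, PData (κ i) ϖ)
    {k : ℕ} (γ : MultilinearMap ℂ (fun _ : Fin (2 * k) => HW κ n) ℂ)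
    (hB : ∀ v : Fin (2 * k) → HW κ n, (∀ r, IsRatP n P (v r)) → ∃ q : ℚ, γ v = ϖ ^ k * q)

include hϖ hB in
/-- the complex conjugate of a symmetry without multiplier -/
theorem exists_conj (X : GG κ) (hX : IsInv n P γ X) (hX2 : X.2 = 0) :
    ∃ X' : GG κ, IsInv n P γ X' ∧ X'.2 = 0 ∧ ∀ (i : I) (d : ℕ)
      (G : Matrix (Fin d) (Fin d) ℚ) (t : Fin d → Module.End ℂ (κ i → ℂ))
      (_ : KSD (P i) G t) (M : Module.End ℂ (Fin d → ℂ)), Act t (X.1 i) M →
      ∀ x, X'.1 i * tau t x - tau t x * X'.1 i = tau t (star (M (star x))) := by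
  obtain ⟨X', hX', hX'2, -, hX'c⟩ := exists_real _ _ γ hϖ hB X hX
  rw [hX2, map_zero] at hX'2
  refine ⟨X', hX', hX'2, fun i d G t K M hXM x => ?_⟩
  apply LinearMap.ext
  intro v
  rw [LinearMap.sub_apply, Module.End.mul_apply, Module.End.mul_apply, hX'c, hX'c, cB_tau K]
  have h1 : tau t x (cB (P i) (X.1 i (cB (P i) v))) =
      cB (P i) (tau t (star x) (X.1 i (cB (P i) v))) := by
    rw [cB_tau K, star_star]
  have h2 := LinearMap.congr_fun (hXM (star x)) (cB (P i) v)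
  rw [LinearMap.sub_apply, Module.End.mul_apply, Module.End.mul_apply] at h2
  have h3 : tau t (star (M (star x))) v = cB (P i) (tau t (M (star x)) (cB (P i) v)) := by
    rw [cB_tau K, cB_cB]
  rw [h1, h3, ← h2, sub_eq_add_neg, sub_eq_add_neg, cB_add, cB_neg]

end conj

section skew

variable {I : Type} [Fintype I] [DecidableEq I] (n : I → ℕ) {κ : I → Type}
    [∀ i, Fintype (κ i)] [∀ i, DecidableEq (κ i)] {ϖ : ℂ} (hϖ : ϖ ≠ 0) (P : ∀ i, PData (κ i) ϖ)
    (i : I) {d : ℕ} {G : Matrix (Fin d) (Fin d) ℚ} {t : Fin d → Module.End ℂ (κ i → ℂ)}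
    (K : KSD (P i) G t) {k : ℕ}
    (γ : MultilinearMap ℂ (fun _ : Fin (2 * k) => HW κ n) ℂ)
    (hB : ∀ v : Fin (2 * k) → HW κ n, (∀ r, IsRatP n P (v r)) → ∃ q : ℚ, γ v = ϖ ^ k * q)
    (hA : ∀ v : Fin (2 * k) → HW κ n, (∀ r i m j, IsAlgebraic ℚ (v r i m j)) →
      IsAlgebraic ℚ (γ v))
    (hκ : Nonempty (κ i)) (hP : HNd (P i)) (hn : 3 ≤ d) (hn5 : d ≠ 5) (hG : Gᵀ = G)
    (hsig : Sig2 (rm G) ∨ Sig2 (-(rm G)))
    (hT : ∀ X : GG κ, IsInv n P γ X → ∃ M, Act t (X.1 i) M)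
    (hTg : ∀ g : (i : I) → Module.End ℂ (κ i → ℂ), IsGrp n P γ g →
      ∃ A : Module.End ℂ (Fin d → ℂ), ∀ x, g i * tau t x = tau t (A x) * g i)

include hϖ K hB hA hκ hP hn hn5 hG hsig hT hTg in
/-- the symmetries act on `T` by all skew operators -/
theorem skew_memF (M : Module.End ℂ (Fin d → ℂ)) (hM : Skw (bil (rm G)) M) :
    ∃ X : GG κ, IsInv n P γ X ∧ X.2 = 0 ∧ Act t (X.1 i) M := by
  have hnd := nondeg_of_sig (rm G) (rm_symm hG) hsig
  have hinj := tau_injective K.cliff hnd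
  have hirr := irr_TF n hϖ P i K γ hB hA hκ hP hn hG hnd hT
  obtain ⟨hpos, hneg⟩ := sig_pos hn hsig
  obtain ⟨Y, MB, hY, hY2, hYM, hMB0, hMBr, hMBd⟩ :=
    exists_hypF n hϖ P i K γ hB hκ hG hnd hpos hneg hT hTg hirr
  let L : Submodule ℂ (Module.End ℂ (Fin d → ℂ)) :=
    { carrier := {M | ∃ X : GG κ, IsInv n P γ X ∧ X.2 = 0 ∧ Act t (X.1 i) M}
      add_mem' := by
        rintro M M' ⟨X, hX, hX2, hXM⟩ ⟨X', hX', hX'2, hXM'⟩
        refine ⟨X + X', hX.add _ _ _ hX', ?_, hXM.add hXM'⟩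
        show X.2 + X'.2 = 0
        rw [hX2, hX'2, add_zero]
      zero_mem' := by
        refine ⟨0, IsInv.zero _ _ _, rfl, ?_⟩
        intro x
        show (0 : Module.End ℂ (κ i → ℂ)) * tau t x - tau t x * 0 = tau t 0
        rw [map_zero, zero_mul, mul_zero, sub_zero]
      smul_mem' := by
        rintro c M ⟨X, hX, hX2, hXM⟩
        refine ⟨c • X, hX.smul _ _ _ c, ?_, hXM.smul c⟩
        show c * X.2 = 0
        rw [hX2, mul_zero] }
  suffices h : M ∈ L from h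
  refine so_main2' hn hn5 (rm G) (rm_symm hG) hsig L ?_ ?_ ?_ ?_ MB ⟨Y, hY, hY2, hYM⟩ hMB0 hMBr hMBd
    M hM
  · rintro M ⟨X, hX, hX2, hXM⟩ M' ⟨X', hX', hX'2, hXM'⟩
    refine ⟨X * X' - X' * X, hX.bracket _ _ _ hX', ?_, hXM.bracket hXM'⟩
    show X.2 * X'.2 - X'.2 * X.2 = 0
    rw [hX2, hX'2]; ring
  · rintro M ⟨X, hX, hX2, hXM⟩ u v
    exact hXM.skew K.cliff u v
  · rintro M ⟨X, hX, hX2, hXM⟩
    obtain ⟨X', hX', hX'2, hc⟩ := exists_conj n hϖ P γ hB X hX hX2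
    obtain ⟨M', hM'⟩ := hT X' hX'
    refine ⟨M', ⟨X', hX', hX'2, hM'⟩, ?_⟩
    intro x
    apply hinj
    rw [← hM' x]
    exact hc i d G t K M hXM x
  · intro W hW
    apply hirr W
    intro X M hX hXM
    apply hW
    refine ⟨X + (-X.2) • ((fun _ => (1 / 2 : ℂ) • (1 : Module.End ℂ _), 1) : GG κ),
      hX.add _ _ _ ((Helper98.Ball.isInv_homothety _ _ _).smul _ _ _ _), ?_, ?_⟩
    · show X.2 + (-X.2) * 1 = 0
      ring
    · intro x
      show (X.1 i + (-X.2) • ((1 / 2 : ℂ) • (1 : Module.End ℂ (κ i → ℂ)))) * tau t x -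
        tau t x * (X.1 i + (-X.2) • ((1 / 2 : ℂ) • (1 : Module.End ℂ (κ i → ℂ)))) = _
      rw [← hXM x, add_mul, mul_add, smul_mul_assoc, smul_mul_assoc, mul_smul_comm, mul_smul_comm,
        one_mul, mul_one]
      abel

end skew

section bv

variable {V : Type} [AddCommGroup V] [Module ℂ V] {n : ℕ} {t : Fin n → Module.End ℂ V}

/-- skew operators are combinations of bivectors -/
lemma skw_mem_span (q : LinearMap.BilinForm ℂ (Fin n → ℂ)) (hs : ∀ x y, q x y = q y x)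
    (hnd : q.Nondegenerate) (M : Module.End ℂ (Fin n → ℂ)) (hM : Skw q M) :
    M ∈ Submodule.span ℂ {A | ∃ x y, A = wed q x y} := by
  obtain ⟨v, hv⟩ := LinearMap.BilinForm.exists_orthogonal_basis (B := q) ⟨fun x y => hs x y⟩
  have hv0 := LinearMap.BilinForm.iIsOrtho.not_isOrtho_basis_self_of_nondegenerate
    (B := q) (v := v) hv hnd
  have hv1 : ∀ a, q (v a) (v a) ≠ 0 := hv0
  have hv2 : ∀ a b, a ≠ b → q (v a) (v b) = 0 := fun a b h => hv h
  have h1 : M = ∑ b, (1 / (2 * q (v b) (v b))) • wed q (M (v b)) (v b) := by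
    apply v.ext
    intro c
    rw [LinearMap.sum_apply]
    simp only [LinearMap.smul_apply, wed_apply, smul_sub, Finset.sum_sub_distrib]
    have h2 : ∑ b, (1 / (2 * q (v b) (v b))) • q (v b) (v c) • M (v b) = (1 / 2 : ℂ) • M (v c) := by
      rw [Finset.sum_eq_single c]
      · rw [smul_smul]
        congr 1
        have := hv1 c
        field_simp
      · intro b _ hb
        rw [hv2 b c hb, zero_smul, smul_zero]
      · intro h; exact absurd (Finset.mem_univ _) h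
    have h3 : ∑ b, (1 / (2 * q (v b) (v b))) • q (M (v b)) (v c) • v b = -((1 / 2 : ℂ) • M (v c)) := by
      have h4 : M (v c) = ∑ b, (q (v b) (M (v c)) / q (v b) (v b)) • v b := by
        conv_lhs => rw [← v.sum_repr (M (v c))]
        refine Finset.sum_congr rfl fun b _ => ?_
        congr 1
        have h5 : q (v b) (M (v c)) = v.repr (M (v c)) b * q (v b) (v b) := by
          conv_lhs => rw [← v.sum_repr (M (v c)), map_sum]
          rw [Finset.sum_eq_single b]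
          · rw [map_smul, smul_eq_mul]
          · intro b' _ hb'
            rw [map_smul, hv2 b b' (Ne.symm hb'), smul_zero]
          · intro h; exact absurd (Finset.mem_univ _) h
        rw [h5, mul_div_assoc, div_self (hv1 b), mul_one]
      rw [h4, Finset.smul_sum, ← Finset.sum_neg_distrib]
      refine Finset.sum_congr rfl fun b _ => ?_
      have h6 : q (M (v b)) (v c) = - q (v b) (M (v c)) := eq_neg_of_add_eq_zero_left (hM _ _)
      rw [h6, smul_smul, smul_smul, ← neg_smul]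
      congr 1
      have := hv1 b
      field_simp
    rw [h2, h3]
    module
  rw [h1]
  exact Submodule.sum_mem _ fun b _ => Submodule.smul_mem _ _ (Submodule.subset_span ⟨_, _, rfl⟩)

/-- a lift of a skew operator to the Clifford algebra -/
def IsBv (q : LinearMap.BilinForm ℂ (Fin n → ℂ)) (t : Fin n → Module.End ℂ V)
    (M : Module.End ℂ (Fin n → ℂ)) (s : Module.End ℂ V) : Prop :=
  (M, s) ∈ Submodule.span ℂ {p : Module.End ℂ (Fin n → ℂ) × Module.End ℂ V | ∃ x z,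
    p = (wed q x z, (1 / 4 : ℂ) • (tau t x * tau t z - tau t z * tau t x))}

lemma exists_bv (q : LinearMap.BilinForm ℂ (Fin n → ℂ)) (hs : ∀ x y, q x y = q y x)
    (hnd : q.Nondegenerate) (M : Module.End ℂ (Fin n → ℂ)) (hM : Skw q M) :
    ∃ s, IsBv q t M s := by
  have h := skw_mem_span q hs hnd M hM
  clear hM
  induction h using Submodule.span_induction with
  | mem A hA =>
    obtain ⟨x, z, rfl⟩ := hA
    exact ⟨_, Submodule.subset_span ⟨x, z, rfl⟩⟩
  | zero => exact ⟨0, Submodule.zero_mem _⟩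
  | add A B _ _ hA hB =>
    obtain ⟨s, hs⟩ := hA
    obtain ⟨s', hs'⟩ := hB
    exact ⟨s + s', Submodule.add_mem _ hs hs'⟩
  | smul c A _ hA =>
    obtain ⟨s, hs⟩ := hA
    exact ⟨c • s, Submodule.smul_mem _ c hs⟩

lemma IsBv.ind {q : LinearMap.BilinForm ℂ (Fin n → ℂ)} {M : Module.End ℂ (Fin n → ℂ)}
    {s : Module.End ℂ V} (h : IsBv q t M s)
    {p : Module.End ℂ (Fin n → ℂ) → Module.End ℂ V → Prop}
    (h1 : ∀ x z, p (wed q x z) ((1 / 4 : ℂ) • (tau t x * tau t z - tau t z * tau t x)))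
    (h0 : p 0 0) (h2 : ∀ M M' s s', p M s → p M' s' → p (M + M') (s + s'))
    (h3 : ∀ (c : ℂ) M s, p M s → p (c • M) (c • s)) : p M s := by
  have key : ∀ r ∈ Submodule.span ℂ {p : Module.End ℂ (Fin n → ℂ) × Module.End ℂ V | ∃ x z,
      p = (wed q x z, (1 / 4 : ℂ) • (tau t x * tau t z - tau t z * tau t x))}, p r.1 r.2 := by
    intro r hr
    induction hr using Submodule.span_induction with
    | mem r hr =>
      obtain ⟨x, z, rfl⟩ := hr
      exact h1 x z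
    | zero => exact h0
    | add r r' _ _ hr hr' => exact h2 _ _ _ _ hr hr'
    | smul c r _ hr => exact h3 _ _ _ hr
  exact key (M, s) h

lemma IsBv.act {q : LinearMap.BilinForm ℂ (Fin n → ℂ)}
    (hc : ∀ x y, tau t x * tau t y + tau t y * tau t x = (2 * q x y) • 1)
    {M : Module.End ℂ (Fin n → ℂ)} {s : Module.End ℂ V} (h : IsBv q t M s) : Act t s M := by
  refine h.ind (p := fun M s => Act t s M) (fun x z => act_biv q hc x z) ?_ ?_ ?_
  · intro x
    show (0 : Module.End ℂ V) * tau t x - tau t x * 0 = tau t 0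
    rw [map_zero, zero_mul, mul_zero, sub_zero]
  · intro M M' s s' h h'
    exact h.add h'
  · intro c M s h
    exact h.smul c

/-- the lifts commute with the maps which commute with products of two vectors -/
lemma IsBv.comm {q : LinearMap.BilinForm ℂ (Fin n → ℂ)}
    {M : Module.End ℂ (Fin n → ℂ)} {s : Module.End ℂ V} (h : IsBv q t M s) (f : Module.End ℂ V)
    (hf : ∀ a b, f * (t a * t b) = t a * t b * f) : f * s = s * f := by
  have hf' : ∀ x y, f * (tau t x * tau t y) = tau t x * tau t y * f := by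
    intro x y
    rw [tau_apply, tau_apply, Finset.sum_mul_sum, Finset.mul_sum, Finset.sum_mul]
    refine Finset.sum_congr rfl fun a _ => ?_
    rw [Finset.mul_sum, Finset.sum_mul]
    refine Finset.sum_congr rfl fun b _ => ?_
    rw [smul_mul_smul_comm, mul_smul_comm, smul_mul_assoc, hf]
  refine h.ind (p := fun _ s => f * s = s * f) (fun x z => ?_) ?_ ?_ ?_
  · rw [mul_smul_comm, smul_mul_assoc, mul_sub, sub_mul, hf', hf']
  · rw [mul_zero, zero_mul]
  · intro M M' s s' h h'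
    rw [mul_add, add_mul, h, h']
  · intro c M s h
    rw [mul_smul_comm, smul_mul_assoc, h]

/-- transport of lifts by isometries -/
lemma IsBv.trans {V' : Type} [AddCommGroup V'] [Module ℂ V'] {n' : ℕ}
    {t' : Fin n' → Module.End ℂ V'} {q : LinearMap.BilinForm ℂ (Fin n → ℂ)}
    {q' : LinearMap.BilinForm ℂ (Fin n' → ℂ)} (g : (Fin n → ℂ) ≃ₗ[ℂ] (Fin n' → ℂ))
    (hg : ∀ x y, q' (g x) (g y) = q x y) (f : V →ₗ[ℂ] V')
    (hf : ∀ x y, f ∘ₗ (tau t x * tau t y) = (tau t' (g x) * tau t' (g y)) ∘ₗ f)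
    {M : Module.End ℂ (Fin n → ℂ)} {s : Module.End ℂ V} (h : IsBv q t M s) :
    ∃ s' M', IsBv q' t' M' s' ∧ (∀ x, M' (g x) = g (M x)) ∧ f ∘ₗ s = s' ∘ₗ f := by
  refine h.ind (p := fun M s => ∃ s' M', IsBv q' t' M' s' ∧ (∀ x, M' (g x) = g (M x)) ∧
    f ∘ₗ s = s' ∘ₗ f) (fun x z => ?_) ?_ ?_ ?_
  · refine ⟨_, _, Submodule.subset_span ⟨g x, g z, rfl⟩, fun y => ?_, ?_⟩
    · rw [wed_apply, wed_apply, hg, hg, map_sub, map_smul, map_smul]
    · rw [LinearMap.comp_smul, LinearMap.smul_comp, LinearMap.comp_sub, LinearMap.sub_comp, hf, hf]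
  · refine ⟨0, 0, Submodule.zero_mem _, fun y => ?_, ?_⟩
    · rw [LinearMap.zero_apply, LinearMap.zero_apply, map_zero]
    · rw [LinearMap.comp_zero, LinearMap.zero_comp]
  · rintro M M' s s' ⟨s1, M1, h1, h2, h3⟩ ⟨s1', M1', h1', h2', h3'⟩
    refine ⟨s1 + s1', M1 + M1', Submodule.add_mem _ h1 h1', fun y => ?_, ?_⟩
    · rw [LinearMap.add_apply, LinearMap.add_apply, map_add, h2, h2']
    · rw [LinearMap.comp_add, LinearMap.add_comp, h3, h3']
  · rintro c M s ⟨s1, M1, h1, h2, h3⟩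
    refine ⟨c • s1, c • M1, Submodule.smul_mem _ c h1, fun y => ?_, ?_⟩
    · rw [LinearMap.smul_apply, LinearMap.smul_apply, map_smul, h2]
    · rw [LinearMap.comp_smul, LinearMap.smul_comp, h3]

end bv

end Pool.Agent.KSP
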