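import Pool.Agent.KS.Final2
import Pool.Agent.KSP.Fam1
import Pool.Agent.KSP.Avg
import Pool.Agent.KSP.CentF

/-!
Products of Kuga-Satake varieties: the symmetries of a class are determined by their action on the
quadratic spaces.
-/

namespace Pool.Agent.KSP

open Module Matrix Pool.Agent.Helper7 Pool.Agent.Ball Pool.Agent.KS Pool.Agent.Helper28.GPC

section single

variable {κ : Type} [Fintype κ] [DecidableEq κ] {ϖ : ℂ}
    (hϖ : ϖ ≠ 0) (P : PData κ ϖ) (hP : HNd P) {n : ℕ} (hn : 3 ≤ n) (hn5 : n ≠ 5)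
    {G : Matrix (Fin n) (Fin n) ℚ} (hG : Gᵀ = G) (hsig : Sig2 (rm G) ∨ Sig2 (-(rm G)))
    {t : Fin n → Module.End ℂ (κ → ℂ)} (K : KSD P G t)

/-- the only slot -/
def evU (κ : Type) : HW (fun _ : Unit => κ) (fun _ => 1) →ₗ[ℂ] (κ → ℂ) where
  toFun v := v () 0
  map_add' _ _ := rfl
  map_smul' _ _ := rfl

include hϖ hP hn hn5 hG hsig K in
/-- the polarization is invariant under the spin algebra -/
lemma pol_biv (a b : Fin n) (u v : κ → ℂ) :
    P.ψ ((t a * t b - t b * t a) u) v + P.ψ u ((t a * t b - t b * t a) v) = 0 := by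
  let α : MultilinearMap ℂ (fun _ : Fin (2 * 1) => HW (fun _ : Unit => κ) (fun _ => 1)) ℂ :=
    Gam.pull (evU κ) (Gam.two P.ψ)
  have h1 := kill_form hϖ P hP hn hn5 hG hsig K α (by
    intro v hv
    obtain ⟨q, hq⟩ := P.hψQ _ (hv 0 () 0) _ (hv 1 () 0)
    exact ⟨q, by rw [pow_one]; exact hq⟩) (by
    intro v hv
    exact psi_alg P.ψ P.hψalg _ _ (hv 0 () 0) (hv 1 () 0)) a b
  have h2 := DFunLike.congr_fun h1 ![fun _ _ => u, fun _ _ => v]
  rw [actForm_apply] at h2
  have h3 : α (Function.update ![fun _ _ => u, fun _ _ => v] 0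
      (lift (fun _ => 1) (fun _ : Unit => t a * t b - t b * t a) (fun _ _ => u))) +
    α (Function.update ![fun _ _ => u, fun _ _ => v] 1
      (lift (fun _ => 1) (fun _ : Unit => t a * t b - t b * t a) (fun _ _ => v))) = 0 := by
    refine Eq.trans ?_ h2
    exact (Fin.sum_univ_two (fun r : Fin 2 => α (Function.update ![fun _ _ => u, fun _ _ => v] r
      (lift (fun _ => 1) (fun _ : Unit => t a * t b - t b * t a)
        ((![fun _ _ => u, fun _ _ => v] : Fin 2 → HW (fun _ : Unit => κ) (fun _ => 1)) r))))).symm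
  exact h3

include hϖ hP hn hn5 hG hsig K in
lemma pol_bv {M : Module.End ℂ (Fin n → ℂ)} {s : Module.End ℂ (κ → ℂ)}
    (h : IsBv (bil (rm G)) t M s) (u v : κ → ℂ) : P.ψ (s u) v + P.ψ u (s v) = 0 := by
  refine h.ind (p := fun _ s => P.ψ (s u) v + P.ψ u (s v) = 0) (fun x z => ?_) ?_ ?_ ?_
  · have e2 : tau t x * tau t z - tau t z * tau t x =
        ∑ a, ∑ b, (x a * z b) • (t a * t b - t b * t a) := by
      rw [tau_apply, tau_apply, Finset.sum_mul_sum, Finset.sum_mul_sum,
        Finset.sum_comm (f := fun i j => z i • t i * x j • t j),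
        ← Finset.sum_sub_distrib]
      refine Finset.sum_congr rfl fun a _ => ?_
      rw [← Finset.sum_sub_distrib]
      refine Finset.sum_congr rfl fun b _ => ?_
      rw [smul_mul_smul_comm, smul_mul_smul_comm, mul_comm (z b)]
      exact (smul_sub _ _ _).symm
    rw [e2]
    simp only [LinearMap.smul_apply, LinearMap.sum_apply, map_sum, map_smul, smul_eq_mul]
    rw [← mul_add, ← Finset.sum_add_distrib]
    refine mul_eq_zero_of_right _ (Finset.sum_eq_zero fun a _ => ?_)
    rw [← Finset.sum_add_distrib]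
    refine Finset.sum_eq_zero fun b _ => ?_
    rw [← mul_add, pol_biv hϖ P hP hn hn5 hG hsig K a b u v, mul_zero]
  · rw [LinearMap.zero_apply, LinearMap.zero_apply, map_zero, LinearMap.zero_apply, map_zero,
      add_zero]
  · intro M M' s s' h h'
    rw [LinearMap.add_apply, LinearMap.add_apply, map_add, LinearMap.add_apply, map_add,
      add_add_add_comm, h, h', add_zero]
  · intro c M s h
    rw [LinearMap.smul_apply, LinearMap.smul_apply, map_smul, LinearMap.smul_apply, map_smul,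
      ← smul_add, h, smul_zero]

end single

section fam

variable {I : Type} [Fintype I] [DecidableEq I] (n : I → ℕ) {κ : I → Type}
    [∀ i, Fintype (κ i)] [∀ i, DecidableEq (κ i)] {ϖ : ℂ} (hϖ : ϖ ≠ 0) (P : ∀ i, PData (κ i) ϖ)
    (i : I) {d : ℕ} {G : Matrix (Fin d) (Fin d) ℚ} {t : Fin d → Module.End ℂ (κ i → ℂ)}
    (K : KSD (P i) G t) {k : ℕ}
    (γ : MultilinearMap ℂ (fun _ : Fin (2 * k) => HW κ n) ℂ)
    (hB : ∀ v : Fin (2 * k) → HW κ n, (∀ r, IsRatP n P (v r)) → ∃ q : ℚ, γ v = ϖ ^ k * q)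
    (hA : ∀ v : Fin (2 * k) → HW κ n, (∀ r i m j, IsAlgebraic ℚ (v r i m j)) →
      IsAlgebraic ℚ (γ v))
    (hP : HNd (P i)) (hn : 3 ≤ d) (hn5 : d ≠ 5) (hG : Gᵀ = G)
    (hsig : Sig2 (rm G) ∨ Sig2 (-(rm G)))

include hϖ K hP hn hn5 hG hsig in
/-- symmetries are determined by their action on the quadratic space -/
theorem eq_bv (X : GG κ) (hX : IsInv n P γ X) (hX2 : X.2 = 0) {M : Module.End ℂ (Fin d → ℂ)}
    (hXM : Act t (X.1 i) M) {s : Module.End ℂ (κ i → ℂ)} (hs : IsBv (bil (rm G)) t M s) :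
    X.1 i = s := by
  rcases isEmpty_or_nonempty (κ i) with hκ | hκ
  · apply LinearMap.ext
    intro v
    funext j
    exact hκ.elim j
  have hnd := nondeg_of_sig (rm G) (rm_symm hG) hsig
  have hc := tau_cliff K.cliff
  obtain ⟨c, hcd⟩ : ∃ c : Module.End ℂ (κ i → ℂ), c = X.1 i - s := ⟨_, rfl⟩
  -- `c` commutes with the vectors
  have h1 : ∀ x, c * tau t x = tau t x * c := by
    intro x
    have e1 := hXM x
    have e2 := hs.act hc x
    rw [← e2] at e1
    rw [hcd, sub_mul, mul_sub, sub_eq_sub_iff_add_eq_add]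
    rw [sub_eq_sub_iff_add_eq_add] at e1
    rw [e1, add_comm]
  -- `c` commutes with the maps commuting with the products of two vectors
  have h2 : ∀ f : Module.End ℂ (κ i → ℂ), (∀ a b, f * (t a * t b) = t a * t b * f) →
      c * f = f * c := by
    intro f hf
    have e1 := comm_of_productsF n P i K γ f hf X hX
    have e2 := hs.comm f hf
    rw [hcd, sub_mul, mul_sub, e1, e2]
  -- `c` is a scalar
  let Φ : ((κ i → ℂ) →ₗ[ℂ] (κ i → ℂ)) →ₗ[ℂ] ((κ i → ℂ) →ₗ[ℂ] (κ i → ℂ)) :=
    LinearMap.mulLeft ℂ c - LinearMap.mulRight ℂ c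
  have hΦ : ∀ f, Φ f = c * f - f * c := fun _ => rfl
  have h3 : Φ = 0 := by
    by_contra h0
    obtain ⟨f, hf, hf0⟩ := avg (bil (rm G)) (bil_symm (rm_symm hG)) hnd (tau t) (tau t) hc hc Φ
      (by
        intro x f
        show c * (tau t x * f) - (tau t x * f) * c = tau t x * (c * f - f * c)
        rw [mul_sub, ← mul_assoc, h1, mul_assoc, mul_assoc])
      (by
        intro x f
        show c * (f * tau t x) - (f * tau t x) * c = (c * f - f * c) * tau t x
        rw [sub_mul, ← mul_assoc, mul_assoc f, ← h1, mul_assoc f]) h0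
    apply hf0
    rw [hΦ, h2 f, sub_self]
    intro a b
    have e1 := hf (Pi.single a 1) (Pi.single b 1)
    rw [tau_single, tau_single] at e1
    exact e1
  have h4 : ∀ f : Module.End ℂ (κ i → ℂ), c * f = f * c := by
    intro f
    have e1 := hΦ f
    rw [h3, LinearMap.zero_apply] at e1
    exact sub_eq_zero.mp e1.symm
  obtain ⟨z, hz⟩ : ∃ z : ℂ, c = z • (1 : Module.End ℂ (κ i → ℂ)) := by
    obtain ⟨z, hα, hz⟩ := Module.End.mem_center_iff.mp
      (Subring.mem_center_iff.mpr fun f => (h4 f).symm)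
    refine ⟨z, ?_⟩
    rw [hz]
    rfl
  -- the polarization
  have h5 : ∀ u v, (P i).ψ (c u) v + (P i).ψ u (c v) = 0 := by
    intro u v
    have e1 := hX.pol i u v
    have e2 := pol_bv hϖ (P i) hP hn hn5 hG hsig K hs u v
    rw [hX2, zero_mul] at e1
    rw [hcd]
    simp only [LinearMap.sub_apply, map_sub]
    linear_combination e1 - e2
  have h6 : z = 0 := by
    by_contra hz0
    obtain ⟨j⟩ := hκ
    have e1 := (P i).hψnd (Pi.single j 1) (fun v => by
      have e2 := h5 (Pi.single j 1) v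
      rw [hz, LinearMap.smul_apply, LinearMap.smul_apply, map_smul, LinearMap.smul_apply,
        map_smul, Module.End.one_apply, Module.End.one_apply, smul_eq_mul] at e2
      have e3 : z * (2 * (P i).ψ (Pi.single j 1) v) = 0 := by linear_combination e2
      have e4 := (mul_eq_zero.mp e3).resolve_left hz0
      exact (mul_eq_zero.mp e4).resolve_left two_ne_zero)
    have e2 := congrFun e1 j
    rw [Pi.single_eq_same, Pi.zero_apply] at e2
    exact one_ne_zero e2
  rw [h6, zero_smul] at hz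
  rw [hz] at hcd
  exact sub_eq_zero.mp hcd.symm

end fam

end Pool.Agent.KSP
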