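import Pool.Agent.KSP.AVF
import Pool.Agent.KSP.Fft
import Pool.Agent.KSP.TenA

/-!
Tensors on the transcendental lattices of K3 surfaces.
-/

namespace Pool.Agent.KSP

open Module Matrix Pool.Agent.Helper7 Pool.Agent.Ball Pool.Agent.Helper28.GPC Pool.Agent.KS
open Pool.Agent.GPC (AbVar)

section rat

variable {W ι : Type} [AddCommGroup W] [Module ℂ W]

/-- a rational form in the complex span of rational forms is in their rational span -/
lemma rat_span (b : Basis ι ℂ W) {j : ℕ} (S : Set (MultilinearMap ℂ (fun _ : Fin j => W) ℂ))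
    (hS : ∀ ω ∈ S, ∀ f : Fin j → ι, ∃ q : ℚ, ω (fun r => b (f r)) = q)
    (F : MultilinearMap ℂ (fun _ : Fin j => W) ℂ)
    (hF : ∀ f : Fin j → ι, ∃ q : ℚ, F (fun r => b (f r)) = q)
    (h : F ∈ Submodule.span ℂ S) : F ∈ Submodule.span ℚ S := by
  obtain ⟨ρ, hρ⟩ : ∃ ρ : ℂ →ₗ[ℚ] ℚ, ∀ q : ℚ, ρ (q : ℂ) = q := by
    obtain ⟨ρ, hρ⟩ := LinearMap.exists_leftInverse_of_injective (Algebra.linearMap ℚ ℂ)
      (LinearMap.ker_eq_bot.mpr (algebraMap ℚ ℂ).injective)
    exact ⟨ρ, fun q => LinearMap.congr_fun hρ q⟩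
  rw [Submodule.mem_span_set'] at h
  obtain ⟨m, c, g, hg⟩ := h
  have h1 : F = ∑ l, (ρ (c l) : ℚ) • (g l : MultilinearMap ℂ (fun _ : Fin j => W) ℂ) := by
    apply Basis.ext_multilinear (fun _ => b)
    intro f
    obtain ⟨q, hq⟩ := hF f
    have e1 : ∑ l, c l * (g l : MultilinearMap ℂ (fun _ : Fin j => W) ℂ) (fun r => b (f r)) =
        (q : ℂ) := by
      rw [← hq, ← hg, _root_.sum_apply]
      rfl
    choose p hp using fun l => hS (g l) (g l).2 f
    have e2 : ∑ l, (ρ (c l)) * p l = q := by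
      rw [← hρ q, ← e1, map_sum]
      refine Finset.sum_congr rfl fun l _ => ?_
      rw [hp l, mul_comm (c l), ← Rat.smul_def, map_smul, smul_eq_mul, mul_comm]
    rw [hq, ← e2, _root_.sum_apply]
    push_cast
    refine Finset.sum_congr rfl fun l _ => ?_
    show _ = ρ (c l) • (g l : MultilinearMap ℂ (fun _ : Fin j => W) ℂ) (fun r => b (f r))
    rw [hp l, Rat.smul_def]
  rw [h1]
  exact Submodule.sum_mem _ fun l _ => Submodule.smul_mem _ _ (Submodule.subset_span (g l).2)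

end rat

lemma isAlgebraic_sum {ι : Type} [Fintype ι] {f : ι → ℂ} (h : ∀ a, IsAlgebraic ℚ (f a)) :
    IsAlgebraic ℚ (∑ a, f a) := by
  classical
  have : ∀ s : Finset ι, IsAlgebraic ℚ (∑ a ∈ s, f a) := by
    intro s
    induction s using Finset.induction_on with
    | empty => rw [Finset.sum_empty]; exact isAlgebraic_zero
    | insert a s ha ih => rw [Finset.sum_insert ha]; exact (h a).add ih
  exact this _

theorem main_k3 {I : Type} [Fintype I] (A : I → AbVar) (d : I → ℕ)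
    (S : ∀ i, (A i).KugaSatake (d i)) (hg : ∀ i, 0 < (A i).g)
    (hn : ∀ i, 3 ≤ d i) (hn5 : ∀ i, d i ≠ 5) (hn4 : (∀ i, d i ≠ 4) ∨ Subsingleton I)
    (hHom : ∀ i j, i ≠ j → ∀ f, (A i).IsMor (A j) f → ∀ v, f v = 0) (j : ℕ) (hj : ∀ i, j < d i)
    (F : MultilinearMap ℂ (fun _ : Fin j => (i : I) → Fin (d i) → ℂ) ℂ)
    (hFQ : ∀ v : Fin j → (i : I) → Fin (d i) → ℂ, (∀ r i a, ∃ c : ℚ, v r i a = c) →
      ∃ c : ℚ, F v = c)
    (hFA : ∀ v : Fin j → (i : I) → Fin (d i) → ℂ,
      (∀ r i w, (A i).IsDeRham w → (A i).IsDeRham (∑ a, v r i a • (S i).t a w)) →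
        IsAlgebraic ℚ (F v)) :
    F ∈ Submodule.span ℚ {ω : MultilinearMap ℂ (fun _ : Fin j => (i : I) → Fin (d i) → ℂ) ℂ |
      ∃ (m : ℕ) (e : Fin m × Fin 2 ≃ Fin j) (l : Fin m → I), ∀ v, ω v =
        ∏ a, ∑ x, ∑ y, v (e (a, 0)) (l a) x * ((S (l a)).G x y : ℂ) * v (e (a, 1)) (l a) y} := by
  classical
  have hϖ := Complex.two_pi_I_ne_zero
  have : ∀ i, Nonempty (Fin (A i).g ⊕ Fin (A i).g) := fun i => ⟨Sum.inl ⟨0, hg i⟩⟩
  have hnd : ∀ i, (bil (rm (S i).G)).Nondegenerate := fun i =>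
    nondeg_of_sig (rm (S i).G) (rm_symm (S i).symm) (S i).signature
  have K := fun i => ksd (A i) (S i)
  obtain ⟨α, hB, hA, hα⟩ := tensor_form (fun i => pData (A i)) (fun i => (S i).symm) hnd K F hFQ
    (by
      intro v hv
      apply hFA v
      intro r i w hw b
      have h1 : ∑ a, v r i a • (S i).t a w = tau (lt (A i) (S i)) (v r i) w := by
        rw [tau_apply, LinearMap.sum_apply]
        rfl
      have h2 : tau (lt (A i) (S i)) (v r i) w =
          ∑ a, w a • tau (lt (A i) (S i)) (v r i) (Pi.single a 1) := by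
        conv_lhs => rw [← Finset.univ_sum_single w, map_sum]
        refine Finset.sum_congr rfl fun a _ => ?_
        rw [← map_smul, ← Pi.single_smul, smul_eq_mul, mul_one]
      rw [h1, h2, Finset.sum_apply]
      refine isAlgebraic_sum fun a => ?_
      rw [Pi.smul_apply, smul_eq_mul]
      exact (hw a).mul (hv r i a b))
  have hHom' : ∀ i j, i ≠ j → ∀ f : (A i).H1 →ₗ[ℂ] (A j).H1,
      IsDRB (pData (A i)) (pData (A j)) f → f = 0 := by
    intro i j hij f hf
    apply LinearMap.ext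
    intro v
    have h1 := (isDRB_iff (A i) (A j) f).mp hf
    exact hHom i j hij f ⟨f.isLinear, h1.1, h1.2,
      Pool.Agent.GPC.hom_fil (A i) (A j) f f.isLinear h1.1 h1.2⟩ v
  have hF : ∀ i (x y : Fin (d i) → ℂ) (v : Fin j → (i : I) → Fin (d i) → ℂ),
      ∑ r, F (Function.update v r (Pi.single i (wed (bil (rm (S i).G)) x y (v r i)))) = 0 := by
    intro i x y v
    rcases Nat.eq_zero_or_pos j with rfl | hj0
    · exact Finset.sum_eq_zero fun r _ => Fin.elim0 r
    have hs : IsBv (bil (rm (S i).G)) (lt (A i) (S i)) (wed (bil (rm (S i).G)) x y)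
        ((1 / 4 : ℂ) • (tau (lt (A i) (S i)) x * tau (lt (A i) (S i)) y -
          tau (lt (A i) (S i)) y * tau (lt (A i) (S i)) x)) :=
      Submodule.subset_span ⟨x, y, rfl⟩
    have hsk : Skw (bil (rm (S i).G)) (wed (bil (rm (S i).G)) x y) :=
      wed_skew' _ (bil_symm (rm_symm (S i).symm)) x y
    have h1 := biv_invF (fun _ => 1) hϖ (fun i => pData (A i)) K α hB hA
      (fun i => hnd_pData (A i)) hn hn5 hn4 (fun i => (S i).symm) (fun i => (S i).signature) hHom'
      hj0 i hs hsk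
    refine hα i _ _ (hs.act (tau_cliff (K i).cliff)) (fun u v => ?_) hsk ?_ v
    · exact pol_bv hϖ (pData (A i)) (hnd_pData (A i)) (hn i) (hn5 i) (S i).symm (S i).signature
        (K i) hs u v
    · have h2 := h1.form
      rw [mul_zero, zero_smul] at h2
      exact h2
  have h1 := fft d (fun i => bil (rm (S i).G)) (fun i => bil_symm (rm_symm (S i).symm)) hnd j hj F hF
  have hrat : ∀ (f : Fin j → Σ i, Fin (d i)) (r : Fin j) (i : I) (a : Fin (d i)), ∃ q : ℚ,
      Pi.basis (fun i => Pi.basisFun ℂ (Fin (d i))) (f r) i a = (q : ℂ) := by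
    intro f r i a
    obtain ⟨i', a'⟩ := f r
    rw [Pi.basis_apply, Pi.basisFun_apply]
    by_cases h : i = i'
    · subst h
      rw [Pi.single_eq_same]
      by_cases h2 : a = a'
      · subst h2
        rw [Pi.single_eq_same]
        exact ⟨1, by simp⟩
      · rw [Pi.single_eq_of_ne h2]
        exact ⟨0, by simp⟩
    · rw [Pi.single_eq_of_ne h]
      exact ⟨0, by simp⟩
  have h2 := rat_span (Pi.basis (fun i => Pi.basisFun ℂ (Fin (d i)))) _ ?_ F ?_ h1
  · refine Submodule.span_mono ?_ h2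
    rintro ω ⟨m, e, l, hω⟩
    refine ⟨m, e, l, fun v => ?_⟩
    rw [hω]
    refine Finset.prod_congr rfl fun a _ => ?_
    rw [bil_apply]
    refine Finset.sum_congr rfl fun x _ => Finset.sum_congr rfl fun y _ => ?_
    rw [rm, Matrix.map_apply]
    push_cast
    rfl
  · rintro ω ⟨m, e, l, hω⟩ f
    rw [hω]
    choose q hq using hrat f
    refine ⟨∏ a, ∑ x, ∑ y, q (e (a, 0)) (l a) x * (S (l a)).G x y * q (e (a, 1)) (l a) y, ?_⟩
    push_cast
    refine Finset.prod_congr rfl fun a _ => ?_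
    rw [bil_apply]
    refine Finset.sum_congr rfl fun x _ => Finset.sum_congr rfl fun y _ => ?_
    rw [rm, Matrix.map_apply, ← hq, ← hq]
    push_cast
    rfl
  · intro f
    exact hFQ _ fun r i a => hrat f r i a

end Pool.Agent.KSP
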