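import Pool.Agent.KSP.K3

/-!
Tensors of all degrees on the transcendental lattices of K3 surfaces.
-/

namespace Pool.Agent.KSP

open Module Matrix Pool.Agent.Helper7 Pool.Agent.Ball Pool.Agent.Helper28.GPC Pool.Agent.KS
open Pool.Agent.GPC (AbVar)

theorem main_k3_inv {I : Type} [Fintype I] [DecidableEq I] (A : I → AbVar) (d : I → ℕ)
    (S : ∀ i, (A i).KugaSatake (d i)) (hg : ∀ i, 0 < (A i).g)
    (hn : ∀ i, 3 ≤ d i) (hn5 : ∀ i, d i ≠ 5) (hn4 : (∀ i, d i ≠ 4) ∨ Subsingleton I)
    (hHom : ∀ i j, i ≠ j → ∀ f, (A i).IsMor (A j) f → ∀ v, f v = 0) (j : ℕ)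
    (F : MultilinearMap ℂ (fun _ : Fin j => (i : I) → Fin (d i) → ℂ) ℂ)
    (hFQ : ∀ v : Fin j → (i : I) → Fin (d i) → ℂ, (∀ r i a, ∃ c : ℚ, v r i a = c) →
      ∃ c : ℚ, F v = c)
    (hFA : ∀ v : Fin j → (i : I) → Fin (d i) → ℂ,
      (∀ r i w, (A i).IsDeRham w → (A i).IsDeRham (∑ a, v r i a • (S i).t a w)) →
        IsAlgebraic ℚ (F v))
    (i : I) (M : Module.End ℂ (Fin (d i) → ℂ))
    (hM : ∀ x y : Fin (d i) → ℂ, ∑ a, ∑ b, (M x a * ((S i).G a b : ℂ) * y b +
      x a * ((S i).G a b : ℂ) * M y b) = 0)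
    (v : Fin j → (i : I) → Fin (d i) → ℂ) :
    ∑ r, F (Function.update v r (Pi.single i (M (v r i)))) = 0 := by
  have hϖ := Complex.two_pi_I_ne_zero
  have : ∀ i, Nonempty (Fin (A i).g ⊕ Fin (A i).g) := fun i => ⟨Sum.inl ⟨0, hg i⟩⟩
  have hnd : ∀ i, (bil (rm (S i).G)).Nondegenerate := fun i =>
    nondeg_of_sig (rm (S i).G) (rm_symm (S i).symm) (S i).signature
  have K := fun i => ksd (A i) (S i)
  obtain ⟨α, hB, hA, hα⟩ := tensor_form (fun i => pData (A i)) (fun i => (S i).symm) hnd K F hFQ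
    (by
      intro v hv
      apply hFA v
      intro r i w hw b
      have h1 : ∑ a, v r i a • (S i).t a w = tau (lt (A i) (S i)) (v r i) w := by
        rw [tau_apply, LinearMap.sum_apply]
        rfl
      have h2 : tau (lt (A i) (S i)) (v r i) w =
          ∑ a, w a • tau (lt (A i) (S i)) (v r i) (Pi.single a 1) := by
        conv_lhs => rw [← Finset.univ_sum_single w, map_sum]
        refine Finset.sum_congr rfl fun a _ => ?_
        rw [← map_smul, ← Pi.single_smul, smul_eq_mul, mul_one]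
      rw [h1, h2, Finset.sum_apply]
      refine isAlgebraic_sum fun a => ?_
      rw [Pi.smul_apply, smul_eq_mul]
      exact (hw a).mul (hv r i a b))
  have hHom' : ∀ i j, i ≠ j → ∀ f : (A i).H1 →ₗ[ℂ] (A j).H1,
      IsDRB (pData (A i)) (pData (A j)) f → f = 0 := by
    intro i j hij f hf
    apply LinearMap.ext
    intro v
    have h1 := (isDRB_iff (A i) (A j) f).mp hf
    exact hHom i j hij f ⟨f.isLinear, h1.1, h1.2,
      Pool.Agent.GPC.hom_fil (A i) (A j) f f.isLinear h1.1 h1.2⟩ v
  have hF : ∀ (x y : Fin (d i) → ℂ) (v : Fin j → (i : I) → Fin (d i) → ℂ),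
      ∑ r, F (Function.update v r (Pi.single i (wed (bil (rm (S i).G)) x y (v r i)))) = 0 := by
    intro x y v
    rcases Nat.eq_zero_or_pos j with rfl | hj0
    · exact Finset.sum_eq_zero fun r _ => Fin.elim0 r
    have hs : IsBv (bil (rm (S i).G)) (lt (A i) (S i)) (wed (bil (rm (S i).G)) x y)
        ((1 / 4 : ℂ) • (tau (lt (A i) (S i)) x * tau (lt (A i) (S i)) y -
          tau (lt (A i) (S i)) y * tau (lt (A i) (S i)) x)) :=
      Submodule.subset_span ⟨x, y, rfl⟩
    have hsk : Skw (bil (rm (S i).G)) (wed (bil (rm (S i).G)) x y) :=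
      wed_skew' _ (bil_symm (rm_symm (S i).symm)) x y
    have h1 := biv_invF (fun _ => 1) hϖ (fun i => pData (A i)) K α hB hA
      (fun i => hnd_pData (A i)) hn hn5 hn4 (fun i => (S i).symm) (fun i => (S i).signature) hHom'
      hj0 i hs hsk
    refine hα i _ _ (hs.act (tau_cliff (K i).cliff)) (fun u v => ?_) hsk ?_ v
    · exact pol_bv hϖ (pData (A i)) (hnd_pData (A i)) (hn i) (hn5 i) (S i).symm (S i).signature
        (K i) hs u v
    · have h2 := h1.form
      rw [mul_zero, zero_smul] at h2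
      exact h2
  have hMs : Skw (bil (rm (S i).G)) M := by
    intro x y
    rw [bil_apply, bil_apply, ← hM x y, ← Finset.sum_add_distrib]
    refine Finset.sum_congr rfl fun a _ => ?_
    rw [← Finset.sum_add_distrib]
    refine Finset.sum_congr rfl fun b _ => ?_
    rw [rm, Matrix.map_apply]
    push_cast
    rfl
  have h := skw_mem_span (bil (rm (S i).G)) (bil_symm (rm_symm (S i).symm)) (hnd i) M hMs
  clear hMs hM
  induction h using Submodule.span_induction with
  | mem B hB =>
    obtain ⟨x, y, rfl⟩ := hB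
    exact hF x y v
  | zero =>
    refine Finset.sum_eq_zero fun r _ => ?_
    rw [LinearMap.zero_apply, Pi.single_zero]
    exact F.map_update_zero _ _
  | add B C _ _ hB hC =>
    have e : ∀ r, F (Function.update v r (Pi.single i ((B + C) (v r i)))) =
        F (Function.update v r (Pi.single i (B (v r i)))) +
        F (Function.update v r (Pi.single i (C (v r i)))) := by
      intro r
      rw [LinearMap.add_apply, Pi.single_add, F.map_update_add]
    rw [Finset.sum_congr rfl fun r _ => e r, Finset.sum_add_distrib, hB, hC, add_zero]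
  | smul c B _ hB =>
    have e : ∀ r, F (Function.update v r (Pi.single i ((c • B) (v r i)))) =
        c • F (Function.update v r (Pi.single i (B (v r i)))) := by
      intro r
      rw [LinearMap.smul_apply, Pi.single_smul, F.map_update_smul]
    rw [Finset.sum_congr rfl fun r _ => e r, ← Finset.smul_sum, hB, smul_zero]

end Pool.Agent.KSP
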